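import Pool.Agent.Lib_helper45.PPQ2.Core

/-!
# The lower bound for large `n`
-/

set_option linter.unusedSectionVars false

namespace Pool.Agent.Lib_helper45.PPQ2

open Finset Filter

theorem params {n T r D : ℕ} (h16 : 16 * 2 ^ (2 * r) * (T * kk n) ≤ n) (h4 : 4 * T ≤ 2 ^ kk n)
    (hn : 8 * 2 ^ (2 * r) < n) (hD : 8 * 2 ^ (2 * r) + 8 ≤ D) (hT : 128 * D ^ 2 * (D + 1) ≤ T)
    {N : Type} [Fintype N] {Y : ℕ} (A : Fin Y → BP (Var n T) N)
    (hA : ∀ y i, (A y).ReadsAtMost r (Sum.inr i)) (hf : ∀ v, PPMode A v ↔ LastOdd n T v) :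
    2 ^ (D - 1) ≤ Y * (3 * Fintype.card N) ^ (2 * r) := by
  set R := 2 ^ (2 * r) with hR
  have hR1 : 1 ≤ R := Nat.one_le_two_pow
  set k := kk n with hkdef
  -- the number `m`
  obtain ⟨m, hm⟩ : ∃ m, m + 1 = (n / 2 + 1) / R := by
    have : 1 ≤ (n / 2 + 1) / R := by
      rw [Nat.le_div_iff_mul_le (by omega)]
      omega
    exact ⟨(n / 2 + 1) / R - 1, by omega⟩
  have hm1 : R * (m + 1) ≤ n / 2 + 1 := by
    rw [hm]
    exact Nat.mul_div_le _ _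
  have hm2 : n / 2 + 1 < R * (m + 1) + R := by
    rw [hm]
    have := Nat.lt_mul_div_succ (n / 2 + 1) (show 0 < R by omega)
    rw [Nat.mul_add, Nat.mul_one] at this
    exact this
  refine core (n := n) (T := T) (k := kk n) (Y := Y) (m := m) (d := 8 * R - 1) (r := r) (D := D)
    ?_ ?_ ?_ ?_ hT A hA hf
  · exact h4
  · have h7 : 8 * R - 1 + 1 = 8 * R := by omega
    rw [h7]
    have h8 : 8 * R * (T * k * 2) = 16 * R * (T * k) := by ring
    have h9 : 8 * R * m = 8 * (R * (m + 1)) - 8 * R := by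
      rw [Nat.mul_add, Nat.mul_one, Nat.mul_add, Nat.add_sub_cancel]
      ring
    rw [← hkdef, h8, h9]
    omega
  · exact hm1
  · omega

/-- **The lower bound** -/
theorem lower (ε : ℝ) (hε : 0 < ε) (hε3 : ε < 1 / 3) : ∃ n0 : ℕ, ∀ n ≥ n0, ∀ r : ℕ,
    (r : ℝ) ≤ ε / 8 * Real.logb 2 n → ∀ T : ℕ, T = ⌊(n : ℝ) ^ (1 - ε)⌋₊ →
    ∀ (N : Type) [Fintype N] (Y : ℕ) (A : Fin Y → BP (Var n T) N),
    (∀ y i, (A y).ReadsAtMost r (Sum.inr i)) → (∀ v, PPMode A v ↔ LastOdd n T v) →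
    (2 : ℝ) ^ ((n : ℝ) ^ (1 / 3 - ε)) ≤ Y * (Fintype.card N : ℝ) ^ (2 * r) := by
  set a : ℝ := 1 / 3 - ε / 2 with ha
  have ha0 : 1 / 6 < a := by linarith
  have hcast : Tendsto (fun n : ℕ => (n : ℝ)) atTop atTop := tendsto_natCast_atTop_atTop
  have hpow : ∀ {c : ℝ} (_ : 0 < c) (M : ℝ), ∀ᶠ n : ℕ in atTop, M ≤ (n : ℝ) ^ c := fun hc M =>
    ((tendsto_rpow_atTop hc).comp hcast).eventually_ge_atTop M
  -- eventual facts
  have e1 := hpow (c := a - ε / 4) (by linarith) 64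
  have e2 := hpow (c := ε / 2) (by linarith) 2
  have e3 : ∀ᶠ n : ℕ in atTop, 32 * Real.log n ≤ (n : ℝ) ^ (ε / 8) := by
    have h := (isLittleO_log_rpow_atTop (by linarith : 0 < ε / 8)).bound
      (by norm_num : (0 : ℝ) < 1 / 32)
    have h2 := hcast.eventually h
    filter_upwards [h2, eventually_ge_atTop 1] with n hn hn1
    have hn1' : (1 : ℝ) ≤ n := by exact_mod_cast hn1
    rw [Real.norm_of_nonneg (Real.log_nonneg hn1'), Real.norm_of_nonneg (by positivity)] at hn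
    linarith
  have e4 := hpow (c := ε) hε 16
  have e5 := hpow (c := 1 - ε / 4) (by linarith) 16
  have e6 := hpow (c := ε / 4) (by linarith) 16
  have e7 := hpow (c := ε / 2) (by linarith) 1024
  have e8 := hpow (c := 1 - ε) (by linarith) 2
  obtain ⟨n0, h⟩ := eventually_atTop.1 (e1.and (e2.and (e3.and (e4.and (e5.and (e6.and
    (e7.and (e8.and (eventually_ge_atTop 2)))))))))
  refine ⟨n0, fun n hn r hr T hTdef N _ Y A hA hf => ?_⟩
  obtain ⟨f1, f2, f3, f4, f5, f6, f7, f8, f9⟩ := h n hn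
  have hn1 : (1 : ℝ) ≤ n := by
    have : 1 ≤ n := by omega
    exact_mod_cast this
  have hnpos : (0 : ℝ) < n := by linarith
  have hTle : (T : ℝ) ≤ (n : ℝ) ^ (1 - ε) := by
    rw [hTdef]
    exact Nat.floor_le (by positivity)
  have hTgt : (n : ℝ) ^ (1 - ε) < T + 1 := by
    rw [hTdef]
    exact Nat.lt_floor_add_one _
  have hTge : (n : ℝ) ^ (1 - ε) / 2 ≤ T := by linarith
  -- the number `R`
  have hR : (2 : ℝ) ^ (2 * r) ≤ (n : ℝ) ^ (ε / 4) := by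
    have h1 : (2 : ℝ) ^ (2 * r) = (2 : ℝ) ^ ((2 * r : ℕ) : ℝ) := (Real.rpow_natCast _ _).symm
    have h2 : (n : ℝ) ^ (ε / 4) = (2 : ℝ) ^ (Real.logb 2 n * (ε / 4)) := by
      rw [Real.rpow_mul (by norm_num), Real.rpow_logb (by norm_num) (by norm_num) hnpos]
    rw [h1, h2]
    apply Real.rpow_le_rpow_of_exponent_le (by norm_num)
    push_cast
    linarith
  have hkk : (kk n : ℝ) ≤ (n : ℝ) ^ (ε / 8) / 16 := by
    have h3 : (kk n : ℝ) ≤ Real.logb 2 n := by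
      unfold kk
      exact Real.natLog_le_logb n 2
    have h4 : Real.logb 2 n ≤ 2 * Real.log n := by
      unfold Real.logb
      rw [div_le_iff₀ (Real.log_pos (by norm_num))]
      have h5 := Real.log_two_gt_d9
      have h6 := Real.log_nonneg hn1
      nlinarith
    linarith
  have hr4 : 4 * (r : ℝ) ≤ (n : ℝ) ^ (ε / 8) := by
    have h4 : Real.logb 2 n ≤ 2 * Real.log n := by
      unfold Real.logb
      rw [div_le_iff₀ (Real.log_pos (by norm_num))]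
      have h5 := Real.log_two_gt_d9
      have h6 := Real.log_nonneg hn1
      nlinarith
    have h6 := Real.log_nonneg hn1
    nlinarith
  have hmulpow : ∀ b c : ℝ, (n : ℝ) ^ b * (n : ℝ) ^ c = (n : ℝ) ^ (b + c) := fun b c =>
    (Real.rpow_add hnpos b c).symm
  have hmono : ∀ {b c : ℝ}, b ≤ c → (n : ℝ) ^ b ≤ (n : ℝ) ^ c := fun h =>
    Real.rpow_le_rpow_of_exponent_le hn1 h
  set D := ⌊(n : ℝ) ^ a⌋₊ with hD
  have hDle : (D : ℝ) ≤ (n : ℝ) ^ a := Nat.floor_le (by positivity)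
  have hDgt : (n : ℝ) ^ a < D + 1 := Nat.lt_floor_add_one _
  have ha64 : 64 * (n : ℝ) ^ (ε / 4) ≤ (n : ℝ) ^ a := by
    have h1 : (n : ℝ) ^ a = (n : ℝ) ^ (a - ε / 4) * (n : ℝ) ^ (ε / 4) := by
      rw [hmulpow]
      congr 1
      ring
    rw [h1]
    exact mul_le_mul_of_nonneg_right f1 (by positivity)
  have hx1 : (1 : ℝ) ≤ (n : ℝ) ^ (ε / 4) := by linarith
  have hD8 : 8 * 2 ^ (2 * r) + 8 ≤ D := by
    have : (8 : ℝ) * 2 ^ (2 * r) + 8 ≤ D := by linarith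
    exact_mod_cast this
  have hDT : 128 * D ^ 2 * (D + 1) ≤ T := by
    have h1 : 128 * D ^ 2 * (D + 1) ≤ 256 * D ^ 3 := by
      have : D + 1 ≤ 2 * D := by omega
      calc 128 * D ^ 2 * (D + 1) ≤ 128 * D ^ 2 * (2 * D) := Nat.mul_le_mul_left _ this
        _ = 256 * D ^ 3 := by ring
    refine h1.trans ?_
    have h7 : ((256 * D ^ 3 : ℕ) : ℝ) ≤ T := by
      push_cast
      have h8 : (D : ℝ) ^ 3 ≤ ((n : ℝ) ^ a) ^ 3 := pow_le_pow_left₀ (Nat.cast_nonneg _) hDle 3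
      have h10 : ((n : ℝ) ^ a) ^ 3 = (n : ℝ) ^ (a * 3) := by
        rw [Real.rpow_mul hnpos.le]
        norm_cast
      have h11 : (n : ℝ) ^ (1 - ε) = (n : ℝ) ^ (a * 3) * (n : ℝ) ^ (ε / 2) := by
        rw [hmulpow]
        congr 1
        rw [ha]
        ring
      have h12 : 0 ≤ (n : ℝ) ^ (a * 3) := by positivity
      rw [h10] at h8
      nlinarith
    exact_mod_cast h7
  have h16 : 16 * 2 ^ (2 * r) * (T * kk n) ≤ n := by
    have h7 : ((16 * 2 ^ (2 * r) * (T * kk n) : ℕ) : ℝ) ≤ n := by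
      push_cast
      calc 16 * (2 : ℝ) ^ (2 * r) * ((T : ℝ) * kk n) ≤
          16 * (n : ℝ) ^ (ε / 4) * ((n : ℝ) ^ (1 - ε) * ((n : ℝ) ^ (ε / 8) / 16)) := by gcongr
        _ = (n : ℝ) ^ (ε / 4) * (n : ℝ) ^ (1 - ε) * (n : ℝ) ^ (ε / 8) := by ring
        _ = (n : ℝ) ^ (ε / 4 + (1 - ε) + ε / 8) := by rw [hmulpow, hmulpow]
        _ ≤ (n : ℝ) ^ (1 : ℝ) := hmono (by linarith)
        _ = n := Real.rpow_one _
    exact_mod_cast h7
  have h4 : 4 * T ≤ 2 ^ kk n := by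
    have hlog : n < 2 ^ (kk n + 1) := Nat.lt_pow_succ_log_self (by norm_num) n
    have h1 : ((16 * T : ℕ) : ℝ) ≤ n := by
      push_cast
      have h2 : (n : ℝ) = (n : ℝ) ^ (1 - ε) * (n : ℝ) ^ ε := by
        rw [hmulpow]
        have : 1 - ε + ε = 1 := by ring
        rw [this, Real.rpow_one]
      have h3 : 0 ≤ (n : ℝ) ^ (1 - ε) := by positivity
      calc 16 * (T : ℝ) ≤ 16 * (n : ℝ) ^ (1 - ε) := by linarith
        _ ≤ (n : ℝ) ^ (1 - ε) * (n : ℝ) ^ ε := by nlinarith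
        _ = n := h2.symm
    have h2 : 16 * T ≤ n := by exact_mod_cast h1
    have h6 : 2 ^ (kk n + 1) = 2 * 2 ^ kk n := by ring
    omega
  have h8n : 8 * 2 ^ (2 * r) < n := by
    have h1 : (8 : ℝ) * 2 ^ (2 * r) < n := by
      have h2 : (n : ℝ) = (n : ℝ) ^ (ε / 4) * (n : ℝ) ^ (1 - ε / 4) := by
        rw [hmulpow]
        have : ε / 4 + (1 - ε / 4) = 1 := by ring
        rw [this, Real.rpow_one]
      have h3 : (n : ℝ) ^ (ε / 4) * 16 ≤ n := by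
        calc (n : ℝ) ^ (ε / 4) * 16 ≤ (n : ℝ) ^ (ε / 4) * (n : ℝ) ^ (1 - ε / 4) :=
              mul_le_mul_of_nonneg_left f5 (by positivity)
          _ = n := h2.symm
      linarith
    exact_mod_cast h1
  have hmain := params h16 h4 h8n hD8 hDT A hA hf
  -- the constants
  have h12 : (2 : ℝ) ^ (D - 1) ≤ Y * (3 * (Fintype.card N : ℝ)) ^ (2 * r) := by exact_mod_cast hmain
  rw [mul_pow] at h12
  have h13 : (3 : ℝ) ^ (2 * r) ≤ 2 ^ (4 * r) := by
    rw [pow_mul, pow_mul]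
    exact pow_le_pow_left₀ (by norm_num) (by norm_num) r
  have h14 : (2 : ℝ) ^ (D - 1) ≤ 2 ^ (4 * r) * (Y * (Fintype.card N : ℝ) ^ (2 * r)) := by
    refine h12.trans ?_
    calc (Y : ℝ) * (3 ^ (2 * r) * (Fintype.card N : ℝ) ^ (2 * r)) =
        3 ^ (2 * r) * (Y * (Fintype.card N : ℝ) ^ (2 * r)) := by ring
      _ ≤ 2 ^ (4 * r) * (Y * (Fintype.card N : ℝ) ^ (2 * r)) :=
        mul_le_mul_of_nonneg_right h13 (by positivity)
  have h15 : (n : ℝ) ^ (1 / 3 - ε) + (4 * r : ℝ) ≤ ((D - 1 : ℕ) : ℝ) := by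
    have h16 : (n : ℝ) ^ a = (n : ℝ) ^ (1 / 3 - ε) * (n : ℝ) ^ (ε / 2) := by
      rw [hmulpow]
      congr 1
      rw [ha]
      ring
    have h17 : 2 * (n : ℝ) ^ (1 / 3 - ε) ≤ (n : ℝ) ^ a := by
      rw [h16, mul_comm]
      exact mul_le_mul_of_nonneg_left f2 (by positivity)
    have h18 : ((D - 1 : ℕ) : ℝ) = D - 1 := by
      rw [Nat.cast_sub (by omega)]
      norm_num
    have h19 : (n : ℝ) ^ (ε / 8) ≤ (n : ℝ) ^ (ε / 4) := hmono (by linarith)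
    rw [h18]
    linarith
  have h19 : (2 : ℝ) ^ (4 * r) * (2 : ℝ) ^ ((n : ℝ) ^ (1 / 3 - ε)) ≤
      2 ^ (4 * r) * (Y * (Fintype.card N : ℝ) ^ (2 * r)) := by
    refine le_trans ?_ h14
    rw [← Real.rpow_natCast, ← Real.rpow_natCast, ← Real.rpow_add (by norm_num)]
    apply Real.rpow_le_rpow_of_exponent_le (by norm_num)
    push_cast
    linarith
  exact le_of_mul_le_mul_left h19 (by positivity)

end Pool.Agent.Lib_helper45.PPQ2
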