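import Pool.Agent.Lib_helper45.PPQ2.Upper

/-!
# The PP mode is contained in the PSPACE mode; the hard function is in the PSPACE mode
-/

set_option linter.unusedSectionVars false

namespace Pool.Agent.Lib_helper45.PPQ2

open Finset

section game

theorem game_congr {q : List Bool} {R R' : List Bool → Prop} (h : ∀ w, R w ↔ R' w) :
    Game q R ↔ Game q R' := by
  have : R = R' := funext fun w => propext (h w)
  rw [this]

theorem game_true (m : ℕ) (q : List Bool) (R : List Bool → Prop) :
    Game (List.replicate m true ++ q) R ↔ ∃ u : List Bool, u.length = m ∧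
      Game q (fun w => R (u ++ w)) := by
  induction m generalizing R with
  | zero =>
    constructor
    · intro h
      exact ⟨[], rfl, h⟩
    · rintro ⟨u, hu, h⟩
      rw [List.length_eq_zero_iff] at hu
      subst hu
      exact h
  | succ m ih =>
    have e : List.replicate (m + 1) true ++ q = true :: (List.replicate m true ++ q) := rfl
    rw [e]
    constructor
    · rintro ⟨b, hb⟩
      obtain ⟨u, hu, h⟩ := (ih _).1 hb
      exact ⟨b :: u, by rw [List.length_cons, hu], h⟩
    · rintro ⟨u, hu, h⟩
      obtain ⟨b, u', rfl⟩ := List.exists_cons_of_length_eq_add_one hu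
      exact ⟨b, (ih _).2 ⟨u', by simpa using hu, h⟩⟩

theorem game_false (m : ℕ) (q : List Bool) (R : List Bool → Prop) :
    Game (List.replicate m false ++ q) R ↔ ∀ u : List Bool, u.length = m →
      Game q (fun w => R (u ++ w)) := by
  induction m generalizing R with
  | zero =>
    constructor
    · intro h u hu
      rw [List.length_eq_zero_iff] at hu
      subst hu
      exact h
    · intro h
      exact h [] rfl
  | succ m ih =>
    have e : List.replicate (m + 1) false ++ q = false :: (List.replicate m false ++ q) := rfl
    rw [e]
    constructor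
    · intro hb u hu
      obtain ⟨b, u', rfl⟩ := List.exists_cons_of_length_eq_add_one hu
      exact (ih _).1 (hb b) u' (by simpa using hu)
    · intro h b
      exact (ih _).2 (fun u hu => h (b :: u) (by rw [List.length_cons, hu]))

/-- the number with the given binary digits -/
def val : List Bool → ℕ
  | [] => 0
  | b :: l => (if b then 1 else 0) + 2 * val l

theorem exists_val (m : ℕ) : ∀ a < 2 ^ m, ∃ u : List Bool, u.length = m ∧ val u = a := by
  induction m with
  | zero =>
    intro a ha
    exact ⟨[], rfl, by simp only [pow_zero] at ha; unfold val; omega⟩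
  | succ m ih =>
    intro a ha
    rw [pow_succ] at ha
    obtain ⟨u, hu, hv⟩ := ih (a / 2) (by omega)
    refine ⟨decide (a % 2 = 1) :: u, by rw [List.length_cons, hu], ?_⟩
    simp only [val, hv]
    by_cases h : a % 2 = 1
    · simp only [h, decide_true, if_true]
      omega
    · simp only [h, decide_false]
      simp only [Bool.false_eq_true, if_false]
      omega

end game

section pp

/-- the quantifiers of the counting game -/
def qq : ℕ → List Bool
  | 0 => []
  | h + 1 => List.replicate (h + 1) true ++ false :: qq h

theorem length_qq (h : ℕ) : 2 * (qq h).length = h * (h + 3) := by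
  induction h with
  | zero => rfl
  | succ h ih =>
    simp only [qq, List.length_append, List.length_replicate, List.length_cons]
    nlinarith

/-- the leaf of the counting game: `inl b` is a constant, `inr j` asks the proposition number `j` -/
def dec : ℕ → ℕ → ℕ → List Bool → Bool ⊕ ℕ
  | 0, k, j, _ => if k = 0 then Sum.inl true else if k = 1 then Sum.inr j else Sum.inl false
  | h + 1, k, j, w => match w.drop (h + 1) with
    | [] => Sum.inl false
    | true :: w' => dec h (k - val (w.take (h + 1))) (2 * j + 1) w'
    | false :: w' => dec h (val (w.take (h + 1))) (2 * j) w'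

/-- the truth value of a leaf -/
def evl (p : ℕ → Prop) : Bool ⊕ ℕ → Prop
  | Sum.inl b => b = true
  | Sum.inr j => p j

open Classical in
/-- the number of true propositions in a block -/
noncomputable def cn (p : ℕ → Prop) (h j : ℕ) : ℕ :=
  ((range (2 ^ h)).filter (fun i => p (j * 2 ^ h + i))).card

theorem cn_zero (p : ℕ → Prop) (j : ℕ) : (p j → cn p 0 j = 1) ∧ (¬ p j → cn p 0 j = 0) := by
  classical
  unfold cn
  simp only [pow_zero, mul_one]
  have : range 1 = {0} := rfl
  rw [this]
  constructor
  · intro h
    rw [filter_true_of_mem (fun i hi => by rw [mem_singleton] at hi; subst hi; simpa using h),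
      card_singleton]
  · intro h
    rw [filter_false_of_mem (fun i hi => by rw [mem_singleton] at hi; subst hi; simpa using h),
      card_empty]

theorem cn_succ (p : ℕ → Prop) (h j : ℕ) : cn p (h + 1) j = cn p h (2 * j) + cn p h (2 * j + 1) := by
  classical
  unfold cn
  simp only [card_filter]
  have e : 2 ^ (h + 1) = 2 ^ h + 2 ^ h := by ring
  rw [e, sum_range_add]
  congr 1
  · apply sum_congr rfl
    intro i _
    have : j * (2 ^ h + 2 ^ h) + i = 2 * j * 2 ^ h + i := by ring
    rw [this]
  · apply sum_congr rfl
    intro i _
    have : j * (2 ^ h + 2 ^ h) + (2 ^ h + i) = (2 * j + 1) * 2 ^ h + i := by ring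
    rw [this]

theorem cn_le (p : ℕ → Prop) (h j : ℕ) : cn p h j ≤ 2 ^ h := by
  classical
  unfold cn
  refine (card_filter_le _ _).trans ?_
  rw [card_range]

theorem game_count (p : ℕ → Prop) (h : ℕ) : ∀ k j : ℕ,
    Game (qq h) (fun w => evl p (dec h k j w)) ↔ k ≤ cn p h j := by
  induction h with
  | zero =>
    intro k j
    show evl p (dec 0 k j []) ↔ k ≤ cn p 0 j
    unfold dec
    by_cases h0 : k = 0
    · simp [h0, evl]
    · rw [if_neg h0]
      by_cases h1 : k = 1
      · subst h1
        rw [if_pos rfl]
        show p j ↔ _
        by_cases hp : p j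
        · rw [(cn_zero p j).1 hp]
          simp [hp]
        · rw [(cn_zero p j).2 hp]
          simp [hp]
      · rw [if_neg h1]
        have h2 : cn p 0 j ≤ 1 := by simpa using cn_le p 0 j
        constructor
        · intro h
          simp [evl] at h
        · intro h
          omega
  | succ h ih =>
    intro k j
    rw [qq, game_true]
    have key : ∀ u : List Bool, u.length = h + 1 →
        (Game (false :: qq h) (fun w => evl p (dec (h + 1) k j (u ++ w))) ↔
          val u ≤ cn p h (2 * j) ∧ k - val u ≤ cn p h (2 * j + 1)) := by
      intro u hu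
      have hd : ∀ b w, (u ++ b :: w).drop (h + 1) = b :: w := by
        intro b w
        rw [← hu, List.drop_left]
      have ht : ∀ b w, (u ++ b :: w).take (h + 1) = u := by
        intro b w
        rw [← hu, List.take_left]
      have h1 : ∀ w, dec (h + 1) k j (u ++ true :: w) = dec h (k - val u) (2 * j + 1) w := by
        intro w
        simp only [dec, hd, ht]
      have h2 : ∀ w, dec (h + 1) k j (u ++ false :: w) = dec h (val u) (2 * j) w := by
        intro w
        simp only [dec, hd, ht]
      constructor
      · intro hg
        have g1 := hg true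
        have g2 := hg false
        simp only [h1, h2] at g1 g2
        exact ⟨(ih _ _).1 g2, (ih _ _).1 g1⟩
      · rintro ⟨g2, g1⟩ b
        cases b
        · simp only [h2]
          exact (ih _ _).2 g2
        · simp only [h1]
          exact (ih _ _).2 g1
    rw [cn_succ]
    constructor
    · rintro ⟨u, hu, hg⟩
      have := (key u hu).1 hg
      omega
    · intro hk
      obtain ⟨u, hu, hv⟩ := exists_val (h + 1) (cn p h (2 * j)) (by
        have := cn_le p h (2 * j)
        rw [pow_succ]
        have : 0 < 2 ^ h := by positivity
        omega)
      refine ⟨u, hu, (key u hu).2 ⟨by omega, by omega⟩⟩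

variable {V N : Type}

/-- a constant program -/
def constBP (s : N) (b : Bool) : BP V N where
  start := s
  label := fun _ => Sum.inr b
  next := fun s _ => s

theorem constBP_accepts (s : N) (b : Bool) (v : V → Bool) :
    (constBP s b : BP V N).Accepts v ↔ b = true := accepts_of_out 0 rfl

theorem constBP_reads [DecidableEq V] (s : N) (b : Bool) (r : ℕ) (x : V) :
    (constBP s b : BP V N).ReadsAtMost r x := by
  intro l hl
  cases hl with
  | nil => simp
  | cons b h _ => exact absurd h (by simp [constBP])

/-- the same program with one more node -/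
def liftBP (P : BP V N) : BP V (Option N) where
  start := some P.start
  label := fun s => match s with
    | some s => P.label s
    | none => Sum.inr false
  next := fun s b => match s with
    | some s => some (P.next s b)
    | none => none

theorem liftBP_step (P : BP V N) (v : V → Bool) (s : N) :
    (liftBP P).step v (some s) = some (P.step v s) := by
  unfold BP.step
  have : (liftBP P).label (some s) = P.label s := rfl
  rw [this]
  rcases P.label s with x | b <;> rfl

theorem liftBP_iter (P : BP V N) (v : V → Bool) (j : ℕ) :
    ((liftBP P).step v)^[j] (some P.start) = some ((P.step v)^[j] P.start) := by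
  induction j with
  | zero => rfl
  | succ j ih => rw [Function.iterate_succ_apply', ih, liftBP_step, Function.iterate_succ_apply']

theorem liftBP_accepts (P : BP V N) (v : V → Bool) : (liftBP P).Accepts v ↔ P.Accepts v := by
  unfold BP.Accepts
  have h : ∀ j, (liftBP P).label (((liftBP P).step v)^[j] (liftBP P).start) =
      P.label ((P.step v)^[j] P.start) := by
    intro j
    have : (liftBP P).start = some P.start := rfl
    rw [this, liftBP_iter]
    rfl
  simp only [h]

theorem liftBP_path (P : BP V N) {s : Option N} {l : List V} (h : (liftBP P).Path s l) :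
    ∀ s', s = some s' → P.Path s' l := by
  induction h with
  | nil => intro s' _; exact BP.Path.nil s'
  | cons b hl _ ih =>
    intro s' hs
    subst hs
    exact BP.Path.cons b hl (ih _ rfl)

theorem liftBP_reads [DecidableEq V] (P : BP V N) {r : ℕ} {x : V} (h : P.ReadsAtMost r x) :
    (liftBP P).ReadsAtMost r x := fun l hl => h l (liftBP_path P hl _ rfl)

/-- **PP is contained in PSPACE** -/
theorem pp_sub [DecidableEq V] {Y : ℕ} (A : Fin Y → BP V N) :
    ∃ (q : List Bool) (B : List Bool → BP V (Option N)), q.length ≤ (Nat.log 2 Y + 2) ^ 2 ∧
      (∀ (r : ℕ) (x : V), (∀ y, (A y).ReadsAtMost r x) → ∀ w, (B w).ReadsAtMost r x) ∧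
      ∀ v, PPMode A v ↔ PSPACEMode q B v := by
  classical
  set H := Nat.log 2 Y + 1 with hH
  have hY : Y < 2 ^ H := Nat.lt_pow_succ_log_self (by norm_num) Y
  let B : List Bool → BP V (Option N) := fun w =>
    match dec H (Y / 2 + 1) 0 w with
    | Sum.inl b => constBP none b
    | Sum.inr j => if h : j < Y then liftBP (A ⟨j, h⟩) else constBP none false
  refine ⟨qq H, B, ?_, ?_, ?_⟩
  · have := length_qq H
    rw [hH] at this ⊢
    nlinarith
  · intro r x hr w
    simp only [B]
    split
    · exact constBP_reads _ _ _ _
    · split_ifs
      · exact liftBP_reads _ (hr _)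
      · exact constBP_reads _ _ _ _
  · intro v
    let p : ℕ → Prop := fun j => ∃ h : j < Y, (A ⟨j, h⟩).Accepts v
    have h1 : ∀ w, (B w).Accepts v ↔ evl p (dec H (Y / 2 + 1) 0 w) := by
      intro w
      simp only [B]
      rcases dec H (Y / 2 + 1) 0 w with b | j
      · exact constBP_accepts _ _ _
      · simp only [evl, p]
        split_ifs with h
        · rw [liftBP_accepts]
          exact ⟨fun h' => ⟨h, h'⟩, fun ⟨_, h'⟩ => h'⟩
        · rw [constBP_accepts]
          simp [h]
    unfold PSPACEMode
    rw [game_congr h1, game_count]
    have h2 : cn p H 0 = (univ.filter (fun y => (A y).Accepts v)).card := by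
      unfold cn
      simp only [zero_mul, zero_add]
      symm
      refine card_bij (fun y _ => (y : ℕ)) ?_ ?_ ?_
      · intro y hy
        rw [mem_filter] at hy
        rw [mem_filter, mem_range]
        exact ⟨lt_trans y.2 hY, y.2, hy.2⟩
      · intro y _ y' _ h
        exact Fin.ext h
      · intro j hj
        rw [mem_filter] at hj
        obtain ⟨_, h, h'⟩ := hj
        exact ⟨⟨j, h⟩, by rw [mem_filter]; exact ⟨mem_univ _, h'⟩, rfl⟩
    have h3 : PPMode A v ↔ Y < 2 * (univ.filter (fun y => (A y).Accepts v)).card := by
      unfold PPMode
      convert Iff.rfl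
    rw [h2, h3]
    omega

end pp

section hard

/-- the program of the game when the chosen numbers are `a` (existential) and `b` (universal) -/
def BB2 (n T a b : ℕ) : BP (Var n T) (NN n) :=
  if h : a < T ∧ Odd a then
    (if h' : b < T then
      (if b = a then prog true ⟨a, h.1⟩
      else if a < b then prog false ⟨b, h'⟩
      else constBP (0, ((fun _ _ => 0), false)) true)
    else constBP (0, ((fun _ _ => 0), false)) true)
  else constBP (0, ((fun _ _ => 0), false)) false

/-- the programs of the game for the hard function -/
def BB (n T : ℕ) (w : List Bool) : BP (Var n T) (NN n) :=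
  BB2 n T (val (w.take (kk n + 1))) (val (w.drop (kk n + 1)))

theorem BB_reads (n T : ℕ) (w : List Bool) (x : Var n T) : (BB n T w).ReadsAtMost 1 x := by
  unfold BB BB2
  split_ifs
  · exact prog_reads _ _ _
  · exact prog_reads _ _ _
  · exact constBP_reads _ _ _ _
  · exact constBP_reads _ _ _ _
  · exact constBP_reads _ _ _ _

theorem BB_append {n T : ℕ} {u : List Bool} (hu : u.length = kk n + 1) (u' : List Bool) :
    BB n T (u ++ u') = BB2 n T (val u) (val u') := by
  unfold BB
  rw [← hu, List.take_left, List.drop_left]

/-- the hard function is given by a game with an existential and a universal block -/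
theorem hard_pspace {n T : ℕ} (hT : T ≤ n) (v : Var n T → Bool) :
    LastOdd n T v ↔ PSPACEMode (List.replicate (kk n + 1) true ++ List.replicate (kk n + 1) false)
      (BB n T) v := by
  have hTT : T ≤ 2 ^ (kk n + 1) := by
    have hlog : n < 2 ^ (kk n + 1) := Nat.lt_pow_succ_log_self (by norm_num) n
    omega
  unfold PSPACEMode
  rw [game_true]
  have key : ∀ u : List Bool, u.length = kk n + 1 → (Game (List.replicate (kk n + 1) false)
      (fun w => (BB n T (u ++ w)).Accepts v) ↔ ∀ u' : List Bool, u'.length = kk n + 1 →
        (BB2 n T (val u) (val u')).Accepts v) := by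
    intro u hu
    have := game_false (kk n + 1) [] (fun w => (BB n T (u ++ w)).Accepts v)
    rw [List.append_nil] at this
    rw [this]
    constructor
    · intro h u' hu'
      have := h u' hu'
      rw [← BB_append hu]
      simpa [Game] using this
    · intro h u' hu'
      have := h u' hu'
      rw [← BB_append hu] at this
      simpa [Game] using this
  constructor
  · rintro ⟨t, h1, h2, h3⟩
    obtain ⟨u, hu, hv⟩ := exists_val (kk n + 1) t (lt_of_lt_of_le t.2 hTT)
    refine ⟨u, hu, (key u hu).2 ?_⟩
    intro u' hu'
    rw [hv]
    unfold BB2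
    rw [dif_pos ⟨t.2, h1⟩]
    split_ifs with h4 h5 h6
    · rw [prog_accepts]
      simp only [iff_true]
      exact h2
    · rw [prog_accepts]
      simp only [Bool.false_eq_true, iff_false]
      exact h3 _ h6
    · rw [constBP_accepts]
    · rw [constBP_accepts]
  · rintro ⟨u, hu, hg⟩
    rw [key u hu] at hg
    by_cases h : val u < T ∧ Odd (val u)
    · refine ⟨⟨val u, h.1⟩, h.2, ?_, ?_⟩
      · have h1 := hg u hu
        unfold BB2 at h1
        rw [dif_pos h, dif_pos h.1, if_pos rfl, prog_accepts] at h1
        exact h1.2 rfl
      · intro t' ht'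
        obtain ⟨u', hu', hv'⟩ := exists_val (kk n + 1) t' (lt_of_lt_of_le t'.2 hTT)
        have h1 := hg u' hu'
        have hlt : val u < (t' : ℕ) := ht'
        rw [hv'] at h1
        unfold BB2 at h1
        rw [dif_pos h, dif_pos t'.2, if_neg (by omega), if_pos hlt, prog_accepts] at h1
        intro hc
        exact absurd (h1.1 hc) (by simp)
    · exfalso
      obtain ⟨u', hu', _⟩ := exists_val (kk n + 1) 0 (by positivity)
      have h1 := hg u' hu'
      unfold BB2 at h1
      rw [dif_neg h, constBP_accepts] at h1
      exact absurd h1 (by simp)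

end hard

end Pool.Agent.Lib_helper45.PPQ2
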