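import Pool.Agent.Lib_helper45.PPQ2.Lower

/-!
# The core lower bound for the PP mode
-/

set_option linter.unusedSectionVars false

namespace Pool.Agent.Lib_helper45.PPQ2

open Finset

section core

variable {n T k : ℕ}

/-- the variables -/
abbrev VarG (n T k : ℕ) : Type := ((Fin T × Fin k × Bool × Fin n) ⊕ Fin T) ⊕ Fin n

/-- the equation number `t` -/
def EqnG (v : VarG n T k → Bool) (t : Fin T) : Prop :=
  quad (fun l s i => v (Sum.inl (Sum.inl (t, l, s, i)))) (fun i => v (Sum.inr i)) =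
    if v (Sum.inl (Sum.inr t)) then 1 else 0

/-- the last equation that holds has an odd number -/
def LastOddG (v : VarG n T k → Bool) : Prop :=
  ∃ t : Fin T, Odd (t : ℕ) ∧ EqnG v t ∧ ∀ t' : Fin T, t < t' → ¬ EqnG v t'

/-- the fixed part of the input -/
def tau (C : Fin n → (Fin T × Fin k) × Bool → ZMod 2) (e : Fin T → Bool) :
    (Fin T × Fin k × Bool × Fin n) ⊕ Fin T → Bool :=
  Sum.elim (fun q => decide (C q.2.2.2 ((q.1, q.2.1), q.2.2.1) = 1)) e

theorem dot_eq (c : Fin n → ZMod 2) (x : Fin n → Bool) :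
    dot (fun i => decide (c i = 1)) x = lf c (bzv n x) := by
  unfold dot lf
  apply sum_congr rfl
  intro i _
  have : ∀ (a : ZMod 2) (b : Bool), (if decide (a = 1) && b then (1 : ZMod 2) else 0) = bz b * a := by
    decide
  exact this _ _

theorem EqnG_iff (C : Fin n → (Fin T × Fin k) × Bool → ZMod 2) (e : Fin T → Bool)
    (x : Fin n → Bool) (t : Fin T) :
    EqnG (Sum.elim (tau C e) x : VarG n T k → Bool) t ↔ t ∈ Zof C x e := by
  rw [Zof, mem_filter]
  simp only [mem_univ, true_and]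
  unfold EqnG quad qt
  simp only [Sum.elim_inl, Sum.elim_inr, tau]
  have : ∀ l : Fin k, dot (fun i => decide (C i ((t, l), false) = 1)) x *
      dot (fun i => decide (C i ((t, l), true) = 1)) x =
      lf (fun i => C i ((t, l), false)) (bzv n x) * lf (fun i => C i ((t, l), true)) (bzv n x) := by
    intro l
    rw [dot_eq (fun i => C i ((t, l), false)), dot_eq (fun i => C i ((t, l), true))]
  have h2 : (∑ l : Fin k, dot (fun i => decide (C i ((t, l), false) = 1)) x *
      dot (fun i => decide (C i ((t, l), true) = 1)) x) = ∑ l : Fin k,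
      lf (fun i => C i ((t, l), false)) (bzv n x) * lf (fun i => C i ((t, l), true)) (bzv n x) :=
    sum_congr rfl (fun l _ => this l)
  have h3 : (if e t = true then (1 : ZMod 2) else 0) = bz (e t) := rfl
  rw [← h3, ← h2]
  exact Iff.rfl

theorem LastOddG_iff (C : Fin n → (Fin T × Fin k) × Bool → ZMod 2) (e : Fin T → Bool)
    (x : Fin n → Bool) :
    LastOddG (Sum.elim (tau C e) x : VarG n T k → Bool) ↔ Omb (Zof C x e) := by
  unfold LastOddG Omb
  simp only [EqnG_iff]
  constructor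
  · rintro ⟨t, h1, h2, h3⟩
    refine ⟨t, h2, h1, fun t' ht' => ?_⟩
    by_contra hlt
    exact h3 t' (not_le.1 hlt) ht'
  · rintro ⟨t, h2, h1, h3⟩
    exact ⟨t, h1, h2, fun t' hlt ht' => absurd (h3 t' ht') (not_le.2 hlt)⟩

/-- the sum of the answers -/
theorem sum_answers {V N : Type} {Y : ℕ} (A : Fin Y → BP V N) (v : V → Bool) :
    (PPMode A v → 1 ≤ ∑ y, (2 * ind ((A y).Accepts v) - 1)) ∧
    (¬ PPMode A v → ∑ y, (2 * ind ((A y).Accepts v) - 1) ≤ 0) := by
  classical
  have h1 : ∑ y, (2 * ind ((A y).Accepts v) - 1) =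
      2 * ((univ.filter (fun y => (A y).Accepts v)).card : ℝ) - Y := by
    rw [sum_sub_distrib, ← mul_sum]
    unfold ind
    rw [← sum_filter, sum_const, sum_const, card_univ, Fintype.card_fin]
    simp
  have h2 : PPMode A v ↔ Y < 2 * (univ.filter (fun y => (A y).Accepts v)).card := by
    unfold PPMode
    convert Iff.rfl
  rw [h1, h2]
  constructor
  · intro h
    have : (Y : ℝ) + 1 ≤ 2 * ((univ.filter (fun y => (A y).Accepts v)).card : ℝ) := by
      exact_mod_cast h
    linarith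
  · intro h
    have : 2 * ((univ.filter (fun y => (A y).Accepts v)).card : ℝ) ≤ Y := by
      exact_mod_cast not_lt.1 h
    linarith

theorem core {N : Type} [Fintype N] {Y m d r D : ℕ} (hk : 4 * T ≤ 2 ^ k)
    (hgood : n + (d + 1) * (T * k * 2) < (d + 1) * m) (hm : 2 ^ (2 * r) * (m + 1) ≤ n / 2 + 1)
    (hD : d + 9 ≤ D) (hT : 128 * D ^ 2 * (D + 1) ≤ T) (A : Fin Y → BP (VarG n T k) N)
    (hA : ∀ y i, (A y).ReadsAtMost r (Sum.inr i))
    (hf : ∀ v, PPMode A v ↔ LastOddG v) :
    2 ^ (D - 1) ≤ Y * (3 * Fintype.card N) ^ (2 * r) := by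
  classical
  by_contra hcon
  push Not at hcon
  set K := (3 * Fintype.card N) ^ (2 * r) with hK
  have hYK : Y ≤ Y * K := by
    rcases Nat.eq_zero_or_pos Y with h | h
    · rw [h]
      simp
    · have : 1 ≤ Fintype.card N := Fintype.card_pos_iff.2 ⟨(A ⟨0, h⟩).start⟩
      exact Nat.le_mul_of_pos_right _ (Nat.one_le_pow _ _ (by omega))
  -- the coefficients
  obtain ⟨C, hC⟩ := exists_good (I := (Fin T × Fin k) × Bool) (X := Fin n) m d (by
    simp only [Fintype.card_prod, Fintype.card_fin, Fintype.card_bool]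
    exact hgood)
  set h : (Fin T → Bool) → (Fin n → Bool) → ℝ := fun e x =>
    ∑ y, (2 * ind ((A y).Accepts (Sum.elim (tau C e) x)) - 1) - 1 / 2 with hh
  set G := GG C h with hG
  have hp : (0 : ℝ) < 2 ^ n := by positivity
  have hcard : ((univ : Finset (Fin n → Bool)).card : ℝ) = 2 ^ n := by
    rw [card_univ, Fintype.card_fun, Fintype.card_bool, Fintype.card_fin]
    push_cast
    rfl
  -- signs
  have h1 : ∀ Z, Omb Z → 1 / 2 ≤ G Z := by
    intro Z hZ
    have e1 : ∀ x, 1 / 2 ≤ h (eof C x Z) x := by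
      intro x
      have e2 : LastOddG (Sum.elim (tau C (eof C x Z)) x : VarG n T k → Bool) := by
        rw [LastOddG_iff, Zof_eof]
        exact hZ
      have e3 := (sum_answers A (Sum.elim (tau C (eof C x Z)) x)).1 ((hf _).2 e2)
      simp only [hh]
      linarith
    simp only [hG, GG]
    rw [le_div_iff₀ hp]
    calc 1 / 2 * (2 : ℝ) ^ n = ∑ _x : Fin n → Bool, (1 / 2 : ℝ) := by
          rw [sum_const, nsmul_eq_mul, hcard]
          ring
      _ ≤ _ := sum_le_sum (fun x _ => e1 x)
  have h0 : ∀ Z, ¬ Omb Z → G Z ≤ -(1 / 2) := by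
    intro Z hZ
    have e1 : ∀ x, h (eof C x Z) x ≤ -(1 / 2) := by
      intro x
      have e2 : ¬ LastOddG (Sum.elim (tau C (eof C x Z)) x : VarG n T k → Bool) := by
        rw [LastOddG_iff, Zof_eof]
        exact hZ
      have e3 := (sum_answers A (Sum.elim (tau C (eof C x Z)) x)).2 (fun hc => e2 ((hf _).1 hc))
      simp only [hh]
      linarith
    simp only [hG, GG]
    rw [div_le_iff₀ hp]
    calc _ ≤ ∑ _x : Fin n → Bool, (-(1 / 2) : ℝ) := sum_le_sum (fun x _ => e1 x)
      _ = -(1 / 2) * (2 : ℝ) ^ n := by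
          rw [sum_const, nsmul_eq_mul, hcard]
          ring
  -- the size
  have hbound : ∀ Z, |G Z| ≤ Y + 1 / 2 := by
    intro Z
    simp only [hG, GG]
    rw [abs_div, abs_of_pos hp, div_le_iff₀ hp]
    refine (abs_sum_le_sum_abs _ _).trans ?_
    have e1 : ∀ x, |h (eof C x Z) x| ≤ Y + 1 / 2 := by
      intro x
      simp only [hh]
      refine (abs_sub _ _).trans ?_
      apply add_le_add
      · refine (abs_sum_le_sum_abs _ _).trans ?_
        calc _ ≤ ∑ _y : Fin Y, (1 : ℝ) := by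
              apply sum_le_sum
              intro y _
              unfold ind
              split_ifs <;> norm_num
          _ = Y := by simp
      · norm_num
    calc _ ≤ ∑ _x : Fin n → Bool, ((Y : ℝ) + 1 / 2) := sum_le_sum (fun x _ => e1 x)
      _ = (Y + 1 / 2) * 2 ^ n := by
          rw [sum_const, nsmul_eq_mul, hcard]
          ring
  -- the coefficients of large degree
  set M : ℝ := (2 * (Y * K) + Y + 1 / 2) * 2 ^ d with hM
  have hcoef : ∀ S : Finset (Fin T), |coef G S| ≤ M / 2 ^ (S.card * k) := by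
    intro S
    rw [hG]
    apply coef_GG_le
    intro e
    have hone : |∑ x : Fin n → Bool, (1 : ℝ) * ee (qf (cS C S) (bzv n x))| ≤
        2 ^ n * (2 ^ d / 2 ^ (S.card * k)) := by
      obtain ⟨A0, B0, _, hA0, hB0⟩ := halves n
      have hmn : m ≤ n / 2 := by
        have : m + 1 ≤ 2 ^ (2 * r) * (m + 1) := Nat.le_mul_of_pos_left _ (by positivity)
        omega
      exact rect_corr C hC S (A0 := A0) (B0 := B0) (g := fun _ => 1)
        ⟨A0, Subset.refl _, B0, Subset.refl _, by omega, by omega, fun _ => 1, fun _ => 1,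
          fun _ => by simp, fun _ => by simp, fun _ _ _ => rfl, fun _ _ _ => rfl,
          fun _ => by norm_num⟩
    have hprog : ∀ y, |∑ x : Fin n → Bool, ind ((A y).Accepts (Sum.elim (tau C e) x)) *
        ee (qf (cS C S) (bzv n x))| ≤ (K : ℝ) * (2 ^ n * (2 ^ d / 2 ^ (S.card * k))) :=
      fun y => prog_corr C hC hm (A y) (hA y) (tau C e) S
    have e1 : ∑ x, h e x * ee (qf (cS C S) (bzv n x)) =
        2 * ∑ y, ∑ x : Fin n → Bool, ind ((A y).Accepts (Sum.elim (tau C e) x)) *
        ee (qf (cS C S) (bzv n x)) - (Y + 1 / 2) * ∑ x : Fin n → Bool, (1 : ℝ) *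
        ee (qf (cS C S) (bzv n x)) := by
      rw [sum_comm, mul_sum, mul_sum, ← sum_sub_distrib]
      apply sum_congr rfl
      intro x _
      simp only [hh]
      rw [← sum_mul, sum_sub_distrib, ← mul_sum]
      simp only [sum_const, card_univ, Fintype.card_fin, nsmul_eq_mul, mul_one]
      ring
    rw [e1]
    refine (abs_sub _ _).trans ?_
    rw [abs_mul, abs_mul, abs_of_pos (by norm_num : (0 : ℝ) < 2),
      abs_of_nonneg (by positivity : (0 : ℝ) ≤ Y + 1 / 2)]
    have e2 : |∑ y, ∑ x : Fin n → Bool, ind ((A y).Accepts (Sum.elim (tau C e) x)) *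
        ee (qf (cS C S) (bzv n x))| ≤ Y * ((K : ℝ) * (2 ^ n * (2 ^ d / 2 ^ (S.card * k)))) := by
      refine (abs_sum_le_sum_abs _ _).trans ?_
      refine (sum_le_sum (fun y _ => hprog y)).trans ?_
      rw [sum_const, card_univ, Fintype.card_fin, nsmul_eq_mul]
    calc _ ≤ 2 * (Y * ((K : ℝ) * (2 ^ n * (2 ^ d / 2 ^ (S.card * k))))) +
          (Y + 1 / 2) * (2 ^ n * (2 ^ d / 2 ^ (S.card * k))) :=
          add_le_add (mul_le_mul_of_nonneg_left e2 (by norm_num))
            (mul_le_mul_of_nonneg_left hone (by positivity))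
      _ = 2 ^ n * (M / 2 ^ (S.card * k)) := by
          rw [hM]
          ring
  -- the tail
  have hYK' : ((Y : ℝ) * K) < 2 ^ (D - 1) := by exact_mod_cast hcon
  have hY' : (Y : ℝ) ≤ Y * K := by exact_mod_cast hYK
  have hD2 : (2 : ℝ) ^ D = 2 * 2 ^ (D - 1) := by
    rw [← pow_succ']
    congr 1
    omega
  have hD3 : (1 : ℝ) ≤ 2 ^ (D - 1) := one_le_pow₀ (by norm_num)
  have hMpos : 0 ≤ M := by
    rw [hM]
    positivity
  have htail : ∑ S ∈ univ.filter (fun S : Finset (Fin T) => D < S.card), |coef G S| ≤ 1 / 60 := by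
    refine (tail_le G hMpos hk (fun S _ => hcoef S)).trans ?_
    rw [div_le_iff₀ (by positivity)]
    have e1 : M ≤ 2 * 2 ^ D * 2 ^ d := by
      rw [hM]
      apply mul_le_mul_of_nonneg_right _ (by positivity)
      linarith
    have e2 : (2 : ℝ) ^ d * 512 ≤ 2 ^ D := by
      calc (2 : ℝ) ^ d * 512 = 2 ^ (d + 9) := by rw [pow_add]; norm_num
        _ ≤ 2 ^ D := pow_le_pow_right₀ (by norm_num) hD
    have e3 : (4 : ℝ) ^ D = 2 ^ D * 2 ^ D := by
      rw [← mul_pow]
      norm_num
    rw [e3]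
    have e4 : (0 : ℝ) < 2 ^ D := by positivity
    nlinarith
  obtain ⟨Z, _, hZ⟩ := doubling G (by omega : 1 ≤ D) htail h1 h0 (D + 1) hT
  have h5 := hbound Z
  have h6 : (2 : ℝ) ^ (D + 1) * (1 / 2) = 2 ^ D := by
    rw [pow_succ]
    ring
  rw [h6] at hZ
  linarith

end core

end Pool.Agent.Lib_helper45.PPQ2
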