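import Mathlib

/-!
# Correlation of rectangles with quadratic phases over the field with two elements
-/

set_option linter.unusedSectionVars false

namespace Pool.Agent.Lib_helper45.PPQ2

open Finset

/-- the additive character -/
noncomputable def ee (a : ZMod 2) : ℝ := if a = 0 then 1 else -1

theorem ee_zero : ee 0 = 1 := by simp [ee]

theorem ee_add (a b : ZMod 2) : ee (a + b) = ee a * ee b := by
  have h : ∀ a b : ZMod 2, (a = 0 ∧ b = 0 ∧ a + b = 0) ∨ (a = 0 ∧ b ≠ 0 ∧ a + b ≠ 0) ∨
      (a ≠ 0 ∧ b = 0 ∧ a + b ≠ 0) ∨ (a ≠ 0 ∧ b ≠ 0 ∧ a + b = 0) := by decide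
  unfold ee
  rcases h a b with ⟨h1, h2, h3⟩ | ⟨h1, h2, h3⟩ | ⟨h1, h2, h3⟩ | ⟨h1, h2, h3⟩
  · rw [if_pos h1, if_pos h2, if_pos h3]; norm_num
  · rw [if_pos h1, if_neg h2, if_neg h3]; norm_num
  · rw [if_neg h1, if_pos h2, if_neg h3]; norm_num
  · rw [if_neg h1, if_neg h2, if_pos h3]; norm_num

theorem abs_ee (a : ZMod 2) : |ee a| = 1 := by
  unfold ee
  split_ifs <;> simp

theorem ee_sum {ι : Type} (s : Finset ι) (f : ι → ZMod 2) :
    ee (∑ i ∈ s, f i) = ∏ i ∈ s, ee (f i) := by
  classical
  induction s using Finset.induction_on with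
  | empty => simp [ee_zero]
  | insert a s ha ih => rw [sum_insert ha, prod_insert ha, ee_add, ih]

theorem sum_ee_mul (a : ZMod 2) : ∑ b : ZMod 2, ee (b * a) = if a = 0 then 2 else 0 := by
  have h : (univ : Finset (ZMod 2)) = {0, 1} := by decide
  rw [h, sum_insert (by decide), sum_singleton, zero_mul, one_mul, ee_zero]
  unfold ee
  split_ifs <;> norm_num

/-- orthogonality -/
theorem orth {X : Type} [Fintype X] [DecidableEq X] (a : X → ZMod 2) :
    ∑ g : X → ZMod 2, ee (∑ i, g i * a i) = if a = 0 then 2 ^ Fintype.card X else 0 := by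
  have h1 : ∑ g : X → ZMod 2, ee (∑ i, g i * a i) = ∏ i, ∑ b : ZMod 2, ee (b * a i) := by
    rw [prod_univ_sum, Fintype.piFinset_univ]
    apply sum_congr rfl
    intro g _
    rw [ee_sum]
  rw [h1]
  simp only [sum_ee_mul]
  split_ifs with h
  · subst h
    simp
  · have : ∃ i, a i ≠ 0 := by
      by_contra hc
      push Not at hc
      exact h (funext hc)
    obtain ⟨i, hi⟩ := this
    apply prod_eq_zero (mem_univ i)
    rw [if_neg hi]

/-- the vector `g` restricted to `A` -/
def mk {X : Type} [DecidableEq X] (A : Finset X) (g : X → ZMod 2) : X → ZMod 2 :=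
  fun i => if i ∈ A then g i else 0

theorem mk_add {X : Type} [DecidableEq X] (A : Finset X) (g h : X → ZMod 2) :
    mk A (g + h) = mk A g + mk A h := by
  funext i
  simp only [mk, Pi.add_apply]
  split_ifs <;> simp

theorem add_self_vec {X : Type} (g : X → ZMod 2) : g + g = 0 := by
  funext i
  simp only [Pi.add_apply, Pi.zero_apply]
  have : ∀ a : ZMod 2, a + a = 0 := by decide
  exact this _

/-- linear forms -/
def lf {X : Type} [Fintype X] (c x : X → ZMod 2) : ZMod 2 := ∑ i, x i * c i

section corr

variable {X J : Type} [Fintype X] [DecidableEq X] [Fintype J] [DecidableEq J]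

theorem lf_add (c x y : X → ZMod 2) : lf c (x + y) = lf c x + lf c y := by
  unfold lf
  rw [← sum_add_distrib]
  apply sum_congr rfl
  intro i _
  rw [Pi.add_apply, add_mul]

/-- the quadratic form -/
def qf (c : J × Bool → X → ZMod 2) (x : X → ZMod 2) : ZMod 2 :=
  ∑ j, lf (c (j, false)) x * lf (c (j, true)) x

/-- its polar form, second argument packed into a vector of values -/
def ph (c : J × Bool → X → ZMod 2) (h : X → ZMod 2) : J × Bool → ZMod 2 :=
  fun p => lf (c (p.1, !p.2)) h

theorem sum_pair (f : J × Bool → ZMod 2) : ∑ p, f p = ∑ j, (f (j, false) + f (j, true)) := by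
  rw [Fintype.sum_prod_type]
  apply sum_congr rfl
  intro j _
  rw [Fintype.sum_bool, add_comm]

theorem qf_add (c : J × Bool → X → ZMod 2) (x h : X → ZMod 2) :
    qf c (x + h) = qf c x + qf c h + ∑ p, ph c h p * lf (c p) x := by
  rw [sum_pair]
  unfold qf ph
  rw [← sum_add_distrib, ← sum_add_distrib]
  apply sum_congr rfl
  intro j _
  rw [lf_add, lf_add]
  simp only [Bool.not_false, Bool.not_true]
  ring

theorem sum_lf_mk (c : J × Bool → X → ZMod 2) (v : J × Bool → ZMod 2) (A : Finset X)
    (g : X → ZMod 2) : ∑ p, v p * lf (c p) (mk A g) =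
      ∑ i, g i * (if i ∈ A then ∑ p, v p * c p i else 0) := by
  unfold lf mk
  simp only [mul_sum, ite_mul, zero_mul, mul_ite, mul_zero]
  rw [sum_comm]
  apply sum_congr rfl
  intro i _
  split_ifs
  · apply sum_congr rfl
    intro p _
    ring
  · simp

/-- relations between the coefficients in the columns `A` -/
def Ker (c : J × Bool → X → ZMod 2) (A : Finset X) : Finset (J × Bool → ZMod 2) :=
  univ.filter (fun v => ∀ i ∈ A, ∑ p, v p * c p i = 0)

theorem mem_Ker {c : J × Bool → X → ZMod 2} {A : Finset X} {v : J × Bool → ZMod 2} :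
    v ∈ Ker c A ↔ ∀ i ∈ A, ∑ p, v p * c p i = 0 := by
  unfold Ker
  rw [mem_filter]
  simp

/-- shifts whose polar form vanishes on `A` -/
def Gd (c : J × Bool → X → ZMod 2) (A B : Finset X) : Finset (X → ZMod 2) :=
  univ.filter (fun g => ph c (mk B g) ∈ Ker c A)

theorem card_Gd (c : J × Bool → X → ZMod 2) (A B : Finset X) :
    (4 : ℝ) ^ Fintype.card J * (Gd c A B).card ≤
      2 ^ Fintype.card X * ((Ker c A).card * (Ker c B).card) := by
  have hcard : Fintype.card (J × Bool) = 2 * Fintype.card J := by
    rw [Fintype.card_prod, Fintype.card_bool, mul_comm]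
  have h4 : (4 : ℝ) ^ Fintype.card J = 2 ^ Fintype.card (J × Bool) := by
    rw [hcard, pow_mul]
    norm_num
  -- indicator by orthogonality
  have h1 : ∀ a b : J × Bool → ZMod 2, ∑ y : J × Bool → ZMod 2, ee (∑ p, y p * (a p + b p)) =
      if a = b then (2 : ℝ) ^ Fintype.card (J × Bool) else 0 := by
    intro a b
    rw [orth (fun p => a p + b p)]
    have : ((fun p => a p + b p) = 0) ↔ a = b := by
      constructor
      · intro h
        funext p
        have := congrFun h p
        have key : ∀ x y : ZMod 2, x + y = 0 → x = y := by decide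
        exact key _ _ this
      · intro h
        subst h
        exact add_self_vec a
    simp only [this]
  have h2 : (4 : ℝ) ^ Fintype.card J * (Gd c A B).card = ∑ v ∈ Ker c A, ∑ g : X → ZMod 2,
      ∑ y : J × Bool → ZMod 2, ee (∑ p, y p * (ph c (mk B g) p + v p)) := by
    simp only [h1]
    rw [sum_comm]
    have : ∀ g : X → ZMod 2, ∑ v ∈ Ker c A, (if ph c (mk B g) = v then
        (2 : ℝ) ^ Fintype.card (J × Bool) else 0) =
        if ph c (mk B g) ∈ Ker c A then (2 : ℝ) ^ Fintype.card (J × Bool) else 0 := by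
      intro g
      rw [sum_ite_eq]
    simp only [this]
    rw [← sum_filter, sum_const, nsmul_eq_mul, h4]
    unfold Gd
    ring
  rw [h2]
  have h3 : ∀ v ∈ Ker c A, ∑ g : X → ZMod 2, ∑ y : J × Bool → ZMod 2,
      ee (∑ p, y p * (ph c (mk B g) p + v p)) ≤ 2 ^ Fintype.card X * (Ker c B).card := by
    intro v _
    rw [sum_comm]
    have h5 : ∀ y : J × Bool → ZMod 2, ∑ g : X → ZMod 2,
        ee (∑ p, y p * (ph c (mk B g) p + v p)) ≤
        if (fun p : J × Bool => y (p.1, !p.2)) ∈ Ker c B then (2 : ℝ) ^ Fintype.card X else 0 := by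
      intro y
      have e1 : ∀ g : X → ZMod 2, ee (∑ p, y p * (ph c (mk B g) p + v p)) =
          ee (∑ p, y p * v p) * ee (∑ i, g i *
            (if i ∈ B then ∑ p : J × Bool, y (p.1, !p.2) * c p i else 0)) := by
        intro g
        rw [← sum_lf_mk c (fun p => y (p.1, !p.2)) B g, ← ee_add]
        congr 1
        have e2 : ∑ p : J × Bool, y (p.1, !p.2) * lf (c p) (mk B g) =
            ∑ p : J × Bool, y p * ph c (mk B g) p := by
          rw [sum_pair, sum_pair]
          apply sum_congr rfl
          intro j _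
          simp only [Bool.not_false, Bool.not_true, ph]
          ring
        rw [e2, ← sum_add_distrib]
        apply sum_congr rfl
        intro p _
        ring
      simp only [e1]
      rw [← mul_sum, orth]
      have e3 : ((fun i => if i ∈ B then ∑ p : J × Bool, y (p.1, !p.2) * c p i else 0) = 0) ↔
          (fun p : J × Bool => y (p.1, !p.2)) ∈ Ker c B := by
        unfold Ker
        rw [mem_filter]
        constructor
        · intro h
          refine ⟨mem_univ _, fun i hi => ?_⟩
          have := congrFun h i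
          simpa [hi] using this
        · rintro ⟨_, h⟩
          funext i
          by_cases hi : i ∈ B
          · simpa [hi] using h i hi
          · simp [hi]
      simp only [e3]
      split_ifs
      · have := abs_ee (∑ p, y p * v p)
        have h6 : ee (∑ p, y p * v p) ≤ 1 := by
          rw [← this]
          exact le_abs_self _
        calc _ ≤ 1 * (2 : ℝ) ^ Fintype.card X := mul_le_mul_of_nonneg_right h6 (by positivity)
          _ = _ := one_mul _
      · rw [mul_zero]
    refine le_trans (sum_le_sum (fun y _ => h5 y)) ?_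
    have h7 : ∑ y : J × Bool → ZMod 2, (if (fun p : J × Bool => y (p.1, !p.2)) ∈ Ker c B then
        (2 : ℝ) ^ Fintype.card X else 0) = 2 ^ Fintype.card X * (Ker c B).card := by
      rw [← sum_filter, sum_const, nsmul_eq_mul, mul_comm]
      congr 2
      let f : (J × Bool → ZMod 2) ≃ (J × Bool → ZMod 2) :=
        { toFun := fun y p => y (p.1, !p.2)
          invFun := fun y p => y (p.1, !p.2)
          left_inv := fun y => by funext p; simp
          right_inv := fun y => by funext p; simp }
      refine card_bij (fun y _ => f y) ?_ ?_ ?_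
      · intro y hy
        rw [mem_filter] at hy
        exact hy.2
      · intro y _ y' _ h
        exact f.injective h
      · intro z hz
        refine ⟨f.symm z, ?_, f.apply_symm_apply z⟩
        rw [mem_filter]
        refine ⟨mem_univ _, ?_⟩
        have : (fun p : J × Bool => (f.symm z) (p.1, !p.2)) = f (f.symm z) := rfl
        rw [this, f.apply_symm_apply]
        exact hz
    rw [h7]
  refine le_trans (sum_le_sum h3) ?_
  rw [sum_const, nsmul_eq_mul]
  exact le_of_eq (by ring)

/-- **Correlation bound** -/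
theorem corr (c : J × Bool → X → ZMod 2) (A B : Finset X) (u w : (X → ZMod 2) → ℝ)
    (hu : ∀ x, |u x| ≤ 1) (hw : ∀ x, |w x| ≤ 1) (iu : ∀ x g, u (x + mk B g) = u x)
    (iw : ∀ x g, w (x + mk A g) = w x) :
    (∑ x, u x * w x * ee (qf c x)) ^ 2 ≤ 2 ^ Fintype.card X * (Gd c A B).card := by
  set n := Fintype.card X with hn
  set F : (X → ZMod 2) → ℝ := fun x => w x * ee (qf c x) with hF
  have hcard : (Fintype.card (X → ZMod 2) : ℝ) = 2 ^ n := by
    rw [Fintype.card_fun, ZMod.card]
    push_cast
    rfl
  have hshift : ∀ (f : (X → ZMod 2) → ℝ) (h : X → ZMod 2), ∑ x, f (x + h) = ∑ x, f x := by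
    intro f h
    exact Equiv.sum_comp (Equiv.addRight h) f
  -- averaging over the shifts in `B`
  have h1 : 2 ^ n * ∑ x, u x * w x * ee (qf c x) = ∑ x, u x * ∑ g, F (x + mk B g) := by
    have e1 : ∀ g : X → ZMod 2, ∑ x, u x * F (x + mk B g) = ∑ x, u x * w x * ee (qf c x) := by
      intro g
      rw [← hshift (fun x => u x * w x * ee (qf c x)) (mk B g)]
      apply sum_congr rfl
      intro x _
      simp only [hF]
      rw [iu]
      ring
    simp only [mul_sum]
    rw [sum_comm]
    simp only [e1]
    rw [sum_const, card_univ, nsmul_eq_mul, hcard, mul_sum]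
  have h2 : (2 ^ n * ∑ x, u x * w x * ee (qf c x)) ^ 2 ≤
      2 ^ n * ∑ x, (∑ g, F (x + mk B g)) ^ 2 := by
    rw [h1]
    refine le_trans (sum_mul_sq_le_sq_mul_sq _ _ _) ?_
    apply mul_le_mul_of_nonneg_right _ (sum_nonneg (fun _ _ => sq_nonneg _))
    calc ∑ x, u x ^ 2 ≤ ∑ _x : X → ZMod 2, (1 : ℝ) := by
          apply sum_le_sum
          intro x _
          have := hu x
          rw [← sq_abs]
          exact pow_le_one₀ (abs_nonneg _) this
      _ = 2 ^ n := by rw [sum_const, card_univ, nsmul_eq_mul, mul_one, hcard]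
  -- the square
  have h3 : ∑ x, (∑ g, F (x + mk B g)) ^ 2 = 2 ^ n * ∑ g, ∑ x, F x * F (x + mk B g) := by
    have e1 : ∑ x, (∑ g, F (x + mk B g)) ^ 2 =
        ∑ g, ∑ g', ∑ x, F (x + mk B g) * F (x + mk B g') := by
      have : ∀ x, (∑ g, F (x + mk B g)) ^ 2 = ∑ g, ∑ g', F (x + mk B g) * F (x + mk B g') := by
        intro x
        rw [sq, sum_mul_sum]
      simp only [this]
      rw [sum_comm]
      apply sum_congr rfl
      intro g _
      rw [sum_comm]
    have e2 : ∀ g g' : X → ZMod 2, ∑ x, F (x + mk B g) * F (x + mk B g') =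
        ∑ x, F x * F (x + mk B (g + g')) := by
      intro g g'
      rw [← hshift (fun x => F x * F (x + mk B (g + g'))) (mk B g)]
      apply sum_congr rfl
      intro x _
      have : x + mk B g + mk B (g + g') = x + mk B g' := by
        rw [mk_add, add_assoc, ← add_assoc (mk B g) (mk B g), add_self_vec, zero_add]
      rw [this]
    have e3 : ∀ g : X → ZMod 2, ∑ g', ∑ x, F x * F (x + mk B (g + g')) =
        ∑ g', ∑ x, F x * F (x + mk B g') := by
      intro g
      exact Equiv.sum_comp (Equiv.addLeft g) (fun g' => ∑ x, F x * F (x + mk B g'))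
    rw [e1]
    simp only [e2, e3]
    rw [sum_const, card_univ, nsmul_eq_mul, hcard]
  -- averaging over the shifts in `A`
  have h4 : ∀ g : X → ZMod 2, ∑ x, F x * F (x + mk B g) ≤
      if g ∈ Gd c A B then 2 ^ n else 0 := by
    intro g
    set h := mk B g with hh
    have hq : ∀ y, qf c y + qf c (y + h) = qf c h + ∑ p, ph c h p * lf (c p) y := by
      intro y
      rw [qf_add]
      have : ∀ a b d : ZMod 2, a + (a + b + d) = b + d := by decide
      exact this _ _ _
    have e1 : ∀ g' : X → ZMod 2, ∑ x, F x * F (x + h) =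
        ∑ x, w x * w (x + h) * (ee (qf c h + ∑ p, ph c h p * lf (c p) x) *
          ee (∑ i, g' i * (if i ∈ A then ∑ p, ph c h p * c p i else 0))) := by
      intro g'
      rw [← hshift (fun x => F x * F (x + h)) (mk A g')]
      apply sum_congr rfl
      intro x _
      simp only [hF]
      have e2 : x + mk A g' + h = (x + h) + mk A g' := by
        rw [add_assoc, add_assoc, add_comm (mk A g') h]
      rw [iw, e2, iw, ← e2]
      have e3 : ee (qf c (x + mk A g')) * ee (qf c (x + mk A g' + h)) =
          ee (qf c h + ∑ p, ph c h p * lf (c p) x) *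
          ee (∑ i, g' i * (if i ∈ A then ∑ p, ph c h p * c p i else 0)) := by
        rw [← ee_add, hq, ← ee_add, ← sum_lf_mk]
        congr 1
        have : ∑ p, ph c h p * lf (c p) (x + mk A g') =
            ∑ p, ph c h p * lf (c p) x + ∑ p, ph c h p * lf (c p) (mk A g') := by
          rw [← sum_add_distrib]
          apply sum_congr rfl
          intro p _
          rw [lf_add, mul_add]
        rw [this, add_assoc]
      rw [← e3]
      ring
    have e4 : 2 ^ n * ∑ x, F x * F (x + h) = ∑ x, w x * w (x + h) *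
        (ee (qf c h + ∑ p, ph c h p * lf (c p) x) *
          (if (fun i => if i ∈ A then ∑ p, ph c h p * c p i else 0) = 0 then 2 ^ n else 0)) := by
      have : ∑ g' : X → ZMod 2, ∑ x, F x * F (x + h) = 2 ^ n * ∑ x, F x * F (x + h) := by
        rw [sum_const, card_univ, nsmul_eq_mul, hcard]
      rw [← this, sum_congr rfl (fun g' _ => e1 g'), sum_comm]
      apply sum_congr rfl
      intro x _
      rw [← mul_sum, ← mul_sum, orth]
    have e5 : ((fun i => if i ∈ A then ∑ p, ph c h p * c p i else 0) = 0) ↔ g ∈ Gd c A B := by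
      unfold Gd Ker
      rw [mem_filter, mem_filter]
      constructor
      · intro h'
        refine ⟨mem_univ _, mem_univ _, fun i hi => ?_⟩
        have := congrFun h' i
        simpa [hi] using this
      · rintro ⟨_, _, h'⟩
        funext i
        by_cases hi : i ∈ A
        · simpa [hi] using h' i hi
        · simp [hi]
    simp only [e5] at e4
    have hp : (0 : ℝ) < 2 ^ n := by positivity
    split_ifs with hg
    · simp only [hg, if_true] at e4
      have e6 : ∑ x, w x * w (x + h) * (ee (qf c h + ∑ p, ph c h p * lf (c p) x) * 2 ^ n) ≤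
          ∑ _x : X → ZMod 2, (2 : ℝ) ^ n := by
        apply sum_le_sum
        intro x _
        refine le_trans (le_abs_self _) ?_
        rw [abs_mul, abs_mul, abs_mul, abs_ee, one_mul, abs_of_pos hp]
        calc |w x| * |w (x + h)| * 2 ^ n ≤ 1 * 2 ^ n :=
              mul_le_mul_of_nonneg_right (mul_le_one₀ (hw x) (abs_nonneg _) (hw _)) hp.le
          _ = 2 ^ n := one_mul _
      rw [← e4, sum_const, card_univ, nsmul_eq_mul, hcard] at e6
      exact le_of_mul_le_mul_left e6 hp
    · simp only [hg, if_false, mul_zero, sum_const_zero] at e4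
      have := (mul_eq_zero.1 e4).resolve_left hp.ne'
      rw [this]
  have h5 : ∑ g : X → ZMod 2, ∑ x, F x * F (x + mk B g) ≤ (Gd c A B).card * 2 ^ n := by
    refine le_trans (sum_le_sum (fun g _ => h4 g)) ?_
    rw [← sum_filter, sum_const, nsmul_eq_mul]
    apply le_of_eq
    congr 3
    ext g
    simp
  have hp : (0 : ℝ) < 2 ^ n := by positivity
  have h6 : (2 ^ n * ∑ x, u x * w x * ee (qf c x)) ^ 2 ≤
      2 ^ n * (2 ^ n * ((Gd c A B).card * 2 ^ n)) := by
    refine le_trans h2 ?_
    apply mul_le_mul_of_nonneg_left _ hp.le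
    rw [h3]
    exact mul_le_mul_of_nonneg_left h5 hp.le
  rw [mul_pow] at h6
  have h7 : (2 : ℝ) ^ n * (2 ^ n * ((Gd c A B).card * 2 ^ n)) =
      (2 ^ n) ^ 2 * (2 ^ n * (Gd c A B).card) := by ring
  rw [h7] at h6
  exact le_of_mul_le_mul_left h6 (by positivity)

end corr

end Pool.Agent.Lib_helper45.PPQ2
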