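import Pool.Agent.Lib_helper45.PPQ2.Defs

/-!
# Programs with few reads are sums of few rectangles
-/

set_option linter.unusedSectionVars false

namespace Pool.Agent.Lib_helper45.PPQ2

open Finset

section rsum

variable {X : Type} [DecidableEq X]

/-- the function does not depend on the variables in `B` -/
def Indep (B : Finset X) (h : (X → Bool) → ℝ) : Prop :=
  ∀ x x' : X → Bool, (∀ y, y ∉ B → x y = x' y) → h x = h x'

theorem Indep.mono {B B' : Finset X} {h : (X → Bool) → ℝ} (hB : B' ⊆ B) (hi : Indep B h) :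
    Indep B' h := fun x x' hx => hi x x' (fun y hy => hx y (fun h => hy (hB h)))

theorem Indep.mul {B : Finset X} {h g : (X → Bool) → ℝ} (hh : Indep B h) (hg : Indep B g) :
    Indep B (fun x => h x * g x) := fun x x' hx => by
  show h x * g x = h x' * g x'
  rw [hh x x' hx, hg x x' hx]

/-- a rectangle -/
def IsRect (m : ℕ) (A B : Finset X) (g : (X → Bool) → ℝ) : Prop :=
  ∃ A' ⊆ A, ∃ B' ⊆ B, m ≤ A'.card ∧ m ≤ B'.card ∧ ∃ u w : (X → Bool) → ℝ,
    (∀ x, |u x| ≤ 1) ∧ (∀ x, |w x| ≤ 1) ∧ Indep B' u ∧ Indep A' w ∧ ∀ x, g x = u x * w x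

/-- sums of at most `K` rectangles -/
inductive RSum (m : ℕ) (A B : Finset X) : ℕ → ((X → Bool) → ℝ) → Prop
  | zero : RSum m A B 0 (fun _ => 0)
  | weak {K : ℕ} {f : (X → Bool) → ℝ} : RSum m A B K f → RSum m A B (K + 1) f
  | add {K : ℕ} {f g : (X → Bool) → ℝ} : RSum m A B K f → IsRect m A B g →
      RSum m A B (K + 1) (fun x => f x + g x)

variable {m : ℕ} {A B : Finset X}

theorem RSum.mono {K K' : ℕ} {f : (X → Bool) → ℝ} (h : RSum m A B K f) (hK : K ≤ K') :
    RSum m A B K' f := by
  induction hK with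
  | refl => exact h
  | step _ ih => exact RSum.weak ih

theorem RSum.zero' (K : ℕ) : RSum m A B K (fun _ => 0) := RSum.mono RSum.zero (Nat.zero_le K)

theorem RSum.rect {g : (X → Bool) → ℝ} (h : IsRect m A B g) : RSum m A B 1 g := by
  have := RSum.add RSum.zero h
  simpa using this

theorem RSum.plus {K L : ℕ} {f g : (X → Bool) → ℝ} (hf : RSum m A B K f) (hg : RSum m A B L g) :
    RSum m A B (K + L) (fun x => f x + g x) := by
  induction hg with
  | zero => simpa using hf
  | weak _ ih => exact RSum.weak ih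
  | add _ hr ih =>
    have := RSum.add ih hr
    simp only [add_assoc] at this ⊢
    exact this

theorem RSum.sum {ι : Type} {K : ℕ} (s : Finset ι) {f : ι → (X → Bool) → ℝ}
    (h : ∀ i ∈ s, RSum m A B K (f i)) : RSum m A B (s.card * K) (fun x => ∑ i ∈ s, f i x) := by
  classical
  induction s using Finset.induction_on with
  | empty => simpa using RSum.zero
  | insert a s ha ih =>
    rw [card_insert_of_notMem ha]
    simp only [sum_insert ha]
    have h1 := RSum.plus (h a (mem_insert_self a s)) (ih (fun i hi => h i (mem_insert_of_mem hi)))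
    have e : (s.card + 1) * K = K + s.card * K := by ring
    rw [e]
    exact h1

theorem IsRect.symm {g : (X → Bool) → ℝ} (h : IsRect m A B g) : IsRect m B A g := by
  obtain ⟨A', hA, B', hB, h1, h2, u, w, hu, hw, iu, iw, hg⟩ := h
  exact ⟨B', hB, A', hA, h2, h1, w, u, hw, hu, iw, iu, fun x => by rw [hg x, mul_comm]⟩

theorem RSum.symm {K : ℕ} {f : (X → Bool) → ℝ} (h : RSum m A B K f) : RSum m B A K f := by
  induction h with
  | zero => exact RSum.zero
  | weak _ ih => exact RSum.weak ih
  | add _ hr ih => exact RSum.add ih hr.symm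

/-- multiplication by a function that does not depend on the second set -/
theorem RSum.mulLeft {K : ℕ} {A1 B1 : Finset X} (hA : A1 ⊆ A) (hB : B1 ⊆ B)
    {e f : (X → Bool) → ℝ} (he : ∀ x, |e x| ≤ 1) (hi : Indep B1 e) (h : RSum m A1 B1 K f) :
    RSum m A B K (fun x => e x * f x) := by
  induction h with
  | zero => simpa using RSum.zero
  | weak _ ih => exact RSum.weak ih
  | add _ hr ih =>
    obtain ⟨A', hA', B', hB', h1, h2, u, w, hu, hw, iu, iw, hg⟩ := hr
    have hrect : IsRect m A B (fun x => e x * (u x * w x)) := by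
      refine ⟨A', hA'.trans hA, B', hB'.trans hB, h1, h2, fun x => e x * u x, w, ?_, hw, ?_, iw,
        fun x => by ring⟩
      · intro x
        rw [abs_mul]
        exact mul_le_one₀ (he x) (abs_nonneg _) (hu x)
      · exact (hi.mono hB').mul iu
    have := RSum.add ih hrect
    convert this using 2 with x
    show e x * (_ + _) = _
    rw [hg x]
    ring

end rsum

/-- the number of occurrences -/
def cnt {V : Type} [DecidableEq V] (z : V) (l : List V) : ℕ := l.count z

theorem cnt_nil {V : Type} [DecidableEq V] (z : V) : cnt z [] = 0 := by simp [cnt]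

theorem cnt_cons_self {V : Type} [DecidableEq V] (z : V) (l : List V) :
    cnt z (z :: l) = cnt z l + 1 := by simp [cnt]

theorem cnt_cons_ne {V : Type} [DecidableEq V] {z z' : V} (h : z' ≠ z) (l : List V) :
    cnt z (z' :: l) = cnt z l := by simp [cnt, h]

section path

variable {W X N : Type} [DecidableEq X]

/-- paths of the program when the variables in `W` are fixed -/
inductive RPath (P : BP (W ⊕ X) N) (τ : W → Bool) : N → List X → N → Prop
  | nil (s : N) : RPath P τ s [] s
  | free {s : N} {w : W} {l : List X} {t : N} : P.label s = Sum.inl (Sum.inl w) →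
      RPath P τ (P.next s (τ w)) l t → RPath P τ s l t
  | read {s : N} {y : X} {l : List X} {t : N} (b : Bool) : P.label s = Sum.inl (Sum.inr y) →
      RPath P τ (P.next s b) l t → RPath P τ s (y :: l) t

variable {P : BP (W ⊕ X) N} {τ : W → Bool}

theorem RPath.trans {s t u : N} {l l' : List X} (h : RPath P τ s l t) (h' : RPath P τ t l' u) :
    RPath P τ s (l ++ l') u := by
  induction h with
  | nil => simpa using h'
  | free hl _ ih => exact RPath.free hl (ih h')
  | read b hl _ ih => exact RPath.read b hl (ih h')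

variable (P τ)

/-- every path from `s` reads `y` at most `p` times -/
def Bud (s : N) (y : X) (p : ℕ) : Prop := ∀ l t, RPath P τ s l t → l.count y ≤ p

/-- some path from `s` to `t` reads `y` -/
def Seen (s t : N) (y : X) : Prop := ∃ l, RPath P τ s l t ∧ y ∈ l

variable {P τ}

theorem Bud.reach {s t : N} {y : X} {p : ℕ} {l : List X} (h : Bud P τ s y p)
    (hr : RPath P τ s l t) : Bud P τ t y p := by
  intro l' u hu
  have := h _ _ (hr.trans hu)
  rw [List.count_append] at this
  omega

theorem Bud.seen {s t : N} {y : X} {p : ℕ} (h : Bud P τ s y (p + 1)) (hs : Seen P τ s t y) :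
    Bud P τ t y p := by
  obtain ⟨l, hl, hy⟩ := hs
  intro l' u hu
  have := h _ _ (hl.trans hu)
  rw [List.count_append] at this
  have h2 : 0 < l.count y := List.count_pos_iff.2 hy
  omega

theorem not_seen_self {s : N} {y : X} : ∀ {p : ℕ}, Bud P τ s y p → ¬ Seen P τ s s y := by
  intro p
  induction p with
  | zero =>
    rintro h ⟨l, hl, hy⟩
    have := h _ _ hl
    have h2 : 0 < l.count y := List.count_pos_iff.2 hy
    omega
  | succ p ih =>
    intro h hs
    exact ih (h.seen hs) hs

theorem not_seen_of_bud_zero {s t : N} {y : X} (h : Bud P τ s y 0) : ¬ Seen P τ s t y := by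
  rintro ⟨l, hl, hy⟩
  have := h _ _ hl
  have h2 : 0 < l.count y := List.count_pos_iff.2 hy
  omega

/-- reads in the restricted program -/
theorem bud_start [DecidableEq W] {y : X} {r : ℕ} (h : P.ReadsAtMost r (Sum.inr y)) :
    Bud P τ P.start y r := by
  have key : ∀ s l t, RPath P τ s l t → ∃ l', P.Path s l' ∧
      cnt (Sum.inr y) l' = l.count y := by
    intro s l t hp
    induction hp with
    | nil s => exact ⟨[], BP.Path.nil s, by simp [cnt_nil]⟩
    | free hl _ ih =>
      obtain ⟨l', h1, h2⟩ := ih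
      refine ⟨_ :: l', BP.Path.cons _ hl h1, ?_⟩
      rw [cnt_cons_ne (by simp), h2]
    | @read s' y' l'' t' b hl _ ih =>
      obtain ⟨l', h1, h2⟩ := ih
      refine ⟨_ :: l', BP.Path.cons b hl h1, ?_⟩
      by_cases hy : y' = y
      · subst hy
        rw [cnt_cons_self, List.count_cons_self, h2]
      · rw [cnt_cons_ne (by simpa using hy), List.count_cons_of_ne hy, h2]
  intro l t hl
  obtain ⟨l', h1, h2⟩ := key _ _ _ hl
  rw [← h2]
  exact h l' h1

variable (P τ)

/-- the computation from the node `s` -/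
def tr (x : X → Bool) (s : N) (j : ℕ) : N := (P.step (Sum.elim τ x))^[j] s

/-- acceptance from the node `s` -/
def acc (x : X → Bool) (s : N) : Prop := ∃ j, P.label (tr P τ x s j) = Sum.inr true

variable {P τ}

theorem tr_zero (x : X → Bool) (s : N) : tr P τ x s 0 = s := rfl

theorem tr_succ (x : X → Bool) (s : N) (j : ℕ) :
    tr P τ x s (j + 1) = P.step (Sum.elim τ x) (tr P τ x s j) := by
  unfold tr
  rw [Function.iterate_succ_apply']

theorem tr_add (x : X → Bool) (s : N) (i j : ℕ) :
    tr P τ x s (i + j) = tr P τ x (tr P τ x s i) j := by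
  unfold tr
  rw [add_comm, Function.iterate_add_apply]

theorem step_inl {v : W ⊕ X → Bool} {s : N} {z : W ⊕ X} (h : P.label s = Sum.inl z) :
    P.step v s = P.next s (v z) := by
  unfold BP.step
  rw [h]

theorem step_inr {v : W ⊕ X → Bool} {s : N} {b : Bool} (h : P.label s = Sum.inr b) :
    P.step v s = s := by
  unfold BP.step
  rw [h]

theorem tr_sink {x : X → Bool} {s : N} {b : Bool} (h : P.label s = Sum.inr b) (j : ℕ) :
    tr P τ x s j = s := by
  induction j with
  | zero => rfl
  | succ j ih => rw [tr_succ, ih, step_inr h]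

theorem tr_sink_after {x : X → Bool} {s : N} {b : Bool} {i j : ℕ}
    (h : P.label (tr P τ x s i) = Sum.inr b) (hij : i ≤ j) : tr P τ x s j = tr P τ x s i := by
  obtain ⟨k, rfl⟩ := Nat.exists_eq_add_of_le hij
  rw [tr_add, tr_sink h]

theorem tr_path (x : X → Bool) (s : N) (j : ℕ) : ∃ l, RPath P τ s l (tr P τ x s j) := by
  induction j generalizing s with
  | zero => exact ⟨[], RPath.nil s⟩
  | succ j ih =>
    have e : tr P τ x s (j + 1) = tr P τ x (P.step (Sum.elim τ x) s) j := by
      unfold tr
      rw [Function.iterate_succ_apply]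
    rw [e]
    rcases hl : P.label s with (w | y) | b
    · obtain ⟨l, h⟩ := ih (P.step (Sum.elim τ x) s)
      refine ⟨l, RPath.free hl ?_⟩
      rw [step_inl hl] at h ⊢
      exact h
    · obtain ⟨l, h⟩ := ih (P.step (Sum.elim τ x) s)
      refine ⟨y :: l, RPath.read (x y) hl ?_⟩
      rw [step_inl hl] at h ⊢
      exact h
    · rw [step_inr hl]
      exact ih s

theorem tr_seen {x : X → Bool} {s : N} {i j : ℕ} (hij : i < j) {y : X}
    (h : P.label (tr P τ x s i) = Sum.inl (Sum.inr y)) : Seen P τ s (tr P τ x s j) y := by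
  obtain ⟨l, hl⟩ := tr_path (P := P) (τ := τ) x s i
  obtain ⟨k, rfl⟩ := Nat.exists_eq_add_of_le (Nat.succ_le_of_lt hij)
  obtain ⟨l', hl'⟩ := tr_path (P := P) (τ := τ) x (tr P τ x s (i + 1)) k
  refine ⟨l ++ (y :: l'), hl.trans (RPath.read (x y) h ?_), by simp⟩
  rw [Nat.succ_eq_add_one, tr_add]
  have e : tr P τ x s (i + 1) = P.next (tr P τ x s i) (x y) := by
    rw [tr_succ, step_inl h]
    rfl
  rw [← e]
  exact hl'

/-- the computation depends only on the variables seen -/
theorem tr_congr {x x' : X → Bool} {s : N} {j : ℕ}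
    (h : ∀ y, Seen P τ s (tr P τ x s j) y → x y = x' y) :
    ∀ i ≤ j, tr P τ x' s i = tr P τ x s i := by
  intro i
  induction i with
  | zero => intro _; rfl
  | succ i ih =>
    intro hi
    have h1 := ih (by omega)
    rw [tr_succ, tr_succ, h1]
    rcases hl : P.label (tr P τ x s i) with (w | y) | b
    · rw [step_inl hl, step_inl hl]
      rfl
    · rw [step_inl hl, step_inl hl]
      have := h y (tr_seen (by omega) hl)
      simp only [Sum.elim_inr, this]
    · rw [step_inr hl, step_inr hl]

theorem acc_tr {x : X → Bool} {s : N} {j : ℕ} : acc P τ x (tr P τ x s j) ↔ acc P τ x s := by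
  constructor
  · rintro ⟨i, hi⟩
    exact ⟨j + i, by rw [tr_add]; exact hi⟩
  · rintro ⟨i, hi⟩
    rcases le_total i j with h | h
    · refine ⟨0, ?_⟩
      rw [tr_zero, tr_sink_after hi h]
      exact hi
    · obtain ⟨k, rfl⟩ := Nat.exists_eq_add_of_le h
      exact ⟨k, by rw [← tr_add]; exact hi⟩

end path

end Pool.Agent.Lib_helper45.PPQ2
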