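import Pool.Agent.Lib_helper45.PPQ2.Cut

/-!
# The cut lemma
-/

set_option linter.unusedSectionVars false

namespace Pool.Agent.Lib_helper45.PPQ2

open Finset Classical

variable {W X N : Type} [Fintype N] [DecidableEq X]

section defs

variable (P : BP (W ⊕ X) N) (τ : W → Bool)

/-- the indicator of a proposition -/
noncomputable def ind (p : Prop) : ℝ := if p then 1 else 0

theorem ind_true {p : Prop} (h : p) : ind p = 1 := by simp [ind, h]

theorem ind_false {p : Prop} (h : ¬ p) : ind p = 0 := by simp [ind, h]

theorem abs_ind_le (p : Prop) : |ind p| ≤ 1 := by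
  unfold ind
  split_ifs <;> simp

/-- the variables of `A` seen between two nodes -/
noncomputable def SA (A : Finset X) (s t : N) : Finset X := A.filter (fun y => Seen P τ s t y)

/-- at least half of one of the sets has been seen -/
def Cross (A B : Finset X) (s t : N) : Prop :=
  A.card ≤ 2 * (SA P τ A s t).card ∨ B.card ≤ 2 * (SA P τ B s t).card

/-- the node `z` is reached and no node up to it is crossing -/
def EvS (A B : Finset X) (s z : N) (x : X → Bool) : Prop :=
  ∃ j, tr P τ x s j = z ∧ ∀ i ≤ j, ¬ Cross P τ A B s (tr P τ x s i)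

/-- the first crossing is at the edge with the label `b` from `t` -/
def Ev (A B : Finset X) (s t : N) (b : Bool) (x : X → Bool) : Prop :=
  EvS P τ A B s t x ∧ (∃ v, P.label t = Sum.inl v ∧ Sum.elim τ x v = b) ∧
    Cross P τ A B s (P.next t b)

end defs

variable {P : BP (W ⊕ X) N} {τ : W → Bool}

theorem EvS_congr {A B : Finset X} {s z : N} {x x' : X → Bool}
    (h : ∀ y, Seen P τ s z y → x y = x' y) (hx : EvS P τ A B s z x) : EvS P τ A B s z x' := by
  obtain ⟨j, hj, hc⟩ := hx
  have h1 := tr_congr (P := P) (τ := τ) (x := x) (x' := x') (s := s) (j := j)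
    (fun y hy => h y (by rw [← hj]; exact hy))
  exact ⟨j, by rw [h1 j le_rfl, hj], fun i hi => by rw [h1 i hi]; exact hc i hi⟩

theorem Ev_congr {A B : Finset X} {s t : N} {b : Bool} {x x' : X → Bool}
    (h : ∀ y, (Seen P τ s t y ∨ P.label t = Sum.inl (Sum.inr y)) → x y = x' y)
    (hx : Ev P τ A B s t b x) : Ev P τ A B s t b x' := by
  obtain ⟨h1, ⟨v, hv, hb⟩, h3⟩ := hx
  refine ⟨EvS_congr (fun y hy => h y (Or.inl hy)) h1, ⟨v, hv, ?_⟩, h3⟩
  rcases v with w | y
  · exact hb
  · rw [← hb]
    exact (h y (Or.inr hv)).symm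

theorem not_cross_of_EvS {A B : Finset X} {s z : N} {x : X → Bool} (h : EvS P τ A B s z x) :
    ¬ Cross P τ A B s z := by
  obtain ⟨j, hj, hc⟩ := h
  rw [← hj]
  exact hc j le_rfl

theorem acc_sum {A B : Finset X} {s : N} (hs : ¬ Cross P τ A B s s) (x : X → Bool) :
    ind (acc P τ x s) = ∑ z : N, ind (P.label z = Sum.inr true ∧ EvS P τ A B s z x) +
      ∑ e : N × Bool, ind (Ev P τ A B s e.1 e.2 x) * ind (acc P τ x (P.next e.1 e.2)) := by
  by_cases hcr : ∃ j, Cross P τ A B s (tr P τ x s j)
  · -- the first crossing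
    set j1 := Nat.find hcr with hj1
    have hc1 : Cross P τ A B s (tr P τ x s j1) := Nat.find_spec hcr
    have hmin : ∀ i < j1, ¬ Cross P τ A B s (tr P τ x s i) := fun i hi => Nat.find_min hcr hi
    have hpos : j1 ≠ 0 := by
      intro h0
      rw [h0, tr_zero] at hc1
      exact hs hc1
    obtain ⟨j0, hj0⟩ := Nat.exists_eq_succ_of_ne_zero hpos
    rw [Nat.succ_eq_add_one] at hj0
    set t0 := tr P τ x s j0 with ht0
    have hn0 : ¬ Cross P τ A B s t0 := hmin j0 (by omega)
    have hstep : tr P τ x s j1 = P.step (Sum.elim τ x) t0 := by rw [hj0, tr_succ]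
    rcases hl : P.label t0 with v0 | c
    swap
    · exfalso
      rw [hstep, step_inr hl] at hc1
      exact hn0 hc1
    have ht1 : tr P τ x s j1 = P.next t0 (Sum.elim τ x v0) := by rw [hstep, step_inl hl]
    have hsink : ∀ z : N, ¬ (P.label z = Sum.inr true ∧ EvS P τ A B s z x) := by
      rintro z ⟨hz, j, hj, hc⟩
      have hjlt : j < j1 := by
        by_contra hge
        exact hc j1 (by omega) hc1
      have : tr P τ x s j1 = tr P τ x s j := tr_sink_after (b := true) (by rw [hj]; exact hz) hjlt.le
      rw [this] at hc1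
      exact hc j le_rfl hc1
    have h1 : ∑ z : N, ind (P.label z = Sum.inr true ∧ EvS P τ A B s z x) = 0 :=
      sum_eq_zero (fun z _ => ind_false (hsink z))
    rw [h1, zero_add]
    rw [sum_eq_single ((t0, Sum.elim τ x v0) : N × Bool)]
    · have hev : Ev P τ A B s t0 (Sum.elim τ x v0) x := by
        refine ⟨⟨j0, rfl, fun i hi => hmin i (by omega)⟩, ⟨v0, hl, rfl⟩, ?_⟩
        rw [← ht1]
        exact hc1
      rw [ind_true hev, one_mul, ← ht1]
      unfold ind
      simp only [acc_tr]
    · rintro ⟨t, b⟩ _ hne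
      have : ¬ Ev P τ A B s t b x := by
        rintro ⟨⟨j, hj, hc⟩, ⟨v, hv, hb⟩, hcr'⟩
        apply hne
        have hnx : tr P τ x s (j + 1) = P.next t b := by
          rw [tr_succ, hj, step_inl hv, hb]
        have h2 : j1 ≤ j + 1 := by
          apply Nat.find_min'
          rw [hnx]
          exact hcr'
        have h3 : j < j1 := by
          by_contra hge
          exact hc j1 (by omega) hc1
        have h4 : j = j0 := by omega
        subst h4
        have h5 : t = t0 := hj.symm
        subst h5
        rw [hl] at hv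
        have h6 : v0 = v := Sum.inl_injective hv
        subst h6
        rw [hb]
      simp only [ind_false this, zero_mul]
    · intro h
      exact absurd (mem_univ _) h
  · push Not at hcr
    have h1 : ∑ e : N × Bool, ind (Ev P τ A B s e.1 e.2 x) *
        ind (acc P τ x (P.next e.1 e.2)) = 0 := by
      apply sum_eq_zero
      rintro ⟨t, b⟩ _
      have : ¬ Ev P τ A B s t b x := by
        rintro ⟨⟨j, hj, hc⟩, ⟨v, hv, hb⟩, hcr'⟩
        apply hcr (j + 1)
        have hnx : tr P τ x s (j + 1) = P.next t b := by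
          rw [tr_succ, hj, step_inl hv, hb]
        rw [hnx]
        exact hcr'
      simp only [ind_false this, zero_mul]
    rw [h1, add_zero]
    by_cases hacc : acc P τ x s
    · obtain ⟨j, hj⟩ := hacc
      rw [ind_true ⟨j, hj⟩, sum_eq_single (tr P τ x s j)]
      · rw [ind_true ⟨hj, j, rfl, fun i _ => hcr i⟩]
      · intro z _ hne
        apply ind_false
        rintro ⟨hz, i, hi, _⟩
        apply hne
        rw [← hi]
        rcases le_total i j with h | h
        · exact (tr_sink_after (b := true) (by rw [hi]; exact hz) h).symm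
        · exact tr_sink_after hj h
      · intro h
        exact absurd (mem_univ _) h
    · rw [ind_false hacc]
      symm
      apply sum_eq_zero
      intro z _
      apply ind_false
      rintro ⟨hz, i, hi, _⟩
      exact hacc ⟨i, by rw [hi]; exact hz⟩

theorem acc_indep {A : Finset X} {s : N} (h : ∀ y ∈ A, Bud P τ s y 0) :
    Indep A (fun x => ind (acc P τ x s)) := by
  have key : ∀ x x' : X → Bool, (∀ y, y ∉ A → x y = x' y) → acc P τ x s → acc P τ x' s := by
    rintro x x' hx ⟨j, hj⟩
    have := tr_congr (P := P) (τ := τ) (x := x) (x' := x') (s := s) (j := j) (fun y hy => by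
      by_cases hA : y ∈ A
      · exact absurd hy (not_seen_of_bud_zero (h y hA))
      · exact hx y hA)
    exact ⟨j, by rw [this j le_rfl]; exact hj⟩
  intro x x' hx
  have : acc P τ x s ↔ acc P τ x' s := ⟨key x x' hx, key x' x (fun y hy => (hx y hy).symm)⟩
  simp only [this]

theorem rect_zero {m : ℕ} {A B : Finset X} {s : N} (hA : ∀ y ∈ A, Bud P τ s y 0)
    (hmA : m ≤ A.card) (hmB : m ≤ B.card) : IsRect m A B (fun x => ind (acc P τ x s)) :=
  ⟨A, Subset.refl A, B, Subset.refl B, hmA, hmB, fun _ => 1, fun x => ind (acc P τ x s),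
    fun _ => by simp, fun x => abs_ind_le _, fun _ _ _ => rfl, acc_indep hA, fun x => by ring⟩

theorem size_le {m j c : ℕ} (h : 2 ^ j * (m + 1) ≤ c + 1) : m ≤ c := by
  have h1 : 1 ≤ 2 ^ j := Nat.one_le_two_pow
  have : 1 * (m + 1) ≤ 2 ^ j * (m + 1) := Nat.mul_le_mul_right _ h1
  omega

/-- one piece of the decomposition -/
theorem piece {m K : ℕ} {A B : Finset X} {s t : N} {b : Bool} {j p q : ℕ}
    (hmA : 2 ^ (j + 1) * (m + 1) ≤ A.card + 1) (hmB : 2 ^ (j + 1) * (m + 1) ≤ B.card + 1)
    (hA : ∀ y ∈ A, Bud P τ s y (p + 1)) (hB : ∀ y ∈ B, Bud P τ s y q)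
    (hnB : ¬ B.card ≤ 2 * (SA P τ B s t).card)
    (hc : A.card ≤ 2 * (SA P τ A s (P.next t b)).card)
    (IH : ∀ (s : N) (A B : Finset X), (∀ y ∈ A, Bud P τ s y p) → (∀ y ∈ B, Bud P τ s y q) →
      2 ^ j * (m + 1) ≤ A.card + 1 → 2 ^ j * (m + 1) ≤ B.card + 1 →
      RSum m A B K (fun x => ind (acc P τ x s)))
    (e : (X → Bool) → ℝ) (he : ∀ x, |e x| ≤ 1)
    (hi : ∀ C : Finset X, (∀ y ∈ C, ¬ Seen P τ s t y ∧ P.label t ≠ Sum.inl (Sum.inr y)) →
      Indep C e) :
    RSum m A B K (fun x => e x * ind (acc P τ x (P.next t b))) := by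
  have hp : 2 ^ (j + 1) * (m + 1) = 2 * (2 ^ j * (m + 1)) := by ring
  rw [hp] at hmA hmB
  have hpos : 1 ≤ 2 ^ j * (m + 1) := Nat.one_le_iff_ne_zero.2 (by positivity)
  set A1 := SA P τ A s (P.next t b) with hA1
  set B1 := B.filter (fun y => ¬ Seen P τ s t y ∧ P.label t ≠ Sum.inl (Sum.inr y)) with hB1
  have hA1s : A1 ⊆ A := filter_subset _ _
  have hB1s : B1 ⊆ B := filter_subset _ _
  have hA1n : A1.Nonempty := by
    rw [← card_pos]
    omega
  obtain ⟨y0, hy0⟩ := hA1n
  rw [hA1, SA, mem_filter] at hy0
  obtain ⟨_, l0, hl0, _⟩ := hy0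
  have hB1c : 2 ^ j * (m + 1) ≤ B1.card + 1 := by
    -- at most one more variable is removed
    have h1 : B ⊆ (SA P τ B s t) ∪ (B1 ∪ B.filter (fun y => P.label t = Sum.inl (Sum.inr y))) := by
      intro y hy
      rw [mem_union, mem_union, SA, mem_filter, hB1, mem_filter, mem_filter]
      tauto
    have h2 : (B.filter (fun y => P.label t = Sum.inl (Sum.inr y))).card ≤ 1 := by
      rw [card_le_one]
      intro a ha b hb
      rw [mem_filter] at ha hb
      have := ha.2.symm.trans hb.2
      exact Sum.inr_injective (Sum.inl_injective this)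
    have h3 := (card_le_card h1).trans ((card_union_le _ _).trans
      (Nat.add_le_add_left (card_union_le _ _) _))
    omega
  have h := IH (P.next t b) A1 B1 (fun y hy => by
      rw [hA1, SA, mem_filter] at hy
      exact (hA y hy.1).seen hy.2) (fun y hy => (hB y (hB1s hy)).reach hl0) (by omega) hB1c
  exact RSum.mulLeft hA1s hB1s he (hi B1 (fun y hy => by
    rw [hB1, mem_filter] at hy
    exact hy.2)) h

theorem Ev_indep {A B : Finset X} {s t : N} {b : Bool} (C : Finset X)
    (hC : ∀ y ∈ C, ¬ Seen P τ s t y ∧ P.label t ≠ Sum.inl (Sum.inr y)) :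
    Indep C (fun x => ind (Ev P τ A B s t b x)) := by
  have key : ∀ x x' : X → Bool, (∀ y, y ∉ C → x y = x' y) → Ev P τ A B s t b x →
      Ev P τ A B s t b x' := by
    intro x x' hx
    apply Ev_congr
    intro y hy
    by_cases hyC : y ∈ C
    · have := hC y hyC
      tauto
    · exact hx y hyC
  intro x x' hx
  have : Ev P τ A B s t b x ↔ Ev P τ A B s t b x' :=
    ⟨key x x' hx, key x' x (fun y hy => (hx y hy).symm)⟩
  simp only [this]

theorem cut (m : ℕ) : ∀ (j p q : ℕ), p + q = j → ∀ (s : N) (A B : Finset X),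
    (∀ y ∈ A, Bud P τ s y p) → (∀ y ∈ B, Bud P τ s y q) →
    2 ^ j * (m + 1) ≤ A.card + 1 → 2 ^ j * (m + 1) ≤ B.card + 1 →
    RSum m A B ((3 * Fintype.card N) ^ j) (fun x => ind (acc P τ x s)) := by
  intro j
  induction j with
  | zero =>
    intro p q hpq s A B hA hB hmA hmB
    have hp : p = 0 := by omega
    subst hp
    rw [pow_zero]
    exact RSum.rect (rect_zero hA (size_le hmA) (size_le hmB))
  | succ j IH =>
    intro p q hpq s A B hA hB hmA hmB
    have hN : 1 ≤ Fintype.card N := Fintype.card_pos_iff.2 ⟨s⟩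
    have hK : ∀ i, 1 ≤ (3 * Fintype.card N) ^ i := fun i => Nat.one_le_pow _ _ (by omega)
    rcases Nat.eq_zero_or_pos p with hp | hp
    · subst hp
      exact RSum.mono (RSum.rect (rect_zero hA (size_le hmA) (size_le hmB))) (hK _)
    rcases Nat.eq_zero_or_pos q with hq | hq
    · subst hq
      exact RSum.mono (RSum.rect (rect_zero hB (size_le hmB) (size_le hmA))).symm (hK _)
    obtain ⟨p', rfl⟩ : ∃ p', p = p' + 1 := ⟨p - 1, by omega⟩
    obtain ⟨q', rfl⟩ : ∃ q', q = q' + 1 := ⟨q - 1, by omega⟩
    have hp2 : 2 ^ (j + 1) * (m + 1) = 2 * (2 ^ j * (m + 1)) := by ring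
    have hpos : 1 ≤ 2 ^ j * (m + 1) := Nat.one_le_iff_ne_zero.2 (by positivity)
    have hs : ¬ Cross P τ A B s s := by
      have h1 : SA P τ A s s = ∅ := by
        rw [SA, filter_eq_empty_iff]
        intro y hy
        exact not_seen_self (hA y hy)
      have h2 : SA P τ B s s = ∅ := by
        rw [SA, filter_eq_empty_iff]
        intro y hy
        exact not_seen_self (hB y hy)
      unfold Cross
      rw [h1, h2, card_empty]
      omega
    have hfun : (fun x => ind (acc P τ x s)) = fun x =>
        ∑ z : N, ind (P.label z = Sum.inr true ∧ EvS P τ A B s z x) +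
        ∑ e : N × Bool, ind (Ev P τ A B s e.1 e.2 x) * ind (acc P τ x (P.next e.1 e.2)) := by
      funext x
      exact acc_sum hs x
    rw [hfun]
    have hsinks : RSum m A B ((univ : Finset N).card * 1)
        (fun x => ∑ z : N, ind (P.label z = Sum.inr true ∧ EvS P τ A B s z x)) := by
      apply RSum.sum
      intro z _
      by_cases hz : Cross P τ A B s z
      · have : (fun x => ind (P.label z = Sum.inr true ∧ EvS P τ A B s z x)) = fun _ => 0 := by
          funext x
          apply ind_false
          rintro ⟨_, h⟩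
          exact not_cross_of_EvS h hz
        rw [this]
        exact RSum.zero' _
      · unfold Cross at hz
        push Not at hz
        apply RSum.rect
        refine ⟨A.filter (fun y => ¬ Seen P τ s z y), filter_subset _ _, B, Subset.refl B, ?_,
          size_le hmB, fun _ => 1,
          fun x => ind (P.label z = Sum.inr true ∧ EvS P τ A B s z x), fun _ => by simp,
          fun x => abs_ind_le _, fun _ _ _ => rfl, ?_, fun x => by ring⟩
        · have h1 := card_filter_add_card_filter_not (s := A) (fun y => Seen P τ s z y)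
          have h2 := hz.1
          unfold SA at h2
          have h3 : m + 1 ≤ 2 ^ j * (m + 1) := Nat.le_mul_of_pos_left _ (by positivity)
          omega
        · intro x x' hx
          have key : ∀ x x' : X → Bool,
              (∀ y, y ∉ A.filter (fun y => ¬ Seen P τ s z y) → x y = x' y) →
              EvS P τ A B s z x → EvS P τ A B s z x' := by
            intro x x' hx
            apply EvS_congr
            intro y hy
            apply hx
            rw [mem_filter]
            tauto
          have : EvS P τ A B s z x ↔ EvS P τ A B s z x' :=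
            ⟨key x x' hx, key x' x (fun y hy => (hx y hy).symm)⟩
          simp only [this]
    have hedges : RSum m A B ((univ : Finset (N × Bool)).card * (3 * Fintype.card N) ^ j)
        (fun x => ∑ e : N × Bool, ind (Ev P τ A B s e.1 e.2 x) *
          ind (acc P τ x (P.next e.1 e.2))) := by
      apply RSum.sum
      rintro ⟨t, b⟩ _
      by_cases ht : Cross P τ A B s t ∨ ¬ Cross P τ A B s (P.next t b)
      · have : (fun x => ind (Ev P τ A B s t b x) * ind (acc P τ x (P.next t b))) =
            fun _ => 0 := by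
          funext x
          have : ¬ Ev P τ A B s t b x := by
            rintro ⟨h1, _, h3⟩
            rcases ht with ht | ht
            · exact not_cross_of_EvS h1 ht
            · exact ht h3
          rw [ind_false this, zero_mul]
        simp only [this]
        exact RSum.zero' _
      · push Not at ht
        obtain ⟨ht1, ht2⟩ := ht
        unfold Cross at ht1
        rw [not_or] at ht1
        rcases ht2 with h | h
        · exact piece (q := q' + 1) hmA hmB hA hB ht1.2 h
            (fun s A B h1 h2 h3 h4 => IH p' (q' + 1) (by omega) s A B h1 h2 h3 h4)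
            (fun x => ind (Ev P τ A B s t b x)) (fun x => abs_ind_le _) (fun C hC => Ev_indep C hC)
        · exact (piece (q := p' + 1) hmB hmA hB hA ht1.1 h
            (fun s A B h1 h2 h3 h4 => IH q' (p' + 1) (by omega) s A B h1 h2 h3 h4)
            (fun x => ind (Ev P τ A B s t b x)) (fun x => abs_ind_le _)
            (fun C hC => Ev_indep C hC)).symm
    refine RSum.mono (RSum.plus hsinks hedges) ?_
    rw [card_univ, card_univ, Fintype.card_prod, Fintype.card_bool, mul_one]
    have h1 := hK j
    have h2 : Fintype.card N ≤ Fintype.card N * (3 * Fintype.card N) ^ j :=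
      Nat.le_mul_of_pos_right _ (by omega)
    calc Fintype.card N + Fintype.card N * 2 * (3 * Fintype.card N) ^ j
        ≤ Fintype.card N * (3 * Fintype.card N) ^ j +
          Fintype.card N * 2 * (3 * Fintype.card N) ^ j := Nat.add_le_add_right h2 _
      _ = (3 * Fintype.card N) ^ (j + 1) := by ring

end Pool.Agent.Lib_helper45.PPQ2
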