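import Mathlib

/-!
# Branching programs with few reads, the modes PP, P^NP and PSPACE, and the hard function

The definitions used in the statement about PP and PSPACE.
-/

namespace Pool.Agent.Lib_helper45.PPQ2

open Finset

/-- A deterministic branching program with the set `N` of nodes over the Boolean variables `V`:
a node is labelled by an output (`Sum.inr b`) or by a variable (`Sum.inl x`); in the second case
`next s b` is its successor if the value of the variable is `b`. -/
structure BP (V N : Type) where
  start : N
  label : N → V ⊕ Bool
  next : N → Bool → N

/-- One step of the computation on the input `v`; output nodes are never left. -/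
def BP.step {V N : Type} (P : BP V N) (v : V → Bool) (s : N) : N :=
  match P.label s with
  | Sum.inl x => P.next s (v x)
  | Sum.inr _ => s

/-- The program accepts `v`: the computation reaches a node with output `true`. -/
def BP.Accepts {V N : Type} (P : BP V N) (v : V → Bool) : Prop :=
  ∃ j : ℕ, P.label ((P.step v)^[j] P.start) = Sum.inr true

/-- `P.Path s l`: `l` is the list of the variables on a path of the graph that starts at `s`
(a path need not be the computation on an input). -/
inductive BP.Path {V N : Type} (P : BP V N) : N → List V → Prop
  | nil (s : N) : BP.Path P s []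
  | cons {s : N} {x : V} {l : List V} (b : Bool) :
      P.label s = Sum.inl x → BP.Path P (P.next s b) l → BP.Path P s (x :: l)

/-- On every path from the start the variable `x` is read at most `r` times. -/
def BP.ReadsAtMost {V N : Type} [DecidableEq V] (P : BP V N) (r : ℕ) (x : V) : Prop :=
  ∀ l, P.Path P.start l → l.count x ≤ r

open Classical in
/-- PP mode of a family of programs: more than half of them accept. -/
def PPMode {V N : Type} {Y : ℕ} (A : Fin Y → BP V N) (v : V → Bool) : Prop :=
  Y < 2 * (univ.filter (fun y => (A y).Accepts v)).card

/-- P^NP mode: the largest witness `y` whose program accepts is an odd number. -/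
def PNPMode {V N : Type} {Y : ℕ} (A : Fin Y → BP V N) (v : V → Bool) : Prop :=
  ∃ y : Fin Y, Odd (y : ℕ) ∧ (A y).Accepts v ∧ ∀ y' : Fin Y, y < y' → ¬ (A y').Accepts v

/-- The game with the quantifiers `q` (`true`: there is a bit, `false`: for all bits) about the
list of the chosen bits. -/
def Game : List Bool → (List Bool → Prop) → Prop
  | [], R => R []
  | true :: q, R => ∃ b, Game q (fun w => R (b :: w))
  | false :: q, R => ∀ b, Game q (fun w => R (b :: w))

/-- PSPACE mode (alternation): the game with quantifiers `q` in which the program of the list of
the chosen bits should accept. -/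
def PSPACEMode {V N : Type} (q : List Bool) (A : List Bool → BP V N) (v : V → Bool) : Prop :=
  Game q (fun w => (A w).Accepts v)

/-- inner product modulo 2 -/
def dot {n : ℕ} (a b : Fin n → Bool) : ZMod 2 := ∑ i, if a i && b i then 1 else 0

/-- The quadratic form with coefficients `C`: a sum of `k` products of two linear forms. -/
def quad {n k : ℕ} (C : Fin k → Bool → Fin n → Bool) (b : Fin n → Bool) : ZMod 2 :=
  ∑ l, dot (C l false) b * dot (C l true) b

/-- the number of products in each form -/
def kk (n : ℕ) : ℕ := Nat.log 2 n

/-- The input variables: coefficients of `T` forms, right sides of the equations, the point. -/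
abbrev Var (n T : ℕ) : Type := ((Fin T × Fin (kk n) × Bool × Fin n) ⊕ Fin T) ⊕ Fin n

/-- The equation number `t` holds. -/
def Eqn (n T : ℕ) (v : Var n T → Bool) (t : Fin T) : Prop :=
  quad (fun l s i => v (Sum.inl (Sum.inl (t, l, s, i)))) (fun i => v (Sum.inr i)) =
    if v (Sum.inl (Sum.inr t)) then 1 else 0

/-- The hard function: among `T` quadratic equations, the last one that holds at the point has an
odd number. -/
def LastOdd (n T : ℕ) (v : Var n T → Bool) : Prop :=
  ∃ t : Fin T, Odd (t : ℕ) ∧ Eqn n T v t ∧ ∀ t' : Fin T, t < t' → ¬ Eqn n T v t'

end Pool.Agent.Lib_helper45.PPQ2
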