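import Pool.Agent.Lib_helper45.PPQ2.Corr

/-!
# Existence of coefficients such that few relations hold on any large set of columns
-/

set_option linter.unusedSectionVars false

namespace Pool.Agent.Lib_helper45.PPQ2

open Finset

variable {I X : Type} [Fintype I] [DecidableEq I] [Fintype X] [DecidableEq X]

/-- vectors orthogonal to a family -/
def Orth {r : ℕ} (v : Fin r → I → ZMod 2) : Finset (I → ZMod 2) :=
  univ.filter (fun c => ∀ j, ∑ p, v j p * c p = 0)

theorem card_Orth {r : ℕ} (v : Fin r → I → ZMod 2) (hv : LinearIndependent (ZMod 2) v) :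
    (2 : ℝ) ^ r * (Orth v).card = 2 ^ Fintype.card I := by
  have h1 : ∑ c : I → ZMod 2, ∑ μ : Fin r → ZMod 2, ee (∑ j, μ j * ∑ p, v j p * c p) =
      2 ^ r * (Orth v).card := by
    have : ∀ c : I → ZMod 2, ∑ μ : Fin r → ZMod 2, ee (∑ j, μ j * ∑ p, v j p * c p) =
        if c ∈ Orth v then (2 : ℝ) ^ r else 0 := by
      intro c
      rw [orth, Fintype.card_fin]
      have e : ((fun j => ∑ p, v j p * c p) = 0) ↔ c ∈ Orth v := by
        unfold Orth
        rw [mem_filter]
        constructor
        · intro h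
          exact ⟨mem_univ _, fun j => congrFun h j⟩
        · rintro ⟨_, h⟩
          exact funext h
      simp only [e]
    simp only [this]
    rw [sum_ite_mem, univ_inter, sum_const, nsmul_eq_mul, mul_comm]
  have h2 : ∑ c : I → ZMod 2, ∑ μ : Fin r → ZMod 2, ee (∑ j, μ j * ∑ p, v j p * c p) =
      2 ^ Fintype.card I := by
    rw [sum_comm]
    have : ∀ μ : Fin r → ZMod 2, ∑ c : I → ZMod 2, ee (∑ j, μ j * ∑ p, v j p * c p) =
        if μ = 0 then (2 : ℝ) ^ Fintype.card I else 0 := by
      intro μ
      have e1 : ∀ c : I → ZMod 2, ee (∑ j, μ j * ∑ p, v j p * c p) =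
          ee (∑ p, c p * ∑ j, μ j * v j p) := by
        intro c
        congr 1
        simp only [mul_sum]
        rw [sum_comm]
        apply sum_congr rfl
        intro p _
        apply sum_congr rfl
        intro j _
        ring
      simp only [e1]
      rw [orth]
      have e2 : ((fun p => ∑ j, μ j * v j p) = 0) ↔ μ = 0 := by
        constructor
        · intro h
          have h3 : ∑ j, μ j • v j = 0 := by
            funext p
            have := congrFun h p
            simpa [Finset.sum_apply] using this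
          funext j
          exact Fintype.linearIndependent_iff.1 hv μ h3 j
        · intro h
          subst h
          funext p
          simp
      simp only [e2]
    simp only [this]
    rw [sum_ite_eq' univ (0 : Fin r → ZMod 2)]
    simp
  rw [← h1, h2]

/-- relations between the columns in `A` -/
def KerX (C : X → I → ZMod 2) (A : Finset X) : Finset (I → ZMod 2) :=
  univ.filter (fun v => ∀ i ∈ A, ∑ p, v p * C i p = 0)

theorem mem_KerX {C : X → I → ZMod 2} {A : Finset X} {v : I → ZMod 2} :
    v ∈ KerX C A ↔ ∀ i ∈ A, ∑ p, v p * C i p = 0 := by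
  unfold KerX
  rw [mem_filter]
  simp

/-- the submodule of relations -/
def KerS (C : X → I → ZMod 2) (A : Finset X) : Submodule (ZMod 2) (I → ZMod 2) where
  carrier := {v | ∀ i ∈ A, ∑ p, v p * C i p = 0}
  add_mem' := by
    intro a b ha hb i hi
    have : ∑ p, (a + b) p * C i p = ∑ p, a p * C i p + ∑ p, b p * C i p := by
      rw [← sum_add_distrib]
      apply sum_congr rfl
      intro p _
      rw [Pi.add_apply, add_mul]
    rw [this, ha i hi, hb i hi, add_zero]
  zero_mem' := by
    intro i _
    simp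
  smul_mem' := by
    intro c x hx i hi
    have : ∑ p, (c • x) p * C i p = c * ∑ p, x p * C i p := by
      rw [mul_sum]
      apply sum_congr rfl
      intro p _
      rw [Pi.smul_apply, smul_eq_mul, mul_assoc]
    rw [this, hx i hi, mul_zero]

theorem exists_indep (C : X → I → ZMod 2) (A : Finset X) (d : ℕ) (h : 2 ^ d < (KerX C A).card) :
    ∃ v : Fin (d + 1) → I → ZMod 2, LinearIndependent (ZMod 2) v ∧ ∀ i ∈ A, C i ∈ Orth v := by
  classical
  have hc : Fintype.card (KerS C A) = (KerX C A).card := by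
    rw [Fintype.card_subtype]
    congr 1
    ext v
    rw [mem_filter, KerX, mem_filter]
    exact Iff.rfl
  have h1 := Module.card_eq_pow_finrank (K := ZMod 2) (V := KerS C A)
  rw [hc, ZMod.card] at h1
  rw [h1] at h
  have h2 : d + 1 ≤ Module.finrank (ZMod 2) (KerS C A) := (Nat.pow_lt_pow_iff_right (by norm_num)).1 h
  let b := Module.finBasis (ZMod 2) (KerS C A)
  refine ⟨fun j => (b (Fin.castLE h2 j) : I → ZMod 2), ?_, ?_⟩
  · have h3 := (b.linearIndependent.comp (Fin.castLE h2) (Fin.castLE_injective h2))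
    exact h3.map' (KerS C A).subtype (Submodule.ker_subtype _)
  · intro i hi
    unfold Orth
    rw [mem_filter]
    refine ⟨mem_univ _, fun j => ?_⟩
    exact (b (Fin.castLE h2 j)).2 i hi

/-- the matrices with few independent relations -/
theorem exists_good (m d : ℕ) (h : Fintype.card X + (d + 1) * Fintype.card I < (d + 1) * m) :
    ∃ C : X → I → ZMod 2, ∀ A : Finset X, m ≤ A.card → (KerX C A).card ≤ 2 ^ d := by
  classical
  by_contra hcon
  push Not at hcon
  set n := Fintype.card X with hn
  set c := Fintype.card I with hc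
  -- the bad matrices for `A` and `v`
  let Bad : Finset X × (Fin (d + 1) → I → ZMod 2) → Finset (X → I → ZMod 2) := fun q =>
    Fintype.piFinset (fun i => if i ∈ q.1 then Orth q.2 else univ)
  let Q : Finset (Finset X × (Fin (d + 1) → I → ZMod 2)) :=
    univ.filter (fun q => m ≤ q.1.card ∧ LinearIndependent (ZMod 2) q.2)
  have hcov : (univ : Finset (X → I → ZMod 2)) ⊆ Q.biUnion Bad := by
    intro C _
    obtain ⟨A, hA, hA2⟩ := hcon C
    obtain ⟨v, hv, hv2⟩ := exists_indep C A d hA2
    rw [mem_biUnion]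
    refine ⟨(A, v), ?_, ?_⟩
    · rw [mem_filter]
      exact ⟨mem_univ _, hA, hv⟩
    · rw [Fintype.mem_piFinset]
      intro i
      by_cases hi : i ∈ A
      · simp only [hi, if_true]
        exact hv2 i hi
      · simp only [hi, if_false]
        exact mem_univ _
  have hbad : ∀ q ∈ Q, ((Bad q).card : ℝ) * 2 ^ ((d + 1) * m) ≤ 2 ^ (c * n) := by
    rintro ⟨A, v⟩ hq
    rw [mem_filter] at hq
    obtain ⟨_, hA, hv⟩ := hq
    simp only at hA hv
    have e1 : ((Bad (A, v)).card : ℝ) = ∏ i : X, (if i ∈ A then ((Orth v).card : ℝ) else 2 ^ c) := by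
      simp only [Bad]
      rw [Fintype.card_piFinset]
      push_cast
      apply prod_congr rfl
      intro i _
      split_ifs
      · rfl
      · rw [card_univ, Fintype.card_fun, ZMod.card]
        push_cast
        rfl
    have e2 : ((Bad (A, v)).card : ℝ) = ((Orth v).card : ℝ) ^ A.card * (2 ^ c) ^ (n - A.card) := by
      rw [e1, prod_ite, prod_const, prod_const]
      congr 2
      · congr 1
        ext i
        simp
      · have : (univ.filter (fun i => i ∉ A)) = Aᶜ := by
          ext i
          simp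
        rw [this, card_compl]
    have e3 := card_Orth v hv
    have hAn : A.card ≤ n := card_le_univ A
    calc ((Bad (A, v)).card : ℝ) * 2 ^ ((d + 1) * m)
        ≤ ((Bad (A, v)).card : ℝ) * 2 ^ ((d + 1) * A.card) := by
          apply mul_le_mul_of_nonneg_left _ (Nat.cast_nonneg _)
          exact pow_le_pow_right₀ (by norm_num) (Nat.mul_le_mul_left _ hA)
      _ = (2 ^ (d + 1) * ((Orth v).card : ℝ)) ^ A.card * (2 ^ c) ^ (n - A.card) := by
          rw [e2, mul_pow, pow_mul]
          ring
      _ = (2 ^ c) ^ A.card * (2 ^ c) ^ (n - A.card) := by rw [e3]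
      _ = 2 ^ (c * n) := by
          rw [← pow_add, ← pow_mul, Nat.add_sub_cancel' hAn]
  have hQ : (Q.card : ℝ) ≤ 2 ^ n * 2 ^ (c * (d + 1)) := by
    have : Q.card ≤ Fintype.card (Finset X × (Fin (d + 1) → I → ZMod 2)) := card_le_univ Q
    rw [Fintype.card_prod, Fintype.card_finset, Fintype.card_fun, Fintype.card_fun, ZMod.card,
      Fintype.card_fin, ← pow_mul] at this
    exact_mod_cast this
  have htot : (2 : ℝ) ^ (c * n) ≤ ∑ q ∈ Q, ((Bad q).card : ℝ) := by
    have h1 := (card_le_card hcov).trans card_biUnion_le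
    rw [card_univ, Fintype.card_fun, Fintype.card_fun, ZMod.card, ← pow_mul] at h1
    exact_mod_cast h1
  have h2 : (2 : ℝ) ^ (c * n) * 2 ^ ((d + 1) * m) ≤ (2 ^ n * 2 ^ (c * (d + 1))) * 2 ^ (c * n) := by
    calc (2 : ℝ) ^ (c * n) * 2 ^ ((d + 1) * m)
        ≤ (∑ q ∈ Q, ((Bad q).card : ℝ)) * 2 ^ ((d + 1) * m) :=
          mul_le_mul_of_nonneg_right htot (by positivity)
      _ = ∑ q ∈ Q, ((Bad q).card : ℝ) * 2 ^ ((d + 1) * m) := by rw [sum_mul]
      _ ≤ ∑ _q ∈ Q, (2 : ℝ) ^ (c * n) := sum_le_sum hbad
      _ = Q.card * 2 ^ (c * n) := by rw [sum_const, nsmul_eq_mul]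
      _ ≤ (2 ^ n * 2 ^ (c * (d + 1))) * 2 ^ (c * n) :=
          mul_le_mul_of_nonneg_right hQ (by positivity)
  have hp : (0 : ℝ) < 2 ^ (c * n) := by positivity
  have h3 : (2 : ℝ) ^ ((d + 1) * m) ≤ 2 ^ n * 2 ^ (c * (d + 1)) := by
    rw [mul_comm] at h2
    exact le_of_mul_le_mul_right h2 hp
  rw [← pow_add] at h3
  have h4 := (pow_le_pow_iff_right₀ (by norm_num : (1 : ℝ) < 2)).1 h3
  have : c * (d + 1) = (d + 1) * c := mul_comm _ _
  omega

end Pool.Agent.Lib_helper45.PPQ2
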