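import Pool.Agent.Lib_helper45.PPQ2.Weights

/-!
# The doubling step (Beigel's argument with noise) for functions with small Fourier tail
-/

set_option linter.unusedSectionVars false

namespace Pool.Agent.Lib_helper45.PPQ2

open Finset

section fourier

variable {ι : Type} [Fintype ι] [DecidableEq ι]

/-- the characters -/
def chi (S Z : Finset ι) : ℝ := ∏ i ∈ Z, (if i ∈ S then -1 else 1)

theorem chi_comm (S Z : Finset ι) : chi S Z = chi Z S := by
  unfold chi
  rw [prod_ite, prod_ite, prod_const, prod_const_one, mul_one, prod_const, prod_const_one, mul_one]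
  have h1 : Z.filter (fun i => i ∈ S) = S.filter (fun i => i ∈ Z) := by
    ext i
    simp only [mem_filter]
    tauto
  rw [h1]

theorem abs_chi (S Z : Finset ι) : |chi S Z| = 1 := by
  unfold chi
  rw [abs_prod]
  apply prod_eq_one
  intro i _
  split_ifs <;> simp

theorem chi_union (S : Finset ι) {Z U : Finset ι} (h : Disjoint Z U) :
    chi S (Z ∪ U) = chi S Z * chi S U := by
  unfold chi
  rw [prod_union h]

/-- the Fourier coefficients -/
noncomputable def coef (G : Finset ι → ℝ) (S : Finset ι) : ℝ :=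
  (∑ Z : Finset ι, G Z * chi S Z) / 2 ^ Fintype.card ι

theorem sum_chi_mul (Z W : Finset ι) : ∑ S : Finset ι, chi S Z * chi S W =
    if Z = W then 2 ^ Fintype.card ι else 0 := by
  have h1 : ∀ S : Finset ι, chi S Z * chi S W =
      ∏ i ∈ S, ((if i ∈ Z then -1 else 1) * (if i ∈ W then -1 else 1)) := by
    intro S
    rw [chi_comm S Z, chi_comm S W]
    unfold chi
    rw [prod_mul_distrib]
  simp only [h1]
  have h2 : ∑ S : Finset ι, ∏ i ∈ S, (((if i ∈ Z then -1 else 1) * (if i ∈ W then -1 else 1)) : ℝ)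
      = ∏ i : ι, (((if i ∈ Z then -1 else 1) * (if i ∈ W then -1 else 1)) + 1 : ℝ) := by
    rw [prod_add_one]
    rfl
  rw [h2]
  split_ifs with h
  · subst h
    have : ∀ i : ι, (((if i ∈ Z then -1 else 1) * (if i ∈ Z then -1 else 1)) + 1 : ℝ) = 2 := by
      intro i
      split_ifs <;> norm_num
    simp only [this, prod_const, card_univ]
  · have : ∃ i, ¬ (i ∈ Z ↔ i ∈ W) := by
      by_contra hc
      push Not at hc
      exact h (Finset.ext hc)
    obtain ⟨i, hi⟩ := this
    apply prod_eq_zero (mem_univ i)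
    by_cases h1 : i ∈ Z
    · have h2 : i ∉ W := fun h2 => hi ⟨fun _ => h2, fun _ => h1⟩
      simp [h1, h2]
    · have h2 : i ∈ W := by
        by_contra h2
        exact hi ⟨fun h => absurd h h1, fun h => absurd h h2⟩
      simp [h1, h2]

theorem inversion (G : Finset ι → ℝ) (Z : Finset ι) : G Z = ∑ S, coef G S * chi S Z := by
  have hp : (2 : ℝ) ^ Fintype.card ι ≠ 0 := by positivity
  have h1 : ∑ S, coef G S * chi S Z = (∑ W, G W * ∑ S, chi S W * chi S Z) / 2 ^ Fintype.card ι := by
    unfold coef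
    rw [eq_div_iff hp, sum_mul]
    have : ∀ S : Finset ι, (∑ W : Finset ι, G W * chi S W) / 2 ^ Fintype.card ι * chi S Z *
        2 ^ Fintype.card ι = ∑ W : Finset ι, G W * (chi S W * chi S Z) := by
      intro S
      rw [div_mul_eq_mul_div, div_mul_cancel₀ _ hp, sum_mul]
      apply sum_congr rfl
      intro W _
      ring
    simp only [this]
    rw [sum_comm]
    apply sum_congr rfl
    intro W _
    rw [mul_sum]
  rw [h1]
  simp only [sum_chi_mul, mul_ite, mul_zero]
  rw [sum_ite_eq' univ Z]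
  simp only [mem_univ, if_true]
  rw [mul_div_assoc, div_self hp, mul_one]

/-- the weight of the noise -/
noncomputable def nw (L : Finset ι) (θ : ℝ) (U : Finset ι) : ℝ :=
  θ ^ U.card * (1 - θ) ^ (L.card - U.card)

theorem sum_nw (L : Finset ι) (θ : ℝ) (S : Finset ι) :
    ∑ U ∈ L.powerset, nw L θ U * chi S U = (1 - 2 * θ) ^ (S ∩ L).card := by
  have h := prod_add (fun i => θ * (if i ∈ S then (-1 : ℝ) else 1)) (fun _ => 1 - θ) L
  have h1 : ∏ i ∈ L, (θ * (if i ∈ S then (-1 : ℝ) else 1) + (1 - θ)) =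
      (1 - 2 * θ) ^ (S ∩ L).card := by
    have : ∀ i ∈ L, (θ * (if i ∈ S then (-1 : ℝ) else 1) + (1 - θ)) =
        if i ∈ S then 1 - 2 * θ else 1 := by
      intro i _
      split_ifs <;> ring
    rw [prod_congr rfl this, prod_ite, prod_const, prod_const_one, mul_one]
    congr 2
    ext i
    simp only [mem_filter, mem_inter]
    tauto
  rw [← h1, h]
  apply sum_congr rfl
  intro U hU
  rw [mem_powerset] at hU
  rw [prod_mul_distrib, prod_const, prod_const, card_sdiff_of_subset hU]
  unfold nw chi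
  ring

theorem sum_nw_one (L : Finset ι) (θ : ℝ) : ∑ U ∈ L.powerset, nw L θ U = 1 := by
  have h := sum_nw L θ ∅
  simp only [chi, notMem_empty, if_false, prod_const_one, mul_one, empty_inter, card_empty,
    pow_zero] at h
  exact h

theorem nw_nonneg (L : Finset ι) {θ : ℝ} (h0 : 0 ≤ θ) (h1 : θ ≤ 1) (U : Finset ι) :
    0 ≤ nw L θ U := by
  unfold nw
  have : 0 ≤ 1 - θ := by linarith
  positivity

theorem exp_four : Real.exp (-4) ≤ 1 / 50 := by
  have h := Real.exp_one_gt_d9
  have h1 : (50 : ℝ) ≤ Real.exp 4 := by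
    have : Real.exp 4 = Real.exp 1 ^ 4 := by
      rw [← Real.exp_nat_mul]
      norm_num
    rw [this]
    calc (50 : ℝ) ≤ 2.7 ^ 4 := by norm_num
      _ ≤ Real.exp 1 ^ 4 := by
        apply pow_le_pow_left₀ (by norm_num)
        linarith
  rw [Real.exp_neg, ← one_div]
  exact one_div_le_one_div_of_le (by norm_num) h1

theorem one_sub_pow_le {θ : ℝ} (h1 : θ ≤ 1) {L : ℕ} (h4 : 4 ≤ (L : ℝ) * θ) :
    (1 - θ) ^ L ≤ 1 / 50 := by
  calc (1 - θ) ^ L ≤ (Real.exp (-θ)) ^ L := by
        apply pow_le_pow_left₀ (by linarith)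
        have := Real.add_one_le_exp (-θ)
        linarith
    _ = Real.exp (-((L : ℝ) * θ)) := by
        rw [← Real.exp_nat_mul]
        congr 1
        ring
    _ ≤ Real.exp (-4) := Real.exp_le_exp.2 (by linarith)
    _ ≤ 1 / 50 := exp_four

theorem wt_zero_bounds {D : ℕ} (hD : 1 ≤ D) : 11 / 15 ≤ wt D 0 ∧ wt D 0 ≤ 19 / 15 := by
  have h := sum_wt_pow hD (Nat.zero_le D)
  simp only [pow_zero, mul_one] at h
  have h1 : range (D + 1) = insert 0 (Icc 1 D) := by
    ext i
    simp only [mem_range, mem_insert, mem_Icc]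
    omega
  rw [h1, sum_insert (by simp)] at h
  have h2 := sum_abs_wt_le D
  have h3 : |∑ j ∈ Icc 1 D, wt D j| ≤ 4 / 15 := le_trans (abs_sum_le_sum_abs _ _) h2
  rw [abs_le] at h3
  constructor <;> linarith [h3.1, h3.2]

theorem sum_range_split {D : ℕ} (f : ℕ → ℝ) :
    ∑ j ∈ range (D + 1), f j = f 0 + ∑ j ∈ Icc 1 D, f j := by
  have h1 : range (D + 1) = insert 0 (Icc 1 D) := by
    ext i
    simp only [mem_range, mem_insert, mem_Icc]
    omega
  rw [h1, sum_insert (by simp)]

theorem step (G : Finset ι → ℝ) {D : ℕ} (hD : 1 ≤ D) (L Z : Finset ι)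
    (hL : L.card = 64 * D ^ 2) (hZ : Disjoint Z L)
    (hτ : ∑ S ∈ univ.filter (fun S : Finset ι => D < S.card), |coef G S| ≤ 1 / 60)
    (σ : ℝ) (hσ : σ = 1 ∨ σ = -1) (ha : 1 / 2 ≤ σ * G Z)
    (hneg : ∀ U ⊆ L, U.Nonempty → σ * G (Z ∪ U) ≤ 0) :
    ∃ U ⊆ L, U.Nonempty ∧ 2 * (σ * G Z) ≤ -(σ * G (Z ∪ U)) := by
  by_contra hcon
  push Not at hcon
  set a : ℝ := σ * G Z with hadef
  have hw0 := wt_zero_bounds hD
  have hws := sum_abs_wt_le D
  -- the noise averages
  set N : ℕ → ℝ := fun j => ∑ U ∈ L.powerset, nw L (th D j) U * G (Z ∪ U) with hN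
  have hN1 : ∀ j, N j = ∑ S, coef G S * chi S Z * (1 - 2 * th D j) ^ (S ∩ L).card := by
    intro j
    have e1 : ∀ U ∈ L.powerset, nw L (th D j) U * G (Z ∪ U) =
        ∑ S, coef G S * chi S Z * (nw L (th D j) U * chi S U) := by
      intro U hU
      rw [mem_powerset] at hU
      rw [inversion G (Z ∪ U), mul_sum]
      apply sum_congr rfl
      intro S _
      rw [chi_union S (disjoint_of_subset_right hU hZ)]
      ring
    simp only [hN]
    rw [sum_congr rfl e1, sum_comm]
    apply sum_congr rfl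
    intro S _
    rw [← mul_sum, sum_nw]
  -- the functional
  have hΛ : |G Z - ∑ j ∈ range (D + 1), wt D j * N j| ≤ 1 / 20 := by
    have e1 : G Z - ∑ j ∈ range (D + 1), wt D j * N j = ∑ S, coef G S * chi S Z *
        (1 - ∑ j ∈ range (D + 1), wt D j * (1 - 2 * th D j) ^ (S ∩ L).card) := by
      have e2 : ∑ j ∈ range (D + 1), wt D j * N j = ∑ S, coef G S * chi S Z *
          ∑ j ∈ range (D + 1), wt D j * (1 - 2 * th D j) ^ (S ∩ L).card := by
        simp only [hN1, mul_sum]
        rw [sum_comm]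
        apply sum_congr rfl
        intro S _
        apply sum_congr rfl
        intro j _
        ring
      rw [e2, inversion G Z, ← sum_sub_distrib]
      apply sum_congr rfl
      intro S _
      ring
    rw [e1]
    refine le_trans (abs_sum_le_sum_abs _ _) ?_
    have e3 : ∀ S : Finset ι, |coef G S * chi S Z *
        (1 - ∑ j ∈ range (D + 1), wt D j * (1 - 2 * th D j) ^ (S ∩ L).card)| ≤
        if D < S.card then 3 * |coef G S| else 0 := by
      intro S
      rw [abs_mul, abs_mul, abs_chi, mul_one]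
      split_ifs with hS
      · rw [mul_comm]
        apply mul_le_mul_of_nonneg_right _ (abs_nonneg _)
        refine le_trans (abs_sub _ _) ?_
        rw [abs_one]
        have e4 : |∑ j ∈ range (D + 1), wt D j * (1 - 2 * th D j) ^ (S ∩ L).card| ≤
            ∑ j ∈ range (D + 1), |wt D j| := by
          refine le_trans (abs_sum_le_sum_abs _ _) (sum_le_sum ?_)
          intro j hj
          rw [abs_mul, abs_pow]
          have h1 : |1 - 2 * th D j| ≤ 1 := by
            have h2 := th_pos hD j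
            have h3 := th_le_one hD (Nat.lt_succ_iff.1 (mem_range.1 hj))
            rw [abs_le]
            constructor <;> linarith
          calc |wt D j| * |1 - 2 * th D j| ^ (S ∩ L).card ≤ |wt D j| * 1 :=
                mul_le_mul_of_nonneg_left (pow_le_one₀ (abs_nonneg _) h1) (abs_nonneg _)
            _ = |wt D j| := mul_one _
        have e5 : ∑ j ∈ range (D + 1), |wt D j| ≤ 23 / 15 := by
          rw [sum_range_split, abs_of_nonneg (by linarith [hw0.1])]
          linarith [hw0.2]
        linarith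
      · have h1 : (S ∩ L).card ≤ D := le_trans (card_le_card inter_subset_left) (not_lt.1 hS)
        rw [sum_wt_pow hD h1, sub_self, abs_zero, mul_zero]
    calc _ ≤ ∑ S : Finset ι, (if D < S.card then 3 * |coef G S| else 0) := sum_le_sum fun S _ => e3 S
      _ = 3 * ∑ S ∈ univ.filter (fun S : Finset ι => D < S.card), |coef G S| := by
          rw [mul_sum, sum_filter]
      _ ≤ 3 * (1 / 60) := mul_le_mul_of_nonneg_left hτ (by norm_num)
      _ = 1 / 20 := by norm_num
  -- bounds for the averages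
  have hNb : ∀ j ∈ range (D + 1), -(2 * a) ≤ σ * N j ∧ σ * N j ≤ 1 / 50 * a := by
    intro j hj
    have h0 := (th_pos hD j).le
    have h1 := th_le_one hD (Nat.lt_succ_iff.1 (mem_range.1 hj))
    have e1 : σ * N j = nw L (th D j) ∅ * a +
        ∑ U ∈ L.powerset.erase ∅, nw L (th D j) U * (σ * G (Z ∪ U)) := by
      simp only [hN]
      rw [mul_sum, ← add_sum_erase _ _ (empty_mem_powerset L), union_empty]
      congr 1
      · rw [hadef]
        ring
      · apply sum_congr rfl
        intro U _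
        ring
    have e2 : nw L (th D j) ∅ ≤ 1 / 50 := by
      unfold nw
      rw [card_empty, pow_zero, one_mul, Nat.sub_zero]
      apply one_sub_pow_le h1
      rw [hL]
      push_cast
      exact four_le hD j
    have e3 : 0 ≤ nw L (th D j) ∅ := nw_nonneg L h0 h1 ∅
    have e4 : nw L (th D j) ∅ + ∑ U ∈ L.powerset.erase ∅, nw L (th D j) U = 1 := by
      rw [add_sum_erase _ _ (empty_mem_powerset L), sum_nw_one]
    have hU : ∀ U ∈ L.powerset.erase ∅, U ⊆ L ∧ U.Nonempty := by
      intro U hU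
      rw [mem_erase, mem_powerset] at hU
      exact ⟨hU.2, nonempty_iff_ne_empty.2 hU.1⟩
    have e5 : ∑ U ∈ L.powerset.erase ∅, nw L (th D j) U * (σ * G (Z ∪ U)) ≤ 0 := by
      apply sum_nonpos
      intro U hU'
      exact mul_nonpos_of_nonneg_of_nonpos (nw_nonneg L h0 h1 U) (hneg U (hU U hU').1 (hU U hU').2)
    have e6 : ∑ U ∈ L.powerset.erase ∅, nw L (th D j) U * (-(2 * a)) ≤
        ∑ U ∈ L.powerset.erase ∅, nw L (th D j) U * (σ * G (Z ∪ U)) := by
      apply sum_le_sum
      intro U hU'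
      apply mul_le_mul_of_nonneg_left _ (nw_nonneg L h0 h1 U)
      have := hcon U (hU U hU').1 (hU U hU').2
      linarith
    rw [← sum_mul] at e6
    rw [e1]
    constructor
    · nlinarith
    · nlinarith
  have hsum : ∑ j ∈ range (D + 1), wt D j * (σ * N j) ≤ 19 / 15 * (1 / 50 * a) + 4 / 15 * (2 * a) := by
    rw [sum_range_split]
    apply add_le_add
    · have h1 := hNb 0 (mem_range.2 (by omega))
      calc wt D 0 * (σ * N 0) ≤ wt D 0 * (1 / 50 * a) :=
            mul_le_mul_of_nonneg_left h1.2 (by linarith [hw0.1])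
        _ ≤ 19 / 15 * (1 / 50 * a) := mul_le_mul_of_nonneg_right hw0.2 (by linarith)
    · calc ∑ j ∈ Icc 1 D, wt D j * (σ * N j) ≤ ∑ j ∈ Icc 1 D, |wt D j| * (2 * a) := by
            apply sum_le_sum
            intro j hj
            rw [mem_Icc] at hj
            have h1 := hNb j (mem_range.2 (by omega))
            refine le_trans (le_abs_self _) ?_
            rw [abs_mul]
            apply mul_le_mul_of_nonneg_left _ (abs_nonneg _)
            rw [abs_le]
            constructor
            · exact h1.1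
            · linarith [h1.2]
        _ = (∑ j ∈ Icc 1 D, |wt D j|) * (2 * a) := by rw [sum_mul]
        _ ≤ 4 / 15 * (2 * a) := mul_le_mul_of_nonneg_right hws (by linarith)
  have hfin : a - ∑ j ∈ range (D + 1), wt D j * (σ * N j) ≤ 1 / 20 := by
    have e1 : a - ∑ j ∈ range (D + 1), wt D j * (σ * N j) =
        σ * (G Z - ∑ j ∈ range (D + 1), wt D j * N j) := by
      rw [mul_sub, mul_sum, hadef]
      congr 1
      apply sum_congr rfl
      intro j _
      ring
    rw [e1]
    refine le_trans (le_abs_self _) ?_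
    rw [abs_mul]
    have : |σ| = 1 := by
      rcases hσ with h | h <;> rw [h] <;> simp
    rw [this, one_mul]
    exact hΛ
  linarith

end fourier

section omb

/-- the last element is odd -/
def Omb {T : ℕ} (Z : Finset (Fin T)) : Prop := ∃ t ∈ Z, Odd (t : ℕ) ∧ ∀ t' ∈ Z, t' ≤ t

theorem doubling {T : ℕ} (G : Finset (Fin T) → ℝ) {D : ℕ} (hD : 1 ≤ D)
    (hτ : ∑ S ∈ univ.filter (fun S : Finset (Fin T) => D < S.card), |coef G S| ≤ 1 / 60)
    (h1 : ∀ Z, Omb Z → 1 / 2 ≤ G Z) (h0 : ∀ Z, ¬ Omb Z → G Z ≤ -(1 / 2)) (J : ℕ)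
    (hJ : 128 * D ^ 2 * J ≤ T) :
    ∃ Z : Finset (Fin T), (∀ t ∈ Z, (t : ℕ) < 128 * D ^ 2 * J) ∧ 2 ^ J * (1 / 2) ≤ |G Z| := by
  induction J with
  | zero =>
    refine ⟨∅, fun t ht => absurd ht (notMem_empty t), ?_⟩
    have h : ¬ Omb (∅ : Finset (Fin T)) := by
      rintro ⟨t, ht, _⟩
      exact absurd ht (notMem_empty t)
    have := h0 ∅ h
    rw [abs_of_nonpos (by linarith)]
    linarith
  | succ J ih =>
    have hJ' : 128 * D ^ 2 * (J + 1) = 128 * D ^ 2 * J + 128 * D ^ 2 := by ring
    rw [hJ'] at hJ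
    obtain ⟨Z, hZ1, hZ2⟩ := ih (by omega)
    -- the parity of the block
    obtain ⟨par, hpar, σ, hσ, hσZ, hσU⟩ : ∃ par : ℕ, par < 2 ∧ ∃ σ : ℝ, (σ = 1 ∨ σ = -1) ∧
        1 / 2 ≤ σ * G Z ∧ ∀ W : Finset (Fin T), (∃ u ∈ W, (u : ℕ) % 2 = par ∧ ∀ t' ∈ W, t' ≤ u) →
          σ * G W ≤ -(1 / 2) := by
      by_cases h : Omb Z
      · refine ⟨0, by norm_num, 1, Or.inl rfl, ?_, ?_⟩
        · rw [one_mul]
          exact h1 Z h
        · rintro W ⟨u, hu, hu2, hu3⟩
          rw [one_mul]
          apply h0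
          rintro ⟨t, ht, ht2, ht3⟩
          have : t = u := le_antisymm (hu3 t ht) (ht3 u hu)
          subst this
          rw [Nat.odd_iff] at ht2
          omega
      · refine ⟨1, by norm_num, -1, Or.inr rfl, ?_, ?_⟩
        · have := h0 Z h
          linarith
        · rintro W ⟨u, hu, hu2, hu3⟩
          have : Omb W := ⟨u, hu, Nat.odd_iff.2 hu2, hu3⟩
          have := h1 W this
          linarith
    have hlt : ∀ i : Fin (64 * D ^ 2), 128 * D ^ 2 * J + 2 * (i : ℕ) + par < T := by
      intro i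
      have := i.2
      omega
    set L : Finset (Fin T) := univ.image (fun i : Fin (64 * D ^ 2) =>
      (⟨128 * D ^ 2 * J + 2 * (i : ℕ) + par, hlt i⟩ : Fin T)) with hLdef
    have hL : L.card = 64 * D ^ 2 := by
      rw [hLdef, card_image_of_injective, card_univ, Fintype.card_fin]
      intro i j hij
      simp only [Fin.mk.injEq] at hij
      apply Fin.ext
      omega
    have hLm : ∀ t ∈ L, 128 * D ^ 2 * J ≤ (t : ℕ) ∧ (t : ℕ) < 128 * D ^ 2 * (J + 1) ∧
        (t : ℕ) % 2 = par := by
      intro t ht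
      rw [hLdef, mem_image] at ht
      obtain ⟨i, _, rfl⟩ := ht
      have := i.2
      have e : 128 * D ^ 2 * J = 2 * (64 * D ^ 2 * J) := by ring
      refine ⟨by simp only; omega, by simp only; omega, by simp only; omega⟩
    have hdis : Disjoint Z L := by
      rw [disjoint_left]
      intro t htZ htL
      have := hZ1 t htZ
      have := (hLm t htL).1
      omega
    have hnon : ∀ U ⊆ L, U.Nonempty → σ * G (Z ∪ U) ≤ -(1 / 2) := by
      intro U hU hUn
      apply hσU
      obtain ⟨u, hu, humax⟩ := exists_max_image U id hUn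
      refine ⟨u, mem_union_right _ hu, (hLm u (hU hu)).2.2, ?_⟩
      intro t' ht'
      rw [mem_union] at ht'
      rcases ht' with ht' | ht'
      · have h3 := hZ1 t' ht'
        have h4 := (hLm u (hU hu)).1
        rw [Fin.le_def]
        omega
      · exact humax t' ht'
    obtain ⟨U, hU, hUn, hUb⟩ := step G hD L Z hL hdis hτ σ hσ hσZ
      (fun U hU hUn => by linarith [hnon U hU hUn])
    refine ⟨Z ∪ U, ?_, ?_⟩
    · intro t ht
      rw [mem_union] at ht
      rcases ht with ht | ht
      · have := hZ1 t ht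
        rw [hJ']
        omega
      · exact (hLm t (hU ht)).2.1
    · have e1 : |G Z| = σ * G Z := by
        have : |σ * G Z| = |G Z| := by
          rw [abs_mul]
          rcases hσ with h | h <;> rw [h] <;> simp
        rw [← this, abs_of_nonneg (by linarith)]
      have e2 : |G (Z ∪ U)| = -(σ * G (Z ∪ U)) := by
        have : |σ * G (Z ∪ U)| = |G (Z ∪ U)| := by
          rw [abs_mul]
          rcases hσ with h | h <;> rw [h] <;> simp
        rw [← this, abs_of_nonpos (by linarith [hnon U hU hUn])]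
      rw [e2, pow_succ]
      rw [e1] at hZ2
      linarith

end omb

end Pool.Agent.Lib_helper45.PPQ2
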