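import Pool.Agent.Lib_helper45.PPQ2.Rect
import Pool.Agent.Lib_helper45.PPQ2.Noise

/-!
# The lower bound for the PP mode
-/

set_option linter.unusedSectionVars false

namespace Pool.Agent.Lib_helper45.PPQ2

open Finset

section values

variable {n T k : ℕ}

/-- the value of the form number `t` -/
def qt (C : Fin n → (Fin T × Fin k) × Bool → ZMod 2) (t : Fin T) (z : Fin n → ZMod 2) : ZMod 2 :=
  ∑ l : Fin k, lf (fun i => C i ((t, l), false)) z * lf (fun i => C i ((t, l), true)) z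

theorem qf_cS (C : Fin n → (Fin T × Fin k) × Bool → ZMod 2) (S : Finset (Fin T))
    (z : Fin n → ZMod 2) : qf (cS C S) z = ∑ t ∈ S, qt C t z := by
  unfold qf qt
  have h1 : ∑ t ∈ S, ∑ l : Fin k, lf (fun i => C i ((t, l), false)) z *
      lf (fun i => C i ((t, l), true)) z = ∑ j ∈ S ×ˢ (univ : Finset (Fin k)),
        lf (fun i => C i (j, false)) z * lf (fun i => C i (j, true)) z := by
    rw [sum_product]
  rw [h1]
  refine sum_bij (fun j _ => j.1) ?_ ?_ ?_ ?_
  · intro j _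
    rw [mem_product]
    exact ⟨j.2, mem_univ _⟩
  · intro j _ j' _ h
    exact Subtype.ext h
  · intro j hj
    rw [mem_product] at hj
    exact ⟨⟨j, hj.1⟩, mem_univ _, rfl⟩
  · intro j _
    rfl

/-- the set of the equations that hold -/
def Zof (C : Fin n → (Fin T × Fin k) × Bool → ZMod 2) (x : Fin n → Bool) (e : Fin T → Bool) :
    Finset (Fin T) := univ.filter (fun t => qt C t (bzv n x) = bz (e t))

/-- the right sides for which exactly the equations in `Z` hold -/
def eof (C : Fin n → (Fin T × Fin k) × Bool → ZMod 2) (x : Fin n → Bool) (Z : Finset (Fin T)) :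
    Fin T → Bool := fun t => xor (decide (qt C t (bzv n x) = 1)) (decide (t ∉ Z))

theorem bz_cases : ∀ (a : ZMod 2) (b : Bool), (a = bz (xor (decide (a = 1)) b)) ↔ b = false := by
  decide

theorem bz_cases2 : ∀ (a : ZMod 2) (b : Bool), xor (decide (a = 1)) (decide (¬ a = bz b)) = b := by
  decide

theorem Zof_eof (C : Fin n → (Fin T × Fin k) × Bool → ZMod 2) (x : Fin n → Bool)
    (Z : Finset (Fin T)) : Zof C x (eof C x Z) = Z := by
  ext t
  rw [Zof, mem_filter]
  unfold eof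
  rw [bz_cases]
  simp

theorem eof_Zof (C : Fin n → (Fin T × Fin k) × Bool → ZMod 2) (x : Fin n → Bool)
    (e : Fin T → Bool) : eof C x (Zof C x e) = e := by
  funext t
  have h : (t ∈ Zof C x e) ↔ qt C t (bzv n x) = bz (e t) := by
    rw [Zof, mem_filter]
    simp
  show xor (decide (qt C t (bzv n x) = 1)) (decide (¬ (t ∈ Zof C x e))) = e t
  simp only [h]
  exact bz_cases2 _ _

/-- the bijection between right sides and sets -/
def eqv (C : Fin n → (Fin T × Fin k) × Bool → ZMod 2) (x : Fin n → Bool) :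
    (Fin T → Bool) ≃ Finset (Fin T) where
  toFun := Zof C x
  invFun := eof C x
  left_inv := eof_Zof C x
  right_inv := Zof_eof C x

theorem sgn_eq : ∀ (a : ZMod 2) (b : Bool), (a = bz b ∧ a + bz b = 0) ∨ (a ≠ bz b ∧ a + bz b ≠ 0) := by
  decide

theorem chi_Zof (C : Fin n → (Fin T × Fin k) × Bool → ZMod 2) (x : Fin n → Bool)
    (e : Fin T → Bool) (S : Finset (Fin T)) :
    chi S (Zof C x e) = (∏ t ∈ S, -ee (bz (e t))) * ee (qf (cS C S) (bzv n x)) := by
  rw [chi_comm, qf_cS, ee_sum]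
  unfold chi
  rw [← prod_mul_distrib]
  apply prod_congr rfl
  intro t _
  have h1 : (t ∈ Zof C x e) ↔ qt C t (bzv n x) = bz (e t) := by
    rw [Zof, mem_filter]
    simp
  simp only [h1]
  have h2 : -ee (bz (e t)) * ee (qt C t (bzv n x)) = -ee (qt C t (bzv n x) + bz (e t)) := by
    rw [ee_add]
    ring
  rw [h2]
  rcases sgn_eq (qt C t (bzv n x)) (e t) with ⟨h3, h4⟩ | ⟨h3, h4⟩
  · rw [if_pos h3, h4, ee_zero]
  · rw [if_neg h3]
    unfold ee
    rw [if_neg h4]
    ring

end values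

section coefs

variable {n T k : ℕ}

/-- the averaged function of the set of the equations that hold -/
noncomputable def GG (C : Fin n → (Fin T × Fin k) × Bool → ZMod 2)
    (h : (Fin T → Bool) → (Fin n → Bool) → ℝ) (Z : Finset (Fin T)) : ℝ :=
  (∑ x : Fin n → Bool, h (eof C x Z) x) / 2 ^ n

/-- bound for the Fourier coefficients -/
theorem coef_GG_le (C : Fin n → (Fin T × Fin k) × Bool → ZMod 2)
    (h : (Fin T → Bool) → (Fin n → Bool) → ℝ) (S : Finset (Fin T)) {β : ℝ}
    (hβ : ∀ e, |∑ x, h e x * ee (qf (cS C S) (bzv n x))| ≤ 2 ^ n * β) :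
    |coef (GG C h) S| ≤ β := by
  unfold coef GG
  have h1 : ∑ Z : Finset (Fin T), (∑ x : Fin n → Bool, h (eof C x Z) x) / 2 ^ n * chi S Z =
      (∑ e : Fin T → Bool, (∏ t ∈ S, -ee (bz (e t))) *
        ∑ x, h e x * ee (qf (cS C S) (bzv n x))) / 2 ^ n := by
    have e1 : ∀ x : Fin n → Bool, ∑ Z : Finset (Fin T), h (eof C x Z) x * chi S Z =
        ∑ e : Fin T → Bool, h e x * ((∏ t ∈ S, -ee (bz (e t))) * ee (qf (cS C S) (bzv n x))) := by
      intro x
      rw [← Equiv.sum_comp (eqv C x) (fun Z => h (eof C x Z) x * chi S Z)]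
      apply sum_congr rfl
      intro e _
      have : (eqv C x) e = Zof C x e := rfl
      rw [this, eof_Zof, chi_Zof]
    have e2 : ∑ Z : Finset (Fin T), (∑ x : Fin n → Bool, h (eof C x Z) x) / 2 ^ n * chi S Z =
        (∑ x : Fin n → Bool, ∑ Z : Finset (Fin T), h (eof C x Z) x * chi S Z) / 2 ^ n := by
      rw [sum_comm, sum_div]
      apply sum_congr rfl
      intro Z _
      rw [div_mul_eq_mul_div, sum_mul]
    rw [e2]
    simp only [e1]
    rw [sum_comm]
    congr 1
    apply sum_congr rfl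
    intro e _
    rw [mul_sum]
    apply sum_congr rfl
    intro x _
    ring
  rw [h1, Fintype.card_fin, abs_div, abs_div, abs_of_pos (by positivity : (0 : ℝ) < 2 ^ n),
    abs_of_pos (by positivity : (0 : ℝ) < 2 ^ T), div_div, div_le_iff₀ (by positivity)]
  refine (abs_sum_le_sum_abs _ _).trans ?_
  have h2 : ∀ e : Fin T → Bool, |(∏ t ∈ S, -ee (bz (e t))) *
      ∑ x, h e x * ee (qf (cS C S) (bzv n x))| ≤ 2 ^ n * β := by
    intro e
    rw [abs_mul, abs_prod]
    have : ∏ t ∈ S, |-ee (bz (e t))| = 1 := by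
      apply prod_eq_one
      intro t _
      rw [abs_neg, abs_ee]
    rw [this, one_mul]
    exact hβ e
  refine (sum_le_sum (fun e _ => h2 e)).trans ?_
  rw [sum_const, card_univ, Fintype.card_fun, Fintype.card_bool, Fintype.card_fin, nsmul_eq_mul]
  push_cast
  apply le_of_eq
  ring

/-- the tail -/
theorem tail_le (G : Finset (Fin T) → ℝ) {D : ℕ} {M : ℝ} (hM : 0 ≤ M) (hk : 4 * T ≤ 2 ^ k)
    (hG : ∀ S : Finset (Fin T), D < S.card → |coef G S| ≤ M / 2 ^ (S.card * k)) :
    ∑ S ∈ univ.filter (fun S : Finset (Fin T) => D < S.card), |coef G S| ≤ 3 * M / 4 ^ D := by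
  have h1 : ∀ S ∈ univ.filter (fun S : Finset (Fin T) => D < S.card), |coef G S| ≤
      M / 4 ^ D * ∏ _i ∈ S, (4 / 2 ^ k : ℝ) := by
    intro S hS
    rw [mem_filter] at hS
    refine (hG S hS.2).trans ?_
    rw [prod_const, div_pow, ← pow_mul, mul_comm k S.card]
    have h2 : (4 : ℝ) ^ D ≤ 4 ^ S.card := pow_le_pow_right₀ (by norm_num) hS.2.le
    have h3 : M / 2 ^ (S.card * k) = M / 4 ^ D * (4 ^ D / 2 ^ (S.card * k)) := by
      field_simp
    rw [h3]
    apply mul_le_mul_of_nonneg_left _ (by positivity)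
    exact div_le_div_of_nonneg_right h2 (by positivity)
  refine (sum_le_sum h1).trans ?_
  rw [← mul_sum]
  have h4 : ∑ S ∈ univ.filter (fun S : Finset (Fin T) => D < S.card), ∏ _i ∈ S, (4 / 2 ^ k : ℝ) ≤
      ∑ S : Finset (Fin T), ∏ _i ∈ S, (4 / 2 ^ k : ℝ) :=
    sum_le_sum_of_subset_of_nonneg (filter_subset _ _)
      (fun S _ _ => prod_nonneg (fun _ _ => by positivity))
  have h5 : ∑ S : Finset (Fin T), ∏ _i ∈ S, (4 / 2 ^ k : ℝ) = (4 / 2 ^ k + 1) ^ T := by
    have : ∑ S : Finset (Fin T), ∏ _i ∈ S, (4 / 2 ^ k : ℝ) = ∏ _i : Fin T, ((4 / 2 ^ k : ℝ) + 1) := by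
      rw [prod_add_one]
      rfl
    rw [this, prod_const, card_univ, Fintype.card_fin]
  have h6 : ((4 : ℝ) / 2 ^ k + 1) ^ T ≤ 3 := by
    have e1 : ((4 : ℝ) / 2 ^ k + 1) ^ T ≤ Real.exp ((T : ℝ) * (4 / 2 ^ k)) := by
      rw [Real.exp_nat_mul]
      apply pow_le_pow_left₀ (by positivity)
      exact Real.add_one_le_exp _
    have e2 : (T : ℝ) * (4 / 2 ^ k) ≤ 1 := by
      rw [← mul_div_assoc, div_le_one (by positivity), mul_comm]
      exact_mod_cast hk
    have e3 : Real.exp ((T : ℝ) * (4 / 2 ^ k)) ≤ Real.exp 1 := Real.exp_le_exp.2 e2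
    have e4 := Real.exp_one_lt_d9
    linarith
  calc M / 4 ^ D * ∑ S ∈ univ.filter (fun S : Finset (Fin T) => D < S.card),
        ∏ _i ∈ S, (4 / 2 ^ k : ℝ) ≤ M / 4 ^ D * 3 :=
        mul_le_mul_of_nonneg_left ((h4.trans (le_of_eq h5)).trans h6) (by positivity)
    _ = 3 * M / 4 ^ D := by ring

end coefs

end Pool.Agent.Lib_helper45.PPQ2
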