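import Pool.Agent.Lib_helper45.PPQ2.Cut2
import Pool.Agent.Lib_helper45.PPQ2.Good

/-!
# Correlation of programs with sums of the quadratic forms
-/

set_option linter.unusedSectionVars false

namespace Pool.Agent.Lib_helper45.PPQ2

open Finset

/-- bits as elements of the field -/
def bz (b : Bool) : ZMod 2 := if b then 1 else 0

/-- vectors of bits as vectors over the field -/
def bzv (n : ℕ) : (Fin n → Bool) ≃ (Fin n → ZMod 2) where
  toFun x i := bz (x i)
  invFun z i := decide (z i = 1)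
  left_inv x := by
    funext i
    have : ∀ b : Bool, decide (bz b = 1) = b := by decide
    exact this _
  right_inv z := by
    funext i
    have : ∀ a : ZMod 2, bz (decide (a = 1)) = a := by decide
    exact this _

theorem sum_bits {n : ℕ} (f : (Fin n → Bool) → ℝ) :
    ∑ x, f x = ∑ z, f ((bzv n).symm z) := (Equiv.sum_comp (bzv n).symm f).symm

variable {n T k : ℕ}

/-- the forms with numbers in `S` -/
def cS (C : Fin n → (Fin T × Fin k) × Bool → ZMod 2) (S : Finset (Fin T)) :
    {j : Fin T × Fin k // j.1 ∈ S} × Bool → Fin n → ZMod 2 :=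
  fun p i => C i (p.1.1, p.2)

theorem card_J (S : Finset (Fin T)) :
    Fintype.card {j : Fin T × Fin k // j.1 ∈ S} = S.card * k := by
  rw [Fintype.card_subtype]
  have : (univ.filter (fun j : Fin T × Fin k => j.1 ∈ S)) = S ×ˢ univ := by
    ext j
    simp
  rw [this, card_product, card_univ, Fintype.card_fin]

theorem card_Ker_le (C : Fin n → (Fin T × Fin k) × Bool → ZMod 2) (S : Finset (Fin T))
    (A : Finset (Fin n)) : (Ker (cS C S) A).card ≤ (KerX C A).card := by
  classical
  let f : ({j : Fin T × Fin k // j.1 ∈ S} × Bool → ZMod 2) → ((Fin T × Fin k) × Bool → ZMod 2) :=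
    fun v p => if h : p.1.1 ∈ S then v (⟨p.1, h⟩, p.2) else 0
  apply card_le_card_of_injOn f
  · intro v hv
    rw [mem_coe, mem_Ker] at hv
    rw [mem_coe, mem_KerX]
    intro i hi
    rw [← hv i hi]
    have h1 : ∑ p : (Fin T × Fin k) × Bool, f v p * C i p =
        ∑ p ∈ univ.filter (fun p : (Fin T × Fin k) × Bool => p.1.1 ∈ S), f v p * C i p := by
      rw [sum_filter]
      apply sum_congr rfl
      intro p _
      split_ifs with h
      · rfl
      · simp only [f, h, dif_neg, not_false_iff, zero_mul]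
    rw [h1]
    symm
    refine sum_bij (fun p _ => (p.1.1, p.2)) ?_ ?_ ?_ ?_
    · intro p _
      rw [mem_filter]
      exact ⟨mem_univ _, p.1.2⟩
    · rintro ⟨⟨a, ha⟩, b⟩ _ ⟨⟨a', ha'⟩, b'⟩ _ h
      simp only [Prod.mk.injEq] at h
      obtain ⟨h1, h2⟩ := h
      subst h1
      subst h2
      rfl
    · intro p hp
      rw [mem_filter] at hp
      exact ⟨(⟨p.1, hp.2⟩, p.2), mem_univ _, rfl⟩
    · intro p _
      simp only [f, p.1.2, dif_pos, cS]
  · intro v _ v' _ h
    funext p
    have := congrFun h (p.1.1, p.2)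
    simpa [f, p.1.2] using this

/-- correlation of a rectangle -/
theorem rect_corr (C : Fin n → (Fin T × Fin k) × Bool → ZMod 2) {m d : ℕ}
    (hC : ∀ A : Finset (Fin n), m ≤ A.card → (KerX C A).card ≤ 2 ^ d) (S : Finset (Fin T))
    {A0 B0 : Finset (Fin n)} {g : (Fin n → Bool) → ℝ} (hg : IsRect m A0 B0 g) :
    |∑ x, g x * ee (qf (cS C S) (bzv n x))| ≤ 2 ^ n * (2 ^ d / 2 ^ (S.card * k)) := by
  obtain ⟨A, _, B, _, hA, hB, u, w, hu, hw, iu, iw, hgx⟩ := hg
  have h0 : ∑ x, g x * ee (qf (cS C S) (bzv n x)) =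
      ∑ z, u ((bzv n).symm z) * w ((bzv n).symm z) * ee (qf (cS C S) z) := by
    rw [sum_bits (fun x => g x * ee (qf (cS C S) (bzv n x)))]
    apply sum_congr rfl
    intro z _
    simp only [hgx, Equiv.apply_symm_apply]
  have hshift : ∀ (B : Finset (Fin n)) (f : (Fin n → Bool) → ℝ), Indep B f → ∀ z g,
      f ((bzv n).symm (z + mk B g)) = f ((bzv n).symm z) := by
    intro B f hf z g
    apply hf
    intro y hy
    simp only [bzv, Equiv.coe_fn_symm_mk, Pi.add_apply, mk, hy, if_false, add_zero]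
  have h1 := corr (cS C S) A B (fun z => u ((bzv n).symm z)) (fun z => w ((bzv n).symm z))
    (fun z => hu _) (fun z => hw _) (fun z g => hshift B u iu z g) (fun z g => hshift A w iw z g)
  have h2 := card_Gd (cS C S) A B
  rw [card_J, Fintype.card_fin] at h2
  rw [Fintype.card_fin] at h1
  have h3 : ((Ker (cS C S) A).card : ℝ) ≤ 2 ^ d := by
    exact_mod_cast (card_Ker_le C S A).trans (hC A hA)
  have h4 : ((Ker (cS C S) B).card : ℝ) ≤ 2 ^ d := by
    exact_mod_cast (card_Ker_le C S B).trans (hC B hB)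
  have h5 : (4 : ℝ) ^ (S.card * k) * (Gd (cS C S) A B).card ≤ 2 ^ n * (2 ^ d * 2 ^ d) :=
    h2.trans (mul_le_mul_of_nonneg_left (mul_le_mul h3 h4 (Nat.cast_nonneg _) (by positivity))
      (by positivity))
  rw [h0]
  apply abs_le_of_sq_le_sq _ (by positivity)
  refine h1.trans ?_
  have h6 : ((Gd (cS C S) A B).card : ℝ) ≤ 2 ^ n * (2 ^ d * 2 ^ d) / 4 ^ (S.card * k) := by
    rw [le_div_iff₀ (by positivity), mul_comm]
    exact h5
  calc (2 : ℝ) ^ n * (Gd (cS C S) A B).card ≤
      2 ^ n * (2 ^ n * (2 ^ d * 2 ^ d) / 4 ^ (S.card * k)) :=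
        mul_le_mul_of_nonneg_left h6 (by positivity)
    _ = (2 ^ n * (2 ^ d / 2 ^ (S.card * k))) ^ 2 := by
        have : (4 : ℝ) ^ (S.card * k) = 2 ^ (S.card * k) * 2 ^ (S.card * k) := by
          rw [← mul_pow]
          norm_num
        rw [this]
        field_simp

/-- correlation of a sum of rectangles -/
theorem rsum_corr (C : Fin n → (Fin T × Fin k) × Bool → ZMod 2) {m d : ℕ}
    (hC : ∀ A : Finset (Fin n), m ≤ A.card → (KerX C A).card ≤ 2 ^ d) (S : Finset (Fin T))
    {A0 B0 : Finset (Fin n)} {K : ℕ} {g : (Fin n → Bool) → ℝ} (hg : RSum m A0 B0 K g) :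
    |∑ x, g x * ee (qf (cS C S) (bzv n x))| ≤ K * (2 ^ n * (2 ^ d / 2 ^ (S.card * k))) := by
  have hpos : (0 : ℝ) ≤ 2 ^ n * (2 ^ d / 2 ^ (S.card * k)) := by positivity
  induction hg with
  | zero => simp
  | weak _ ih =>
    push_cast
    linarith
  | add _ hr ih =>
    have h1 := rect_corr C hC S hr
    push_cast
    simp only [add_mul, sum_add_distrib]
    refine (abs_add_le _ _).trans ?_
    rw [one_mul]
    exact add_le_add ih h1

/-- halves -/
theorem halves (n : ℕ) : ∃ A B : Finset (Fin n), Disjoint A B ∧ n / 2 ≤ A.card ∧ n / 2 ≤ B.card := by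
  refine ⟨univ.filter (fun i => (i : ℕ) < n / 2), univ.filter (fun i => ¬ (i : ℕ) < n / 2),
    disjoint_filter_filter_not _ _ _, ?_, ?_⟩
  · have : (univ.filter (fun i : Fin n => (i : ℕ) < n / 2)).card = n / 2 := by
      rw [Fin.card_filter_val_lt]
      omega
    omega
  · have h1 : (univ.filter (fun i : Fin n => (i : ℕ) < n / 2)).card = n / 2 := by
      rw [Fin.card_filter_val_lt]
      omega
    have h2 := card_filter_add_card_filter_not (s := (univ : Finset (Fin n)))
      (fun i => (i : ℕ) < n / 2)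
    rw [card_univ, Fintype.card_fin] at h2
    omega

/-- correlation of a program -/
theorem prog_corr {W N : Type} [Fintype N] [DecidableEq W]
    (C : Fin n → (Fin T × Fin k) × Bool → ZMod 2) {m d r : ℕ}
    (hC : ∀ A : Finset (Fin n), m ≤ A.card → (KerX C A).card ≤ 2 ^ d)
    (hm : 2 ^ (2 * r) * (m + 1) ≤ n / 2 + 1) (P : BP (W ⊕ Fin n) N)
    (hP : ∀ i, P.ReadsAtMost r (Sum.inr i)) (τ : W → Bool) (S : Finset (Fin T)) :
    |∑ x : Fin n → Bool, ind (P.Accepts (Sum.elim τ x)) * ee (qf (cS C S) (bzv n x))| ≤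
      (((3 * Fintype.card N) ^ (2 * r) : ℕ) : ℝ) * (2 ^ n * (2 ^ d / 2 ^ (S.card * k))) := by
  obtain ⟨A, B, _, hA, hB⟩ := halves n
  have h := cut (P := P) (τ := τ) m (2 * r) r r (by omega) P.start A B
    (fun y _ => bud_start (hP y)) (fun y _ => bud_start (hP y)) (by omega) (by omega)
  exact rsum_corr C hC S h

end Pool.Agent.Lib_helper45.PPQ2
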