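import Pool.Agent.Lib_helper45.PPQ2.Defs

/-!
# Programs for the equations
-/

set_option linter.unusedSectionVars false

namespace Pool.Agent.Lib_helper45.PPQ2

open Finset

section seq

variable {V Q : Type}

/-- the program that reads the variables of a list one after the other -/
def seqBP (order : List V) (L : ℕ) (hL : order.length ≤ L) (init : Q) (stp : Q → V → Bool → Q)
    (acc : Q → Bool) : BP V (Fin (L + 1) × Q) where
  start := (0, init)
  label := fun s => if h : (s.1 : ℕ) < order.length then Sum.inl (order.get ⟨s.1, h⟩)
    else Sum.inr (acc s.2)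
  next := fun s b => if h : (s.1 : ℕ) < order.length then
    (⟨s.1 + 1, by omega⟩, stp s.2 (order.get ⟨s.1, h⟩) b) else s

variable {order : List V} {L : ℕ} {hL : order.length ≤ L} {init : Q} {stp : Q → V → Bool → Q}
  {acc : Q → Bool}

theorem seqBP_iter (v : V → Bool) (j : ℕ) (hj : j ≤ order.length) :
    ((seqBP order L hL init stp acc).step v)^[j] (seqBP order L hL init stp acc).start =
      (⟨j, by omega⟩, (order.take j).foldl (fun q x => stp q x (v x)) init) := by
  induction j with
  | zero =>
    rw [Function.iterate_zero, id]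
    simp [seqBP]
  | succ j ih =>
    have hj' : j < order.length := by omega
    rw [Function.iterate_succ_apply', ih (by omega)]
    have hlab : (seqBP order L hL init stp acc).label
        ((⟨j, by omega⟩ : Fin (L + 1)), (order.take j).foldl (fun q x => stp q x (v x)) init) =
        Sum.inl (order.get ⟨j, hj'⟩) := by
      simp only [seqBP, hj', dif_pos]
    unfold BP.step
    rw [hlab]
    simp only [seqBP, hj', dif_pos]
    congr 1
    rw [List.take_add_one, List.getElem?_eq_getElem hj', Option.toList_some, List.foldl_append,
      List.foldl_cons, List.foldl_nil]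
    rfl

theorem step_out {V N : Type} {P : BP V N} {v : V → Bool} {s : N} {b : Bool}
    (h : P.label s = Sum.inr b) : P.step v s = s := by
  unfold BP.step
  rw [h]

theorem iter_out {V N : Type} {P : BP V N} {v : V → Bool} {s : N} {b : Bool}
    (h : P.label s = Sum.inr b) (i : ℕ) : (P.step v)^[i] s = s := by
  induction i with
  | zero => rfl
  | succ i ih => rw [Function.iterate_succ_apply', ih, step_out h]

theorem accepts_of_out {V N : Type} {P : BP V N} {v : V → Bool} {b : Bool} (j : ℕ)
    (h : P.label ((P.step v)^[j] P.start) = Sum.inr b) : P.Accepts v ↔ b = true := by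
  constructor
  · rintro ⟨i, hi⟩
    rcases le_total i j with hij | hij
    · obtain ⟨e, rfl⟩ := Nat.exists_eq_add_of_le hij
      rw [add_comm, Function.iterate_add_apply, iter_out hi, hi] at h
      exact (Sum.inr_injective h).symm
    · obtain ⟨e, rfl⟩ := Nat.exists_eq_add_of_le hij
      rw [add_comm, Function.iterate_add_apply, iter_out h, h] at hi
      exact Sum.inr_injective hi
  · intro hb
    subst hb
    exact ⟨j, h⟩

theorem seqBP_accepts (v : V → Bool) : (seqBP order L hL init stp acc).Accepts v ↔
    acc (order.foldl (fun q x => stp q x (v x)) init) = true := by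
  have h1 := seqBP_iter (hL := hL) (init := init) (stp := stp) (acc := acc) v order.length le_rfl
  rw [List.take_length] at h1
  apply accepts_of_out order.length
  rw [h1]
  simp [seqBP]

theorem seqBP_path [DecidableEq V] {s : Fin (L + 1) × Q} {l : List V}
    (h : (seqBP order L hL init stp acc).Path s l) : l <+: order.drop s.1 := by
  induction h with
  | nil s => exact List.nil_prefix
  | @cons s x l b hl _ ih =>
    by_cases hs : (s.1 : ℕ) < order.length
    · simp only [seqBP, hs, dif_pos, Sum.inl.injEq] at hl
      have hn : ((seqBP order L hL init stp acc).next s b).1 = (⟨s.1 + 1, by omega⟩ : Fin (L + 1)) := by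
        simp only [seqBP, hs, dif_pos]
      rw [hn] at ih
      rw [List.drop_eq_getElem_cons hs]
      have hx : order[(s.1 : ℕ)] = x := hl
      rw [hx]
      exact (List.cons_prefix_cons).2 ⟨rfl, ih⟩
    · simp only [seqBP, hs, dif_neg, not_false_iff] at hl
      exact absurd hl (by simp)

theorem seqBP_reads [DecidableEq V] (hnd : order.Nodup) (x : V) :
    (seqBP order L hL init stp acc).ReadsAtMost 1 x := by
  intro l hl
  have h1 := seqBP_path hl
  have h2 : l.Sublist order := h1.sublist.trans (List.drop_sublist _ _)
  exact (h2.count_le x).trans (List.nodup_iff_count_le_one.1 hnd x)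

end seq

section V1

variable {n T : ℕ}

/-- the variables -/
abbrev wb (i : Fin n) : Var n T := Sum.inr i
abbrev wc (t : Fin T) (l : Fin (kk n)) (s : Bool) (i : Fin n) : Var n T :=
  Sum.inl (Sum.inl (t, l, s, i))
abbrev we (t : Fin T) : Var n T := Sum.inl (Sum.inr t)

/-- the variables of the block `i`, for the products in `K` -/
def blk (t : Fin T) (i : Fin n) (K : List (Fin (kk n))) : List (Var n T) :=
  K.flatMap (fun l => [wc t l false i, wc t l true i])

/-- the variables for the points in `I` -/
def blks (t : Fin T) (I : List (Fin n)) : List (Var n T) :=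
  I.flatMap (fun i => wb i :: blk t i (List.finRange (kk n)))

/-- the order of the automaton `t` -/
def ordL (n : ℕ) {T : ℕ} (t : Fin T) : List (Var n T) := blks t (List.finRange n) ++ [we t]

theorem mem_blk {t : Fin T} {i : Fin n} {K : List (Fin (kk n))} {x : Var n T} :
    x ∈ blk t i K ↔ ∃ l ∈ K, ∃ s, x = wc t l s i := by
  unfold blk
  rw [List.mem_flatMap]
  refine exists_congr (fun l => and_congr_right (fun _ => ?_))
  simp only [List.mem_cons, List.not_mem_nil, or_false]
  constructor
  · rintro (h | h)
    · exact ⟨_, h⟩
    · exact ⟨_, h⟩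
  · rintro ⟨s, h⟩
    cases s
    · exact Or.inl h
    · exact Or.inr h

theorem nodup_blk (t : Fin T) (i : Fin n) {K : List (Fin (kk n))} (hK : K.Nodup) :
    (blk t i K).Nodup := by
  induction K with
  | nil => simp [blk]
  | cons l K ih =>
    rw [List.nodup_cons] at hK
    have e : blk t i (l :: K) = wc t l false i :: wc t l true i :: blk t i K := rfl
    have h : ∀ s, wc t l s i ∉ blk t i K := by
      intro s hs
      obtain ⟨l', hl', s', h'⟩ := mem_blk.1 hs
      simp only [Sum.inl.injEq, Prod.mk.injEq] at h'
      rw [← h'.2.1] at hl'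
      exact hK.1 hl'
    rw [e, List.nodup_cons, List.nodup_cons, List.mem_cons, not_or]
    exact ⟨⟨by simp, h false⟩, h true, ih hK.2⟩

theorem mem_blks {t : Fin T} {I : List (Fin n)} {x : Var n T} :
    x ∈ blks t I ↔ ∃ i ∈ I, x = wb i ∨ ∃ l s, x = wc t l s i := by
  unfold blks
  rw [List.mem_flatMap]
  refine exists_congr (fun i => and_congr_right (fun _ => ?_))
  rw [List.mem_cons, mem_blk]
  simp [List.mem_finRange]

theorem nodup_blks (t : Fin T) {I : List (Fin n)} (hI : I.Nodup) :
    (blks t I).Nodup := by
  induction I with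
  | nil => simp [blks]
  | cons i I ih =>
    rw [List.nodup_cons] at hI
    have e : blks t (i :: I) = (wb i :: blk t i (List.finRange (kk n))) ++ blks t I := rfl
    rw [e, List.nodup_append]
    refine ⟨?_, ih hI.2, ?_⟩
    · rw [List.nodup_cons]
      refine ⟨?_, nodup_blk t i (List.nodup_finRange _)⟩
      intro h
      obtain ⟨l, _, s, h'⟩ := mem_blk.1 h
      simp at h'
    · intro x hx y hy hxy
      subst hxy
      obtain ⟨i', hi', h'⟩ := mem_blks.1 hy
      rw [List.mem_cons, mem_blk] at hx
      rcases hx with hx | ⟨l, _, s, hx⟩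
      · rcases h' with h' | ⟨l', s', h'⟩
        · rw [hx] at h'
          simp only [Sum.inr.injEq] at h'
          rw [h'] at hI
          exact hI.1 hi'
        · rw [hx] at h'
          simp at h'
      · rcases h' with h' | ⟨l', s', h'⟩
        · rw [hx] at h'
          simp at h'
        · rw [hx] at h'
          simp only [Sum.inl.injEq, Prod.mk.injEq] at h'
          rw [h'.2.2.2] at hI
          exact hI.1 hi'

theorem nodup_ordL (t : Fin T) : (ordL n t).Nodup := by
  rw [ordL, List.nodup_append]
  refine ⟨nodup_blks t (List.nodup_finRange n), by simp, ?_⟩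
  intro x hx y hy hxy
  subst hxy
  rw [List.mem_singleton] at hy
  subst hy
  obtain ⟨i, _, h | ⟨l, s, h⟩⟩ := mem_blks.1 hx
  · simp at h
  · simp at h

/-- the states -/
abbrev St (n : ℕ) : Type := (Fin (kk n) → Bool → ZMod 2) × Bool

/-- the step of the automaton -/
def stp (q : St n) (x : Var n T) (c : Bool) : St n :=
  match x with
  | Sum.inr _ => (q.1, c)
  | Sum.inl (Sum.inl (_, l, s, _)) =>
      ((fun l' s' => if l' = l ∧ s' = s then q.1 l' s' + (if c && q.2 then 1 else 0)
        else q.1 l' s'), q.2)
  | Sum.inl (Sum.inr _) => (q.1, c)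

theorem stp_wc (q : St n) (t : Fin T) (l : Fin (kk n)) (s : Bool) (i : Fin n)
    (c : Bool) :
    stp q (wc t l s i) c =
      ((fun l' s' => if l' = l ∧ s' = s then q.1 l' s' + (if c && q.2 then 1 else 0)
        else q.1 l' s'), q.2) := rfl

theorem fold_blk (v : Var n T → Bool) (t : Fin T) (i : Fin n) (cur : Bool)
    {K : List (Fin (kk n))} (hK : K.Nodup) : ∀ (R : Fin (kk n) → Bool → ZMod 2),
    (blk t i K).foldl (fun q x => stp q x (v x)) (R, cur) =
      ((fun l s => if l ∈ K then R l s + (if v (wc t l s i) && cur then 1 else 0) else R l s),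
        cur) := by
  induction K with
  | nil => intro R; simp [blk]
  | cons l0 K ih =>
    intro R
    rw [List.nodup_cons] at hK
    have e : blk t i (l0 :: K) = wc t l0 false i :: wc t l0 true i :: blk t i K := rfl
    rw [e, List.foldl_cons, List.foldl_cons, stp_wc, stp_wc, ih hK.2]
    congr 1
    funext l s
    by_cases hl : l = l0
    · subst hl
      rw [if_neg hK.1, if_pos List.mem_cons_self]
      cases s
      · simp
      · simp
    · have h1 : (l ∈ l0 :: K) ↔ l ∈ K := by
        rw [List.mem_cons]
        exact ⟨fun h => h.resolve_left hl, Or.inr⟩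
      simp only [hl, false_and, if_false, h1]

theorem fold_blks (v : Var n T → Bool) (t : Fin T) (I : List (Fin n)) :
    ∀ (R : Fin (kk n) → Bool → ZMod 2) (cur : Bool), ∃ cur',
    (blks t I).foldl (fun q x => stp q x (v x)) (R, cur) =
      ((fun l s => R l s + (I.map (fun i =>
        if v (wc t l s i) && v (wb i) then (1 : ZMod 2) else 0)).sum), cur') := by
  induction I with
  | nil => intro R cur; exact ⟨cur, by simp [blks]⟩
  | cons i I ih =>
    intro R cur
    have e : blks t (i :: I) = (wb i :: blk t i (List.finRange (kk n))) ++ blks t I := rfl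
    rw [e, List.foldl_append, List.foldl_cons]
    have e2 : stp (R, cur) (wb i : Var n T) (v (wb i)) = (R, v (wb i)) := rfl
    rw [e2, fold_blk v t i _ (List.nodup_finRange _)]
    obtain ⟨cur', h⟩ := ih (fun l s => if l ∈ List.finRange (kk n) then
      R l s + (if v (wc t l s i) && v (wb i) then 1 else 0) else R l s) (v (wb i))
    refine ⟨cur', ?_⟩
    rw [h]
    simp only [List.mem_finRange, if_true, List.map_cons, List.sum_cons, add_assoc]

theorem fold_ordL (v : Var n T → Bool) (t : Fin T) :
    (ordL n t).foldl (fun q x => stp q x (v x)) ((fun _ _ => 0), false) =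
      ((fun l s => dot (fun i : Fin n => v (wc t l s i)) (fun i => v (wb i))), v (we t)) := by
  rw [ordL, List.foldl_append]
  obtain ⟨cur', h⟩ := fold_blks v t (List.finRange n) (fun _ _ => 0) false
  rw [h, List.foldl_cons, List.foldl_nil]
  simp only [stp, zero_add, dot, Fin.sum_univ_def]


theorem length_blk (t : Fin T) (i : Fin n) (K : List (Fin (kk n))) :
    (blk t i K).length = 2 * K.length := by
  induction K with
  | nil => rfl
  | cons l K ih =>
    have e : blk t i (l :: K) = wc t l false i :: wc t l true i :: blk t i K := rfl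
    rw [e, List.length_cons, List.length_cons, ih, List.length_cons]
    ring

theorem length_blks (t : Fin T) (I : List (Fin n)) :
    (blks t I).length = (2 * kk n + 1) * I.length := by
  induction I with
  | nil => rfl
  | cons i I ih =>
    have e : blks t (i :: I) = (wb i :: blk t i (List.finRange (kk n))) ++ blks t I := rfl
    rw [e, List.length_append, List.length_cons, length_blk, List.length_finRange, ih,
      List.length_cons]
    ring

theorem length_ordL (t : Fin T) : (ordL n t).length = (2 * kk n + 1) * n + 1 := by
  rw [ordL, List.length_append, length_blks, List.length_finRange]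
  rfl

/-- the length of the orders -/
def LL (n : ℕ) : ℕ := (2 * kk n + 1) * n + 1

/-- the nodes -/
abbrev NN (n : ℕ) : Type := Fin (LL n + 1) × St n

/-- the program of the equation `t`: accept iff the truth value of the equation is `c` -/
def prog (c : Bool) (t : Fin T) : BP (Var n T) (NN n) :=
  seqBP (ordL n t) (LL n) (le_of_eq (length_ordL t)) ((fun _ _ => 0), false) stp
    (fun q => decide (decide (∑ l, q.1 l false * q.1 l true = if q.2 then 1 else 0) = c))

theorem prog_accepts (c : Bool) (t : Fin T) (v : Var n T → Bool) :
    (prog c t).Accepts v ↔ (Eqn n T v t ↔ c = true) := by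
  unfold prog
  rw [seqBP_accepts, fold_ordL]
  unfold Eqn quad
  simp only [decide_eq_true_eq]
  cases c <;> simp

theorem prog_reads (c : Bool) (t : Fin T) (x : Var n T) : (prog c t).ReadsAtMost 1 x :=
  seqBP_reads (nodup_ordL t) x

theorem card_St : Fintype.card (St n) = 2 * 4 ^ kk n := by
  rw [Fintype.card_prod, Fintype.card_fun, Fintype.card_fun, ZMod.card, Fintype.card_bool,
    Fintype.card_fin, mul_comm]
  norm_num

theorem card_NN_le (hn : 32 ≤ n) : Fintype.card (NN n) ≤ n ^ 4 := by
  rw [Fintype.card_prod, Fintype.card_fin, card_St]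
  have h1 : 2 ^ kk n ≤ n := Nat.pow_log_le_self 2 (by omega)
  have h2 : 4 ^ kk n ≤ n ^ 2 := by
    have : 4 ^ kk n = (2 ^ kk n) ^ 2 := by
      rw [← pow_mul, mul_comm, pow_mul]
      norm_num
    rw [this]
    exact Nat.pow_le_pow_left h1 2
  have h3 : 4 * kk n + 3 ≤ n := by
    have h4 : ∀ j, 5 ≤ j → 4 * j + 3 ≤ 2 ^ j := by
      intro j hj
      induction j, hj using Nat.le_induction with
      | base => norm_num
      | succ j _ ih =>
        rw [pow_succ]
        omega
    have h5 : 5 ≤ kk n := by
      unfold kk
      have := Nat.log_mono_right (b := 2) hn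
      have e : Nat.log 2 32 = 5 := by
        rw [show (32 : ℕ) = 2 ^ 5 by norm_num, Nat.log_pow (by norm_num)]
      omega
    have := h4 _ h5
    omega
  have h6 : 2 * (LL n + 1) ≤ n ^ 2 := by
    unfold LL
    nlinarith
  calc (LL n + 1) * (2 * 4 ^ kk n) = 2 * (LL n + 1) * 4 ^ kk n := by ring
    _ ≤ n ^ 2 * n ^ 2 := Nat.mul_le_mul h6 h2
    _ = n ^ 4 := by ring

/-- the function is in the P^NP mode -/
theorem pnp (n T : ℕ) (v : Var n T → Bool) : LastOdd n T v ↔ PNPMode (prog (n := n) (T := T) true) v := by
  unfold LastOdd PNPMode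
  simp only [prog_accepts, iff_true]

end V1

end Pool.Agent.Lib_helper45.PPQ2
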