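import Mathlib

/-!
# Interpolation weights at zero for the nodes 1, 16, 64, 144, ...
-/

namespace Pool.Agent.Lib_helper45.PPQ2

open Finset

/-- the product over the other squares -/
theorem prod_base (n : ℕ) :
    (∏ i ∈ range n, (((i : ℝ) + 1) ^ 2 / |((i : ℝ) + 1) ^ 2 - ((n : ℝ) + 1) ^ 2|)) *
      ((2 * n + 2).factorial : ℝ) = 2 * ((n + 1).factorial : ℝ) ^ 2 := by
  have h1 : ∀ i ∈ range n, ((i : ℝ) + 1) ^ 2 / |((i : ℝ) + 1) ^ 2 - ((n : ℝ) + 1) ^ 2| =
      ((i : ℝ) + 1) ^ 2 / ((((n - i : ℕ)) : ℝ) * ((n + 2 + i : ℕ) : ℝ)) := by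
    intro i hi
    have hi' : i < n := mem_range.1 hi
    have h : (i : ℝ) < n := by exact_mod_cast hi'
    congr 1
    rw [abs_of_nonpos (by nlinarith), Nat.cast_sub hi'.le]
    push_cast
    ring
  rw [prod_congr rfl h1, prod_div_distrib, prod_mul_distrib, prod_pow]
  have h2 : ∏ i ∈ range n, ((i : ℝ) + 1) = (n.factorial : ℝ) := by
    rw [← prod_range_add_one_eq_factorial]
    push_cast
    rfl
  have h3 : ∏ i ∈ range n, (((n - i : ℕ)) : ℝ) = (n.factorial : ℝ) := by
    rw [← Nat.descFactorial_self, Nat.descFactorial_eq_prod_range]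
    push_cast
    rfl
  have h4 : ((n + 1).factorial : ℝ) * ∏ i ∈ range n, ((n + 2 + i : ℕ) : ℝ) =
      ((2 * n + 1).factorial : ℝ) := by
    have := Nat.factorial_mul_ascFactorial (n + 1) n
    rw [Nat.ascFactorial_eq_prod_range] at this
    have e : n + 1 + n = 2 * n + 1 := by ring
    have e3 : ∀ i, n + 1 + 1 + i = n + 2 + i := fun i => by ring
    simp only [e, e3] at this
    exact_mod_cast this
  rw [h2, h3]
  have hn : (n.factorial : ℝ) ≠ 0 := by exact_mod_cast n.factorial_ne_zero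
  have hn1 : ((n + 1).factorial : ℝ) ≠ 0 := by exact_mod_cast (n + 1).factorial_ne_zero
  have hp : (∏ i ∈ range n, ((n + 2 + i : ℕ) : ℝ)) ≠ 0 := by
    rw [prod_ne_zero_iff]
    intro i _
    positivity
  have h5 : ((2 * n + 2).factorial : ℝ) = (2 * (n : ℝ) + 2) * ((2 * n + 1).factorial : ℝ) := by
    rw [show 2 * n + 2 = (2 * n + 1) + 1 by ring, Nat.factorial_succ]
    push_cast
    ring
  rw [h5, ← h4]
  have h6 : ((n + 1).factorial : ℝ) = ((n : ℝ) + 1) * (n.factorial : ℝ) := by
    rw [Nat.factorial_succ]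
    push_cast
    ring
  field_simp
  rw [h6]
  ring

/-- the product over the other squares in `1, ..., D` -/
theorem prod_squares (j : ℕ) (hj : 1 ≤ j) (e : ℕ) :
    (∏ i ∈ (Icc 1 (j + e)).erase j, ((i : ℝ) ^ 2 / |(i : ℝ) ^ 2 - (j : ℝ) ^ 2|)) *
      ((e.factorial : ℝ) * ((2 * j + e).factorial : ℝ)) = 2 * ((j + e).factorial : ℝ) ^ 2 := by
  induction e with
  | zero =>
    obtain ⟨n, rfl⟩ : ∃ n, j = n + 1 := ⟨j - 1, by omega⟩
    have h1 : (Icc 1 (n + 1 + 0)).erase (n + 1) = (range n).map ⟨fun i => i + 1, fun a b h => by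
        simpa using h⟩ := by
      ext i
      simp only [mem_erase, mem_Icc, mem_map, mem_range, Function.Embedding.coeFn_mk]
      constructor
      · rintro ⟨h, h1, h2⟩
        exact ⟨i - 1, by omega, by omega⟩
      · rintro ⟨k, hk, rfl⟩
        omega
    rw [h1, prod_map]
    have h2 := prod_base n
    simp only [Function.Embedding.coeFn_mk, Nat.factorial_zero, Nat.cast_one, one_mul, add_zero]
    rw [show 2 * (n + 1) = 2 * n + 2 by ring]
    push_cast at h2 ⊢
    exact h2
  | succ e ih =>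
    have h1 : (Icc 1 (j + (e + 1))).erase j = insert (j + e + 1) ((Icc 1 (j + e)).erase j) := by
      ext i
      simp only [mem_erase, mem_Icc, mem_insert]
      omega
    have h2 : j + e + 1 ∉ (Icc 1 (j + e)).erase j := by
      simp only [mem_erase, mem_Icc]
      omega
    rw [h1, prod_insert h2]
    have h3 : |(((j + e + 1 : ℕ)) : ℝ) ^ 2 - (j : ℝ) ^ 2| = ((e : ℝ) + 1) * (2 * j + e + 1) := by
      rw [abs_of_nonneg]
      · push_cast
        ring
      · push_cast
        nlinarith [Nat.cast_nonneg (α := ℝ) j, Nat.cast_nonneg (α := ℝ) e]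
    have h4 : ((e + 1).factorial : ℝ) = ((e : ℝ) + 1) * e.factorial := by
      rw [Nat.factorial_succ]
      push_cast
      ring
    have h5 : ((2 * j + (e + 1)).factorial : ℝ) = (2 * (j : ℝ) + e + 1) * (2 * j + e).factorial := by
      rw [show 2 * j + (e + 1) = (2 * j + e) + 1 by ring, Nat.factorial_succ]
      push_cast
      ring
    have h6 : ((j + (e + 1)).factorial : ℝ) = ((j : ℝ) + e + 1) * (j + e).factorial := by
      rw [show j + (e + 1) = (j + e) + 1 by ring, Nat.factorial_succ]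
      push_cast
      ring
    rw [h3, h4, h5, h6]
    have he : ((e : ℝ) + 1) ≠ 0 := by positivity
    have hj2 : (2 * (j : ℝ) + e + 1) ≠ 0 := by positivity
    have : ((((j + e + 1 : ℕ)) : ℝ) ^ 2 / (((e : ℝ) + 1) * (2 * j + e + 1)) *
        ∏ i ∈ (Icc 1 (j + e)).erase j, ((i : ℝ) ^ 2 / |(i : ℝ) ^ 2 - (j : ℝ) ^ 2|)) *
        ((((e : ℝ) + 1) * e.factorial) * ((2 * (j : ℝ) + e + 1) * (2 * j + e).factorial)) =
        (((j + e + 1 : ℕ)) : ℝ) ^ 2 *
        ((∏ i ∈ (Icc 1 (j + e)).erase j, ((i : ℝ) ^ 2 / |(i : ℝ) ^ 2 - (j : ℝ) ^ 2|)) *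
      ((e.factorial : ℝ) * ((2 * j + e).factorial : ℝ))) := by
      field_simp
    rw [this, ih]
    push_cast
    ring

theorem prod_squares_le (j D : ℕ) (hj : 1 ≤ j) (hD : j ≤ D) :
    ∏ i ∈ (Icc 1 D).erase j, ((i : ℝ) ^ 2 / |(i : ℝ) ^ 2 - (j : ℝ) ^ 2|) ≤ 2 := by
  obtain ⟨e, rfl⟩ := Nat.exists_eq_add_of_le hD
  have h := prod_squares j hj e
  have h1 : ((j + e).factorial : ℝ) ^ 2 ≤ (e.factorial : ℝ) * ((2 * j + e).factorial : ℝ) := by
    have h2 := Nat.choose_le_centralBinom e (j + e)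
    have h3 := Nat.choose_mul_factorial_mul_factorial (n := 2 * (j + e)) (k := e) (by omega)
    have h4 := Nat.choose_mul_factorial_mul_factorial (n := 2 * (j + e)) (k := j + e) (by omega)
    have e1 : 2 * (j + e) - e = 2 * j + e := by omega
    have e2 : 2 * (j + e) - (j + e) = j + e := by omega
    rw [e1] at h3
    rw [e2] at h4
    have h5 : (2 * (j + e)).choose (j + e) = (j + e).centralBinom := rfl
    rw [h5] at h4
    have h6 : (2 * (j + e)).choose e * ((j + e).factorial * (j + e).factorial) ≤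
        (2 * (j + e)).choose e * (e.factorial * (2 * j + e).factorial) := by
      calc (2 * (j + e)).choose e * ((j + e).factorial * (j + e).factorial)
          ≤ (j + e).centralBinom * ((j + e).factorial * (j + e).factorial) :=
            Nat.mul_le_mul_right _ h2
        _ = (2 * (j + e)).factorial := by rw [← h4]; ring
        _ = (2 * (j + e)).choose e * (e.factorial * (2 * j + e).factorial) := by rw [← h3]; ring
    have h7 : 0 < (2 * (j + e)).choose e := Nat.choose_pos (by omega)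
    have h8 := Nat.le_of_mul_le_mul_left h6 h7
    rw [pow_two]
    exact_mod_cast h8
  have h2 : (0 : ℝ) < (e.factorial : ℝ) * ((2 * j + e).factorial : ℝ) := by positivity
  by_contra hc
  push Not at hc
  have h3 := mul_lt_mul_of_pos_right hc h2
  rw [h] at h3
  linarith

/-- the nodes before scaling -/
noncomputable def md (j : ℕ) : ℝ := if j = 0 then 1 else 16 * (j : ℝ) ^ 2

theorem md_pos (j : ℕ) : 0 < md j := by
  unfold md
  split_ifs with h
  · norm_num
  · have : 0 < (j : ℝ) := by exact_mod_cast Nat.pos_of_ne_zero h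
    positivity

theorem one_le_md (j : ℕ) : 1 ≤ md j := by
  unfold md
  split_ifs with h
  · norm_num
  · have : (1 : ℝ) ≤ (j : ℝ) := by exact_mod_cast Nat.one_le_iff_ne_zero.2 h
    nlinarith

theorem md_injOn (s : Set ℕ) : Set.InjOn md s := by
  intro a _ b _ h
  have key : ∀ a b : ℕ, a < b → md a < md b := by
    intro a b hab
    unfold md
    have hb : b ≠ 0 := by omega
    have hb1 : (1 : ℝ) ≤ (b : ℝ) := by exact_mod_cast Nat.one_le_iff_ne_zero.2 hb
    rw [if_neg hb]
    split_ifs with ha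
    · nlinarith
    · have : (a : ℝ) < b := by exact_mod_cast hab
      have ha0 : (0 : ℝ) ≤ a := Nat.cast_nonneg a
      nlinarith
  rcases lt_trichotomy a b with h1 | h1 | h1
  · exact absurd h (key a b h1).ne
  · exact h1
  · exact absurd h.symm (key b a h1).ne

/-- the weights -/
noncomputable def wt (D j : ℕ) : ℝ := ∏ i ∈ (range (D + 1)).erase j, (md i / (md i - md j))

theorem abs_wt_le (D j : ℕ) (hj : 1 ≤ j) (hD : j ≤ D) : |wt D j| ≤ 2 / (15 * (j : ℝ) ^ 2) := by
  have h0 : (range (D + 1)).erase j = insert 0 ((Icc 1 D).erase j) := by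
    ext i
    simp only [mem_erase, mem_range, mem_insert, mem_Icc]
    omega
  have h1 : (0 : ℕ) ∉ (Icc 1 D).erase j := by simp
  unfold wt
  rw [h0, prod_insert h1, abs_mul, abs_prod]
  have hj1 : (1 : ℝ) ≤ (j : ℝ) := by exact_mod_cast hj
  have h2 : |md 0 / (md 0 - md j)| ≤ 1 / (15 * (j : ℝ) ^ 2) := by
    have e1 : md 0 = 1 := by simp [md]
    have e2 : md j = 16 * (j : ℝ) ^ 2 := by
      unfold md
      rw [if_neg (by omega)]
    rw [e1, e2, abs_div, abs_one]
    apply one_div_le_one_div_of_le (by positivity)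
    rw [abs_of_nonpos (by nlinarith)]
    nlinarith
  have h3 : ∏ i ∈ (Icc 1 D).erase j, |md i / (md i - md j)| ≤ 2 := by
    refine le_trans (le_of_eq ?_) (prod_squares_le j D hj hD)
    apply prod_congr rfl
    intro i hi
    simp only [mem_erase, mem_Icc] at hi
    have e1 : md i = 16 * (i : ℝ) ^ 2 := by
      unfold md
      rw [if_neg (by omega)]
    have e2 : md j = 16 * (j : ℝ) ^ 2 := by
      unfold md
      rw [if_neg (by omega)]
    rw [e1, e2, ← mul_sub, mul_div_mul_left _ _ (by norm_num), abs_div, abs_of_nonneg (sq_nonneg _)]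
  calc |md 0 / (md 0 - md j)| * ∏ i ∈ (Icc 1 D).erase j, |md i / (md i - md j)|
      ≤ 1 / (15 * (j : ℝ) ^ 2) * 2 :=
        mul_le_mul h2 h3 (prod_nonneg fun _ _ => abs_nonneg _) (by positivity)
    _ = 2 / (15 * (j : ℝ) ^ 2) := by ring

theorem sum_inv_sq (D : ℕ) : ∑ j ∈ Icc 1 (D + 1), 1 / (j : ℝ) ^ 2 ≤ 2 - 1 / ((D : ℝ) + 1) := by
  induction D with
  | zero => simp; norm_num
  | succ D ih =>
    rw [sum_Icc_succ_top (by omega)]
    have h : (1 : ℝ) / (((D + 1 + 1 : ℕ)) : ℝ) ^ 2 ≤ 1 / ((D : ℝ) + 1) - 1 / ((D : ℝ) + 2) := by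
      push_cast
      rw [div_sub_div _ _ (by positivity) (by positivity), div_le_div_iff₀ (by positivity) (by positivity)]
      nlinarith [Nat.cast_nonneg (α := ℝ) D]
    have e : ((D + 1 : ℕ) : ℝ) + 1 = (D : ℝ) + 2 := by push_cast; ring
    rw [e]
    linarith

theorem sum_abs_wt_le (D : ℕ) : ∑ j ∈ Icc 1 D, |wt D j| ≤ 4 / 15 := by
  rcases Nat.eq_zero_or_pos D with h | h
  · subst h
    simp
    norm_num
  · calc ∑ j ∈ Icc 1 D, |wt D j| ≤ ∑ j ∈ Icc 1 D, 2 / 15 * (1 / (j : ℝ) ^ 2) := by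
          apply sum_le_sum
          intro j hj
          rw [mem_Icc] at hj
          refine le_trans (abs_wt_le D j hj.1 hj.2) (le_of_eq ?_)
          have : (0 : ℝ) < j := by exact_mod_cast hj.1
          field_simp
      _ = 2 / 15 * ∑ j ∈ Icc 1 D, 1 / (j : ℝ) ^ 2 := by rw [mul_sum]
      _ ≤ 2 / 15 * 2 := by
          apply mul_le_mul_of_nonneg_left _ (by norm_num)
          obtain ⟨e, rfl⟩ : ∃ e, D = e + 1 := ⟨D - 1, by omega⟩
          refine le_trans (sum_inv_sq e) ?_
          have : (0 : ℝ) < 1 / ((e : ℝ) + 1) := by positivity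
          linarith
      _ = 4 / 15 := by norm_num

/-- the scaled nodes -/
noncomputable def th (D j : ℕ) : ℝ := md j / (16 * (D : ℝ) ^ 2)

theorem th_pos {D : ℕ} (hD : 1 ≤ D) (j : ℕ) : 0 < th D j := by
  have : (1 : ℝ) ≤ D := by exact_mod_cast hD
  exact div_pos (md_pos j) (by positivity)

theorem th_le_one {D : ℕ} (hD : 1 ≤ D) {j : ℕ} (hj : j ≤ D) : th D j ≤ 1 := by
  have h1 : (1 : ℝ) ≤ D := by exact_mod_cast hD
  unfold th
  rw [div_le_one (by positivity)]
  unfold md
  split_ifs with h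
  · nlinarith
  · have : (j : ℝ) ≤ D := by exact_mod_cast hj
    have h0 : (0 : ℝ) ≤ j := Nat.cast_nonneg j
    nlinarith

theorem four_le {D : ℕ} (hD : 1 ≤ D) (j : ℕ) : 4 ≤ 64 * (D : ℝ) ^ 2 * th D j := by
  have h1 : (1 : ℝ) ≤ D := by exact_mod_cast hD
  have h2 := one_le_md j
  unfold th
  have : 64 * (D : ℝ) ^ 2 * (md j / (16 * (D : ℝ) ^ 2)) = 4 * md j := by
    field_simp
    ring
  rw [this]
  linarith

/-- the interpolation formula -/
theorem sum_wt_pow {D : ℕ} (hD : 1 ≤ D) {s : ℕ} (hs : s ≤ D) :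
    ∑ j ∈ range (D + 1), wt D j * (1 - 2 * th D j) ^ s = 1 := by
  have h1 : (1 : ℝ) ≤ D := by exact_mod_cast hD
  have hc : (16 * (D : ℝ) ^ 2) ≠ 0 := by positivity
  have hinj : Set.InjOn (th D) (range (D + 1) : Set ℕ) := by
    intro a ha b hb h
    unfold th at h
    rw [div_left_inj' hc] at h
    exact md_injOn _ ha hb h
  let f : Polynomial ℝ := (1 - Polynomial.C 2 * Polynomial.X) ^ s
  have hdeg : f.degree < (range (D + 1)).card := by
    rw [card_range]
    have hd1 : (1 - Polynomial.C 2 * Polynomial.X : Polynomial ℝ).natDegree ≤ 1 := by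
      refine le_trans (Polynomial.natDegree_sub_le _ _) ?_
      simp only [Polynomial.natDegree_one]
      refine max_le (Nat.zero_le _) ?_
      exact le_trans (Polynomial.natDegree_C_mul_le _ _) Polynomial.natDegree_X_le
    have hd2 : f.natDegree ≤ s := by
      refine le_trans Polynomial.natDegree_pow_le ?_
      calc s * _ ≤ s * 1 := Nat.mul_le_mul_left s hd1
        _ = s := mul_one s
    refine lt_of_le_of_lt Polynomial.degree_le_natDegree ?_
    have : f.natDegree < D + 1 := by omega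
    exact_mod_cast this
  have h := Lagrange.eq_interpolate hinj hdeg
  have h2 := congrArg (Polynomial.eval 0) h
  have e1 : Polynomial.eval 0 f = 1 := by
    simp [f]
  rw [e1, Lagrange.interpolate_apply, Polynomial.eval_finsetSum] at h2
  refine Eq.trans ?_ h2.symm
  apply sum_congr rfl
  intro j hj
  rw [Polynomial.eval_mul, Polynomial.eval_C]
  have e2 : Polynomial.eval (th D j) f = (1 - 2 * th D j) ^ s := by
    simp [f]
  rw [e2, mul_comm]
  congr 1
  unfold wt
  rw [Lagrange.basis, Polynomial.eval_prod]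
  apply prod_congr rfl
  intro i hi
  rw [Lagrange.basisDivisor, Polynomial.eval_mul, Polynomial.eval_C, Polynomial.eval_sub,
    Polynomial.eval_X, Polynomial.eval_C]
  have hne : th D j ≠ th D i := by
    intro e
    have := hinj hj (mem_of_mem_erase hi) e
    exact (ne_of_mem_erase hi) this.symm
  have hne2 : md i - md j ≠ 0 := by
    intro e
    apply hne
    unfold th
    rw [sub_eq_zero.1 e]
  have hne3 : th D j - th D i ≠ 0 := sub_ne_zero.2 hne
  unfold th at hne3 ⊢
  rw [← sub_div, inv_div, zero_sub]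
  rw [← sub_div] at hne3
  have hne4 : md j - md i ≠ 0 := by
    intro e
    apply hne3
    rw [e, zero_div]
  have hne5 : md i - md j = -(md j - md i) := by ring
  rw [hne5]
  field_simp

end Pool.Agent.Lib_helper45.PPQ2
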